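import Mathlib

/-!
# p-integral rationals and congruences

`ZP p` is the subring of rationals whose denominator is prime to `p`;
`Dv p k x` says that `x` lies in `p ^ k * ZP p`; `Un p x` says that `x` is a unit of `ZP p`.
-/

namespace MP18afd0

open Finset

/-- The subring of `p`-integral rationals. -/
def ZP (p : ℕ) [hp : Fact p.Prime] : Subring ℚ where
  carrier := {x | padicNorm p x ≤ 1}
  mul_mem' := by
    intro a b ha hb
    simp only [Set.mem_setOf_eq] at *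
    rw [padicNorm.mul]
    exact mul_le_one₀ ha (padicNorm.nonneg _) hb
  one_mem' := by simp [Set.mem_setOf_eq, padicNorm.one]
  add_mem' := by
    intro a b ha hb
    simp only [Set.mem_setOf_eq] at *
    exact le_trans padicNorm.nonarchimedean (max_le ha hb)
  zero_mem' := by simp [Set.mem_setOf_eq, padicNorm.zero]
  neg_mem' := by
    intro a ha
    simp only [Set.mem_setOf_eq] at *
    rwa [padicNorm.neg]

variable {p : ℕ} [hp : Fact p.Prime]

theorem mem_ZP {x : ℚ} : x ∈ ZP p ↔ padicNorm p x ≤ 1 := Iff.rfl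

/-- `x` is divisible by `p ^ k` in the ring of `p`-integral rationals. -/
def Dv (p : ℕ) [hp : Fact p.Prime] (k : ℕ) (x : ℚ) : Prop := ∃ z ∈ ZP p, x = (p : ℚ) ^ k * z

/-- `x` is a unit of the ring of `p`-integral rationals. -/
def Un (p : ℕ) (x : ℚ) : Prop := padicNorm p x = 1

theorem Un.mem {x : ℚ} (h : Un p x) : x ∈ ZP p := le_of_eq h

theorem Un.ne_zero {x : ℚ} (h : Un p x) : x ≠ 0 := by
  rintro rfl
  simp [Un] at h

theorem Un.inv {x : ℚ} (h : Un p x) : Un p x⁻¹ := by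
  unfold Un at *
  rw [← one_div, padicNorm.div, padicNorm.one, h, div_one]

theorem Un.mul {x y : ℚ} (hx : Un p x) (hy : Un p y) : Un p (x * y) := by
  unfold Un at *
  rw [padicNorm.mul, hx, hy, mul_one]

theorem Un.neg {x : ℚ} (hx : Un p x) : Un p (-x) := by
  unfold Un at *
  rwa [padicNorm.neg]

theorem Un.pow {x : ℚ} (hx : Un p x) (n : ℕ) : Un p (x ^ n) := by
  induction n with
  | zero => simp [Un, padicNorm.one]
  | succ n ih => rw [pow_succ]; exact ih.mul hx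

theorem Un.div {x y : ℚ} (hx : Un p x) (hy : Un p y) : Un p (x / y) := by
  rw [div_eq_mul_inv]; exact hx.mul hy.inv

theorem Un_one : Un p (1 : ℚ) := padicNorm.one

theorem Un_nat {n : ℕ} (h : ¬ p ∣ n) : Un p (n : ℚ) := (padicNorm.nat_eq_one_iff n).2 h

theorem Un_prod {ι : Type*} (s : Finset ι) (f : ι → ℚ) (h : ∀ i ∈ s, Un p (f i)) :
    Un p (∏ i ∈ s, f i) := by
  classical
  induction s using Finset.induction_on with
  | empty => simpa using Un_one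
  | insert a s ha ih =>
    rw [Finset.prod_insert ha]
    exact (h a (Finset.mem_insert_self a s)).mul
      (ih (fun i hi => h i (Finset.mem_insert_of_mem hi)))

theorem mem_inv_of_Un {x : ℚ} (h : Un p x) : x⁻¹ ∈ ZP p := h.inv.mem

theorem mem_div_of_Un {x y : ℚ} (hx : x ∈ ZP p) (h : Un p y) : x / y ∈ ZP p := by
  rw [div_eq_mul_inv]; exact (ZP p).mul_mem hx h.inv.mem

theorem nat_mem (n : ℕ) : (n : ℚ) ∈ ZP p := natCast_mem _ n

theorem int_mem (n : ℤ) : (n : ℚ) ∈ ZP p := intCast_mem _ n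

theorem p_mem : (p : ℚ) ∈ ZP p := nat_mem p

theorem p_ne : (p : ℚ) ≠ 0 := by
  exact_mod_cast hp.out.ne_zero

/-! ### Divisibility -/

theorem Dv_iff {k : ℕ} {x : ℚ} : Dv p k x ↔ x / (p : ℚ) ^ k ∈ ZP p := by
  have h : (p : ℚ) ^ k ≠ 0 := pow_ne_zero _ p_ne
  constructor
  · rintro ⟨z, hz, rfl⟩
    rwa [mul_div_cancel_left₀ _ h]
  · intro hx
    exact ⟨_, hx, by field_simp⟩

theorem Dv.mem {k : ℕ} {x : ℚ} (h : Dv p k x) : x ∈ ZP p := by
  obtain ⟨z, hz, rfl⟩ := h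
  exact (ZP p).mul_mem ((ZP p).pow_mem p_mem _) hz

theorem Dv_zero_iff {x : ℚ} : Dv p 0 x ↔ x ∈ ZP p := by
  constructor
  · exact fun h => h.mem
  · exact fun h => ⟨x, h, by simp⟩

theorem Dv_of_mem {k : ℕ} {z : ℚ} (hz : z ∈ ZP p) : Dv p k ((p : ℚ) ^ k * z) := ⟨z, hz, rfl⟩

theorem Dv_zero {k : ℕ} : Dv p k (0 : ℚ) := ⟨0, (ZP p).zero_mem, by simp⟩

theorem Dv.add {k : ℕ} {x y : ℚ} (hx : Dv p k x) (hy : Dv p k y) : Dv p k (x + y) := by
  obtain ⟨z, hz, rfl⟩ := hx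
  obtain ⟨w, hw, rfl⟩ := hy
  exact ⟨z + w, (ZP p).add_mem hz hw, by ring⟩

theorem Dv.neg {k : ℕ} {x : ℚ} (hx : Dv p k x) : Dv p k (-x) := by
  obtain ⟨z, hz, rfl⟩ := hx
  exact ⟨-z, (ZP p).neg_mem hz, by ring⟩

theorem Dv.sub {k : ℕ} {x y : ℚ} (hx : Dv p k x) (hy : Dv p k y) : Dv p k (x - y) := by
  rw [sub_eq_add_neg]; exact hx.add hy.neg

theorem Dv.smul {k : ℕ} {x z : ℚ} (hz : z ∈ ZP p) (hx : Dv p k x) : Dv p k (z * x) := by
  obtain ⟨w, hw, rfl⟩ := hx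
  exact ⟨z * w, (ZP p).mul_mem hz hw, by ring⟩

theorem Dv.smul' {k : ℕ} {x z : ℚ} (hz : z ∈ ZP p) (hx : Dv p k x) : Dv p k (x * z) := by
  rw [mul_comm]; exact hx.smul hz

theorem Dv.mul {j k : ℕ} {x y : ℚ} (hx : Dv p j x) (hy : Dv p k y) : Dv p (j + k) (x * y) := by
  obtain ⟨z, hz, rfl⟩ := hx
  obtain ⟨w, hw, rfl⟩ := hy
  exact ⟨z * w, (ZP p).mul_mem hz hw, by ring⟩

theorem Dv.mono {j k : ℕ} (hjk : j ≤ k) {x : ℚ} (hx : Dv p k x) : Dv p j x := by
  obtain ⟨z, hz, rfl⟩ := hx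
  obtain ⟨d, rfl⟩ := Nat.exists_eq_add_of_le hjk
  exact ⟨(p : ℚ) ^ d * z, (ZP p).mul_mem ((ZP p).pow_mem p_mem _) hz, by ring⟩

theorem Dv_p : Dv p 1 (p : ℚ) := ⟨1, (ZP p).one_mem, by ring⟩

theorem Dv_pow (k : ℕ) : Dv p k ((p : ℚ) ^ k) := ⟨1, (ZP p).one_mem, by ring⟩

theorem Dv.sum {ι : Type*} {k : ℕ} (s : Finset ι) (f : ι → ℚ) (h : ∀ i ∈ s, Dv p k (f i)) :
    Dv p k (∑ i ∈ s, f i) := by
  classical
  induction s using Finset.induction_on with
  | empty => simpa using Dv_zero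
  | insert a s ha ih =>
    rw [Finset.sum_insert ha]
    exact (h a (Finset.mem_insert_self a s)).add
      (ih (fun i hi => h i (Finset.mem_insert_of_mem hi)))

theorem Dv.congr {k : ℕ} {x y : ℚ} (h : Dv p k x) (e : x = y) : Dv p k y := e ▸ h

/-- cancel a unit -/
theorem Dv.cancel {k : ℕ} {x u : ℚ} (hu : Un p u) (h : Dv p k (u * x)) : Dv p k x := by
  have := h.smul hu.inv.mem
  rwa [← mul_assoc, inv_mul_cancel₀ hu.ne_zero, one_mul] at this

/-- cancel powers of `p` -/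
theorem Dv.cancel_p {j k : ℕ} {x : ℚ} (h : Dv p (j + k) ((p : ℚ) ^ j * x)) : Dv p k x := by
  obtain ⟨z, hz, hx⟩ := h
  refine ⟨z, hz, ?_⟩
  have h0 : (p : ℚ) ^ j ≠ 0 := pow_ne_zero _ p_ne
  apply mul_left_cancel₀ h0
  rw [hx]; ring

/-! ### Congruences -/

/-- congruence modulo `p ^ k` -/
def Cg (p : ℕ) [hp : Fact p.Prime] (k : ℕ) (x y : ℚ) : Prop := Dv p k (x - y)

theorem Cg.refl {k : ℕ} (x : ℚ) : Cg p k x x := by
  unfold Cg; rw [sub_self]; exact Dv_zero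

theorem Cg.of_eq {k : ℕ} {x y : ℚ} (h : x = y) : Cg p k x y := h ▸ Cg.refl x

theorem Cg.symm {k : ℕ} {x y : ℚ} (h : Cg p k x y) : Cg p k y x := by
  have := Dv.neg h
  exact this.congr (by ring)

theorem Cg.trans {k : ℕ} {x y z : ℚ} (h : Cg p k x y) (h' : Cg p k y z) : Cg p k x z :=
  (Dv.add h h').congr (by ring)

theorem Cg.add {k : ℕ} {x y x' y' : ℚ} (h : Cg p k x y) (h' : Cg p k x' y') :
    Cg p k (x + x') (y + y') :=
  (Dv.add h h').congr (by ring)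

theorem Cg.sub {k : ℕ} {x y x' y' : ℚ} (h : Cg p k x y) (h' : Cg p k x' y') :
    Cg p k (x - x') (y - y') :=
  (Dv.sub h h').congr (by ring)

theorem Cg.neg {k : ℕ} {x y : ℚ} (h : Cg p k x y) : Cg p k (-x) (-y) :=
  (Dv.neg h).congr (by ring)

theorem Cg.smul {k : ℕ} {x y z : ℚ} (hz : z ∈ ZP p) (h : Cg p k x y) : Cg p k (z * x) (z * y) :=
  (Dv.smul hz h).congr (by ring)

theorem Cg.mem {k : ℕ} {x y : ℚ} (h : Cg p k x y) (hy : y ∈ ZP p) : x ∈ ZP p := by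
  have := (ZP p).add_mem (Dv.mem h) hy
  rwa [sub_add_cancel] at this

theorem Cg.mem' {k : ℕ} {x y : ℚ} (h : Cg p k x y) (hx : x ∈ ZP p) : y ∈ ZP p := h.symm.mem hx

theorem Cg.mul {k : ℕ} {x y x' y' : ℚ} (h : Cg p k x y) (h' : Cg p k x' y') (hy : y ∈ ZP p)
    (hy' : x' ∈ ZP p) : Cg p k (x * x') (y * y') := by
  have h1 := Dv.smul hy' h
  have h2 := Dv.smul hy h'
  exact (h1.add h2).congr (by ring)

theorem Cg.mono {j k : ℕ} (hjk : j ≤ k) {x y : ℚ} (h : Cg p k x y) : Cg p j x y :=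
  Dv.mono hjk h

theorem Cg.pow {k : ℕ} {x y : ℚ} (h : Cg p k x y) (hy : y ∈ ZP p) (n : ℕ) :
    Cg p k (x ^ n) (y ^ n) := by
  induction n with
  | zero => simpa using Cg.refl 1
  | succ n ih =>
    rw [pow_succ, pow_succ]
    exact ih.mul h ((ZP p).pow_mem hy _) (h.mem hy)

theorem Cg.sum {ι : Type*} {k : ℕ} (s : Finset ι) (f g : ι → ℚ)
    (h : ∀ i ∈ s, Cg p k (f i) (g i)) : Cg p k (∑ i ∈ s, f i) (∑ i ∈ s, g i) := by
  unfold Cg
  rw [← Finset.sum_sub_distrib]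
  exact Dv.sum s _ h

theorem Cg.inv {k : ℕ} {x y : ℚ} (h : Cg p k x y) (hx : Un p x) (hy : Un p y) :
    Cg p k x⁻¹ y⁻¹ := by
  have h1 := (Dv.smul (hx.inv.mul hy.inv).mem h).neg
  refine h1.congr ?_
  have := hx.ne_zero
  have := hy.ne_zero
  field_simp
  ring

theorem Un_add {x y : ℚ} (hx : Un p x) (hy : Dv p 1 y) : Un p (x + y) := by
  obtain ⟨z, hz, rfl⟩ := hy
  unfold Un at *
  have h1 : padicNorm p ((p : ℚ) ^ 1 * z) < 1 := by
    rw [padicNorm.mul, pow_one]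
    have h2 : padicNorm p (p : ℚ) < 1 := padicNorm.padicNorm_p_lt_one_of_prime
    have h3 : padicNorm p z ≤ 1 := hz
    have h4 : 0 ≤ padicNorm p z := padicNorm.nonneg _
    have h5 : 0 ≤ padicNorm p (p : ℚ) := padicNorm.nonneg _
    nlinarith
  rw [padicNorm.add_eq_max_of_ne (by rw [hx]; exact ne_of_gt h1), hx]
  exact max_eq_left (le_of_lt h1)

theorem Un_of_Cg {x y : ℚ} {k : ℕ} (hk : 1 ≤ k) (h : Cg p k x y) (hy : Un p y) : Un p x := by
  have := Un_add hy (Dv.mono hk h)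
  rwa [add_sub_cancel] at this

/-! ### Constants -/

/-- standing hypothesis in a convenient form -/
theorem Un_two (h3 : 3 < p) : Un p (2 : ℚ) := by
  have : ¬ p ∣ 2 := fun h => by
    have := Nat.le_of_dvd (by norm_num) h
    omega
  exact_mod_cast Un_nat this

theorem Un_three (h3 : 3 < p) : Un p (3 : ℚ) := by
  have : ¬ p ∣ 3 := fun h => by
    have := Nat.le_of_dvd (by norm_num) h
    omega
  exact_mod_cast Un_nat this

/-- rational constants whose denominator is of the form `2 ^ i * 3 ^ j` -/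
theorem const_mem (h3 : 3 < p) (i j : ℕ) {x : ℚ} (a : ℤ) (h : x * (2 ^ i * 3 ^ j) = a) :
    x ∈ ZP p := by
  have hu : Un p ((2 : ℚ) ^ i * 3 ^ j) := ((Un_two h3).pow i).mul ((Un_three h3).pow j)
  have : x = a / (2 ^ i * 3 ^ j) := by
    rw [← h]; field_simp
  rw [this]
  exact mem_div_of_Un (int_mem a) hu

theorem Un_const (h3 : 3 < p) (i j k l : ℕ) {x : ℚ}
    (h : x * (2 ^ i * 3 ^ j) = 2 ^ k * 3 ^ l) : Un p x := by
  have hu : Un p ((2 : ℚ) ^ i * 3 ^ j) := ((Un_two h3).pow i).mul ((Un_three h3).pow j)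
  have hv : Un p ((2 : ℚ) ^ k * 3 ^ l) := ((Un_two h3).pow k).mul ((Un_three h3).pow l)
  have : x = (2 ^ k * 3 ^ l) / (2 ^ i * 3 ^ j) := by
    rw [← h]; field_simp
  rw [this]
  exact hv.div hu

theorem half_mem (h3 : 3 < p) : (1 / 2 : ℚ) ∈ ZP p := const_mem h3 1 0 1 (by norm_num)

theorem third_mem (h3 : 3 < p) : (1 / 3 : ℚ) ∈ ZP p := const_mem h3 0 1 1 (by norm_num)

theorem twothird_mem (h3 : 3 < p) : (2 / 3 : ℚ) ∈ ZP p := const_mem h3 0 1 2 (by norm_num)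

/-- linear combinations -/
theorem Dv.lin2 {k : ℕ} {x y z : ℚ} {a b : ℚ} (hx : Dv p k x) (hy : Dv p k y)
    (ha : a ∈ ZP p) (hb : b ∈ ZP p) (e : z = a * x + b * y) : Dv p k z := by
  rw [e]; exact (hx.smul ha).add (hy.smul hb)

theorem Dv.lin3 {k : ℕ} {x y w z : ℚ} {a b c : ℚ} (hx : Dv p k x) (hy : Dv p k y)
    (hw : Dv p k w) (ha : a ∈ ZP p) (hb : b ∈ ZP p) (hc : c ∈ ZP p)
    (e : z = a * x + b * y + c * w) : Dv p k z := by
  rw [e]; exact ((hx.smul ha).add (hy.smul hb)).add (hw.smul hc)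

theorem Dv.lin4 {k : ℕ} {x y w v z : ℚ} {a b c d : ℚ} (hx : Dv p k x) (hy : Dv p k y)
    (hw : Dv p k w) (hv : Dv p k v) (ha : a ∈ ZP p) (hb : b ∈ ZP p) (hc : c ∈ ZP p)
    (hd : d ∈ ZP p) (e : z = a * x + b * y + c * w + d * v) : Dv p k z := by
  rw [e]; exact (((hx.smul ha).add (hy.smul hb)).add (hw.smul hc)).add (hv.smul hd)

/-! ### Relation with denominators -/

theorem mem_ZP_iff_den {x : ℚ} : x ∈ ZP p ↔ ¬ (p ∣ x.den) := by
  rw [mem_ZP]
  constructor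
  · intro h hd
    have hx : x = x.num / x.den := (Rat.num_div_den x).symm
    have hnum : ¬ ((p : ℤ) ∣ x.num) := by
      intro hn
      have hc := x.reduced
      have h1 : p ∣ x.num.natAbs := Int.natCast_dvd.mp hn
      have h2 := Nat.dvd_gcd h1 hd
      rw [hc.gcd_eq_one] at h2
      exact hp.out.one_lt.ne' (Nat.dvd_one.mp h2)
    have h1 : padicNorm p (x.num : ℚ) = 1 := (padicNorm.int_eq_one_iff _).2 hnum
    have h2 : padicNorm p (x.den : ℚ) < 1 := (padicNorm.nat_lt_one_iff _).2 hd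
    rw [hx, padicNorm.div, h1] at h
    have h0 : padicNorm p (x.den : ℚ) ≠ 0 := by
      apply padicNorm.nonzero
      exact_mod_cast x.den_nz
    have h00 : 0 < padicNorm p (x.den : ℚ) := lt_of_le_of_ne (padicNorm.nonneg _) (Ne.symm h0)
    rw [div_le_one h00] at h
    linarith
  · intro hd
    have hx : x = x.num / x.den := (Rat.num_div_den x).symm
    have h2 : padicNorm p (x.den : ℚ) = 1 := (padicNorm.nat_eq_one_iff _).2 hd
    rw [hx, padicNorm.div, h2, div_one]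
    exact padicNorm.of_int _

end MP18afd0
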