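import Mathlib
import Pool.Agent.Work.MP_18afd0_nt.Basic

/-!
# Harmonic sums modulo powers of `p` and products over blocks of length `p`
-/

namespace MP18afd0

open Finset

variable {p : ℕ} [hp : Fact p.Prime]

/-- second order harmonic numbers -/
def H2 (n : ℕ) : ℚ := ∑ i ∈ range n, 1 / ((i : ℚ) + 1) ^ 2

theorem Un_small {n : ℕ} (h0 : 0 < n) (h1 : n < p) : Un p (n : ℚ) :=
  Un_nat (fun h => absurd (Nat.le_of_dvd h0 h) (by omega))

theorem Un_succ {i : ℕ} (h1 : i + 1 < p) : Un p ((i : ℚ) + 1) := by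
  have := Un_small (p := p) (n := i + 1) (by omega) h1
  exact_mod_cast this

theorem Dv_pmul {z : ℚ} (hz : z ∈ ZP p) : Dv p 1 ((p : ℚ) * z) := ⟨z, hz, by ring⟩

theorem sum_zmod_pow (k : ℕ) :
    ∑ i ∈ range p, ((i : ℕ) : ZMod p) ^ k = ∑ x : ZMod p, x ^ k := by
  refine Finset.sum_nbij (fun i => ((i : ℕ) : ZMod p)) ?_ ?_ ?_ ?_
  · intro a _; exact Finset.mem_univ _
  · intro a ha b hb hab
    simp only [Finset.coe_range, Set.mem_Iio] at ha hb
    have h1 := congrArg ZMod.val hab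
    simp only [ZMod.val_natCast] at h1
    rwa [Nat.mod_eq_of_lt ha, Nat.mod_eq_of_lt hb] at h1
  · intro x _
    refine ⟨x.val, ?_, ?_⟩
    · simp only [Finset.coe_range, Set.mem_Iio]
      exact ZMod.val_lt x
    · exact ZMod.natCast_zmod_val x
  · intro a _; rfl

theorem sum_pow_dvd (h3 : 3 < p) : (p : ℤ) ∣ ∑ i ∈ range p, (i : ℤ) ^ (p - 3) := by
  rw [← ZMod.intCast_zmod_eq_zero_iff_dvd]
  push_cast
  rw [sum_zmod_pow]
  apply FiniteField.sum_pow_lt_card_sub_one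
  rw [ZMod.card]
  omega

theorem Dv_of_int_dvd {a : ℤ} (h : (p : ℤ) ∣ a) : Dv p 1 (a : ℚ) := by
  obtain ⟨b, rfl⟩ := h
  exact ⟨b, int_mem b, by push_cast; ring⟩

theorem inv_sq_congr_pow (h3 : 3 < p) {i : ℕ} (h0 : 0 < i) (h1 : i < p) :
    Cg p 1 (1 / (i : ℚ) ^ 2) ((i : ℚ) ^ (p - 3)) := by
  have hu : Un p (i : ℚ) := Un_small h0 h1
  have hc : IsCoprime (i : ℤ) (p : ℤ) := by
    rw [Nat.isCoprime_iff_coprime]
    exact ((hp.out.coprime_iff_not_dvd).2
      (fun h => absurd (Nat.le_of_dvd h0 h) (by omega))).symm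
  have hf := (Int.ModEq.pow_card_sub_one_eq_one hp.out hc).dvd
  have hd : Dv p 1 ((1 : ℚ) - (i : ℚ) ^ (p - 1)) := by
    have := Dv_of_int_dvd hf
    push_cast at this
    exact this
  have := hd.smul (hu.pow 2).inv.mem
  refine this.congr ?_
  have hne := hu.ne_zero
  have e : (i : ℚ) ^ (p - 1) = (i : ℚ) ^ (p - 3) * (i : ℚ) ^ 2 := by
    rw [← pow_add]; congr 1; omega
  rw [e]
  field_simp

theorem H2_congr_pow (h3 : 3 < p) {n : ℕ} (hn : n < p) :
    Cg p 1 (H2 n) (∑ i ∈ range (n + 1), (i : ℚ) ^ (p - 3)) := by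
  rw [Finset.sum_range_succ']
  have h0 : ((0 : ℕ) : ℚ) ^ (p - 3) = 0 := by
    rw [Nat.cast_zero, zero_pow (by omega)]
  rw [h0, add_zero]
  unfold H2
  apply Cg.sum
  intro i hi
  rw [Finset.mem_range] at hi
  have := inv_sq_congr_pow h3 (i := i + 1) (by omega) (by omega)
  push_cast at this ⊢
  exact this

theorem H2_top (h3 : 3 < p) : Dv p 1 (H2 (p - 1)) := by
  have h := H2_congr_pow h3 (n := p - 1) (by omega)
  have e : p - 1 + 1 = p := by omega
  rw [e] at h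
  have h2 := Dv_of_int_dvd (sum_pow_dvd h3)
  push_cast at h2
  have := Dv.add h h2
  exact this.congr (by ring)

theorem inv_sq_congr {x y : ℚ} (hx : Un p x) (hy : Un p y) (h : Dv p 1 (x - y)) :
    Cg p 1 (1 / x ^ 2) (1 / y ^ 2) := by
  have h1 : Cg p 1 (x ^ 2) (y ^ 2) := Cg.pow h hy.mem 2
  have := Cg.inv h1 (hx.pow 2) (hy.pow 2)
  simpa [one_div] using this

theorem inv_sq_congr' {x y : ℚ} (hx : Un p x) (hy : Un p y) (h : Dv p 1 (x + y)) :
    Cg p 1 (1 / x ^ 2) (1 / y ^ 2) := by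
  have := inv_sq_congr hx hy.neg (h.congr (by ring))
  rwa [neg_sq] at this

theorem H2_half (h3 : 3 < p) {h : ℕ} (hh : p = 2 * h + 1) : Dv p 1 (H2 h) := by
  have h1 := H2_top h3
  have e : p - 1 = h + h := by omega
  rw [e] at h1
  have h2 : H2 (h + h) = H2 h + ∑ i ∈ range h, 1 / ((p : ℚ) - (i + 1)) ^ 2 := by
    unfold H2
    rw [Finset.sum_range_add]
    congr 1
    rw [← Finset.sum_range_reflect]
    apply Finset.sum_congr rfl
    intro i hi
    rw [Finset.mem_range] at hi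
    have : ((h + (h - 1 - i) : ℕ) : ℚ) + 1 = (p : ℚ) - (i + 1) := by
      have e2 : h + (h - 1 - i) + 1 + (i + 1) = p := by omega
      have e3 : ((h + (h - 1 - i) + 1 + (i + 1) : ℕ) : ℚ) = (p : ℚ) := by rw [e2]
      push_cast at e3 ⊢
      linarith
    rw [this]
  have h4 : Cg p 1 (∑ i ∈ range h, 1 / ((p : ℚ) - (i + 1)) ^ 2) (H2 h) := by
    unfold H2
    apply Cg.sum
    intro i hi
    rw [Finset.mem_range] at hi
    have hu : Un p ((i : ℚ) + 1) := Un_succ (by omega)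
    have hv : Un p ((p : ℚ) - (i + 1)) := by
      have := Un_add hu.neg Dv_p
      convert this using 1; ring
    apply inv_sq_congr' hv hu
    exact Dv_p.congr (by ring)
  have h5 : Dv p 1 (2 * H2 h) := by
    rw [h2] at h1
    have := h1.sub h4
    exact this.congr (by ring)
  exact h5.cancel (Un_two h3)

theorem H2_mem {n : ℕ} (hn : n < p) : H2 n ∈ ZP p := by
  unfold H2
  apply sum_mem
  intro i hi
  rw [Finset.mem_range] at hi
  exact mem_div_of_Un (one_mem _) ((Un_succ (by omega)).pow 2)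

/-- units of the form `p z + i + 1` -/
theorem Un_shift {z : ℚ} (hz : z ∈ ZP p) {i : ℕ} (h1 : i + 1 < p) :
    Un p ((p : ℚ) * z + (i + 1)) := by
  have := Un_add (Un_succ (p := p) h1) (Dv_pmul hz)
  convert this using 1; ring

/-- harmonic sum over a block is divisible by `p ^ 2` -/
theorem harmonic_block (h3 : 3 < p) {z : ℚ} (hz : z ∈ ZP p) :
    Dv p 2 (∑ i ∈ range (p - 1), 1 / ((p : ℚ) * z + (i + 1))) := by
  set S := ∑ i ∈ range (p - 1), 1 / ((p : ℚ) * z + (i + 1)) with hS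
  have hrefl : S = ∑ i ∈ range (p - 1), 1 / ((p : ℚ) * z + (p - (i + 1))) := by
    rw [hS, ← Finset.sum_range_reflect]
    apply Finset.sum_congr rfl
    intro i hi
    rw [Finset.mem_range] at hi
    have e2 : (p - 1 - 1 - i) + 1 + (i + 1) = p := by omega
    have e3 : (((p - 1 - 1 - i) + 1 + (i + 1) : ℕ) : ℚ) = (p : ℚ) := by rw [e2]
    push_cast at e3
    have : (((p - 1 - 1 - i : ℕ) : ℚ) + 1) = (p : ℚ) - (i + 1) := by linarith
    rw [this]
  have h2 : 2 * S = (p : ℚ) * (2 * z + 1) *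
      ∑ i ∈ range (p - 1), 1 / (((p : ℚ) * z + (i + 1)) * ((p : ℚ) * z + (p - (i + 1)))) := by
    rw [two_mul]
    nth_rewrite 2 [hrefl]
    rw [hS, ← Finset.sum_add_distrib, Finset.mul_sum]
    apply Finset.sum_congr rfl
    intro i hi
    rw [Finset.mem_range] at hi
    have hu : Un p ((p : ℚ) * z + (i + 1)) := Un_shift hz (by omega)
    have hv : Un p ((p : ℚ) * z + (p - (i + 1))) := by
      have := Un_add (Un_succ (p := p) (i := i) (by omega)).neg (Dv_pmul ((ZP p).add_mem hz (one_mem _)))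
      convert this using 1; ring
    have := hu.ne_zero
    have := hv.ne_zero
    field_simp
    ring
  have h4 : Dv p 1 (∑ i ∈ range (p - 1),
      1 / (((p : ℚ) * z + (i + 1)) * ((p : ℚ) * z + (p - (i + 1))))) := by
    have h5 : Cg p 1 (∑ i ∈ range (p - 1),
      1 / (((p : ℚ) * z + (i + 1)) * ((p : ℚ) * z + (p - (i + 1))))) (∑ i ∈ range (p - 1), -(1 / ((i : ℚ) + 1) ^ 2)) := by
      apply Cg.sum
      intro i hi
      rw [Finset.mem_range] at hi
      have hu0 : Un p ((i : ℚ) + 1) := Un_succ (by omega)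
      have hu : Un p ((p : ℚ) * z + (i + 1)) := Un_shift hz (by omega)
      have hv : Un p ((p : ℚ) * z + (p - (i + 1))) := by
        have := Un_add hu0.neg (Dv_pmul ((ZP p).add_mem hz (one_mem _)))
        convert this using 1; ring
      have hc1 : Cg p 1 ((p : ℚ) * z + (i + 1)) ((i : ℚ) + 1) := (Dv_pmul hz).congr (by ring)
      have hc2 : Cg p 1 ((p : ℚ) * z + (p - (i + 1))) (-((i : ℚ) + 1)) :=
        (Dv_pmul ((ZP p).add_mem hz (one_mem _))).congr (by ring)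
      have hc := Cg.mul hc1 hc2 hu0.mem hv.mem
      have hi := Cg.inv hc (hu.mul hv) (hu0.mul hu0.neg)
      rw [one_div]
      refine hi.trans (Cg.of_eq ?_)
      have := hu0.ne_zero
      field_simp
    have h6 : Dv p 1 (∑ i ∈ range (p - 1), -(1 / ((i : ℚ) + 1) ^ 2)) := by
      rw [Finset.sum_neg_distrib]
      exact (H2_top h3).neg
    have := Dv.add h5 h6
    exact this.congr (by ring)
  have h7 : Dv p 2 (2 * S) := by
    rw [h2]
    have hw : (2 * z + 1) ∈ ZP p := by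
      apply add_mem _ (one_mem _)
      exact mul_mem (Un_two h3).mem hz
    have := Dv.mul (Dv_pmul hw) h4
    exact this
  exact h7.cancel (Un_two h3)

/-- odd harmonic sum over a block (`p = 2 h + 1`), the middle term being removed -/
theorem odd_harmonic_block (h3 : 3 < p) {h : ℕ} (hh : p = 2 * h + 1) {l : ℚ} (hl : l ∈ ZP p) :
    Dv p 2 (∑ i ∈ (range p).erase h, 1 / (2 * ((p : ℚ) * l) + (2 * i + 1))) := by
  -- split into two halves
  have hsplit : ∑ i ∈ (range p).erase h, 1 / (2 * ((p : ℚ) * l) + (2 * i + 1)) =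
      ∑ i ∈ range h, (1 / ((p : ℚ) * (2 * l + 1) - 2 * (i + 1)) +
        1 / ((p : ℚ) * (2 * l + 1) + 2 * (i + 1))) := by
    have e1 := Finset.sum_erase_add (range p)
      (fun i : ℕ => 1 / (2 * ((p : ℚ) * l) + (2 * (i : ℚ) + 1))) (a := h)
      (by rw [Finset.mem_range]; omega)
    have e2 : ∑ i ∈ range p, 1 / (2 * ((p : ℚ) * l) + (2 * (i : ℚ) + 1)) =
        ∑ i ∈ range (h + 1), 1 / (2 * ((p : ℚ) * l) + (2 * (i : ℚ) + 1)) +
        ∑ i ∈ range h, 1 / (2 * ((p : ℚ) * l) + (2 * (((h + 1 + i : ℕ) : ℚ)) + 1)) := by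
      rw [← Finset.sum_range_add]
      congr 2
      omega
    have hpq : (p : ℚ) = 2 * (h : ℚ) + 1 := by rw [hh]; push_cast; ring
    rw [Finset.sum_add_distrib]
    rw [Finset.sum_range_succ] at e2
    have e3 : ∑ i ∈ range h, 1 / (2 * ((p : ℚ) * l) + (2 * (i : ℚ) + 1)) =
        ∑ i ∈ range h, 1 / ((p : ℚ) * (2 * l + 1) - 2 * (i + 1)) := by
      rw [← Finset.sum_range_reflect]
      apply Finset.sum_congr rfl
      intro i hi
      rw [Finset.mem_range] at hi
      congr 1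
      have e4 : (h - 1 - i) + 1 + i = h := by omega
      have e5 : (((h - 1 - i) + 1 + i : ℕ) : ℚ) = (h : ℚ) := by rw [e4]
      push_cast at e5
      have : (((h - 1 - i : ℕ) : ℚ)) = (h : ℚ) - 1 - i := by linarith
      rw [this, hpq]
      ring
    have e6 : ∑ i ∈ range h, 1 / (2 * ((p : ℚ) * l) + (2 * (((h + 1 + i : ℕ) : ℚ)) + 1)) =
        ∑ i ∈ range h, 1 / ((p : ℚ) * (2 * l + 1) + 2 * (i + 1)) := by
      apply Finset.sum_congr rfl
      intro i hi
      congr 1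
      push_cast
      rw [hpq]
      ring
    rw [← e3, ← e6]
    linarith [e1, e2]
  rw [hsplit]
  have hc : (2 * l + 1) ∈ ZP p := add_mem (mul_mem (Un_two h3).mem hl) (one_mem _)
  have hterm : ∀ i ∈ range h, (1 / ((p : ℚ) * (2 * l + 1) - 2 * (i + 1)) +
        1 / ((p : ℚ) * (2 * l + 1) + 2 * (i + 1))) =
      (p : ℚ) * (2 * (2 * l + 1) * (1 / (((p : ℚ) * (2 * l + 1) - 2 * (i + 1)) *
        ((p : ℚ) * (2 * l + 1) + 2 * (i + 1))))) := by
    intro i hi
    rw [Finset.mem_range] at hi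
    have hu0 : Un p (2 * ((i : ℚ) + 1)) := (Un_two h3).mul (Un_succ (by omega))
    have hu : Un p ((p : ℚ) * (2 * l + 1) - 2 * (i + 1)) := by
      have := Un_add hu0.neg (Dv_pmul hc)
      convert this using 1; ring
    have hv : Un p ((p : ℚ) * (2 * l + 1) + 2 * (i + 1)) := by
      have := Un_add hu0 (Dv_pmul hc)
      convert this using 1; ring
    have := hu.ne_zero
    have := hv.ne_zero
    field_simp
    ring
  rw [Finset.sum_congr rfl hterm, ← Finset.mul_sum]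
  have h4 : Cg p 1 (∑ i ∈ range h, 2 * (2 * l + 1) * (1 / (((p : ℚ) * (2 * l + 1) - 2 * (i + 1)) *
        ((p : ℚ) * (2 * l + 1) + 2 * (i + 1)))))
      (∑ i ∈ range h, 2 * (2 * l + 1) * (-(1 / 4) * (1 / ((i : ℚ) + 1) ^ 2))) := by
    apply Cg.sum
    intro i hi
    rw [Finset.mem_range] at hi
    apply Cg.smul (mul_mem (Un_two h3).mem hc)
    have hu00 : Un p ((i : ℚ) + 1) := Un_succ (by omega)
    have hu0 : Un p (2 * ((i : ℚ) + 1)) := (Un_two h3).mul hu00
    have hu : Un p ((p : ℚ) * (2 * l + 1) - 2 * (i + 1)) := by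
      have := Un_add hu0.neg (Dv_pmul hc)
      convert this using 1; ring
    have hv : Un p ((p : ℚ) * (2 * l + 1) + 2 * (i + 1)) := by
      have := Un_add hu0 (Dv_pmul hc)
      convert this using 1; ring
    have hc1 : Cg p 1 ((p : ℚ) * (2 * l + 1) - 2 * (i + 1)) (-(2 * ((i : ℚ) + 1))) :=
      (Dv_pmul hc).congr (by ring)
    have hc2 : Cg p 1 ((p : ℚ) * (2 * l + 1) + 2 * (i + 1)) (2 * ((i : ℚ) + 1)) :=
      (Dv_pmul hc).congr (by ring)
    have hc' := Cg.mul hc1 hc2 hu0.neg.mem hv.mem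
    have hi := Cg.inv hc' (hu.mul hv) (hu0.neg.mul hu0)
    rw [one_div]
    refine hi.trans (Cg.of_eq ?_)
    have := hu00.ne_zero
    field_simp
    norm_num
  have h5 : Dv p 1 (∑ i ∈ range h, 2 * (2 * l + 1) * (-(1 / 4) * (1 / ((i : ℚ) + 1) ^ 2))) := by
    rw [← Finset.mul_sum, ← Finset.mul_sum]
    apply Dv.smul (mul_mem (Un_two h3).mem hc)
    apply Dv.smul (const_mem h3 2 0 (-1) (by norm_num))
    exact H2_half h3 hh
  have h6 : Dv p 1 (∑ i ∈ range h, 2 * (2 * l + 1) * (1 / (((p : ℚ) * (2 * l + 1) - 2 * (i + 1)) *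
        ((p : ℚ) * (2 * l + 1) + 2 * (i + 1))))) := (Dv.add h4 h5).congr (by ring)
  exact Dv.mul Dv_p h6

/-- expansion of a product -/
theorem prod_expand (h3 : 3 < p) (n : ℕ) (y : ℕ → ℚ) (hy : ∀ i < n, y i ∈ ZP p) :
    ∃ E ∈ ZP p, 2 * E = (∑ i ∈ range n, y i) ^ 2 - ∑ i ∈ range n, y i ^ 2 ∧
      ∀ x ∈ ZP p, ∃ K ∈ ZP p, ∏ i ∈ range n, (1 + x * y i) =
        1 + x * ∑ i ∈ range n, y i + x ^ 2 * E + x ^ 3 * K := by
  induction n with
  | zero =>
    refine ⟨0, zero_mem _, by simp, fun x _ => ⟨0, zero_mem _, by simp⟩⟩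
  | succ n ih =>
    obtain ⟨E, hE, hE2, hK⟩ := ih (fun i hi => hy i (by omega))
    have hyn : y n ∈ ZP p := hy n (by omega)
    have hs : ∑ i ∈ range n, y i ∈ ZP p := sum_mem (fun i hi => hy i (by
      rw [Finset.mem_range] at hi; omega))
    refine ⟨E + (∑ i ∈ range n, y i) * y n, add_mem hE (mul_mem hs hyn), ?_, ?_⟩
    · rw [Finset.sum_range_succ, Finset.sum_range_succ]
      linear_combination hE2
    · intro x hx
      obtain ⟨K, hKm, hKe⟩ := hK x hx
      refine ⟨K + E * y n + x * K * y n, add_mem (add_mem hKm (mul_mem hE hyn))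
        (mul_mem (mul_mem hx hKm) hyn), ?_⟩
      rw [Finset.prod_range_succ, Finset.sum_range_succ, hKe]
      ring

/-- the product over a block -/
def Blk (p : ℕ) (z : ℚ) : ℚ := ∏ i ∈ range (p - 1), ((p : ℚ) * z + (i + 1))

/-- relative congruence -/
def Rl (p : ℕ) [hp : Fact p.Prime] (k : ℕ) (x y : ℚ) : Prop := ∃ w ∈ ZP p, x = y * (1 + (p : ℚ) ^ k * w)

theorem Rl.refl (k : ℕ) (x : ℚ) : Rl p k x x := ⟨0, zero_mem _, by ring⟩

theorem Rl.mul {k : ℕ} {x y x' y' : ℚ} (h : Rl p k x y) (h' : Rl p k x' y') :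
    Rl p k (x * x') (y * y') := by
  obtain ⟨w, hw, rfl⟩ := h
  obtain ⟨w', hw', rfl⟩ := h'
  refine ⟨w + w' + (p : ℚ) ^ k * (w * w'), ?_, by ring⟩
  exact add_mem (add_mem hw hw') (mul_mem (pow_mem p_mem _) (mul_mem hw hw'))

theorem Un_one_add {k : ℕ} (hk : 1 ≤ k) {w : ℚ} (hw : w ∈ ZP p) :
    Un p (1 + (p : ℚ) ^ k * w) :=
  Un_add Un_one ((Dv_of_mem hw).mono hk)

theorem Rl.inv {k : ℕ} (hk : 1 ≤ k) {x y : ℚ} (h : Rl p k x y) : Rl p k x⁻¹ y⁻¹ := by
  obtain ⟨w, hw, rfl⟩ := h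
  have hu := Un_one_add hk hw
  refine ⟨-w * (1 + (p : ℚ) ^ k * w)⁻¹, mul_mem (neg_mem hw) hu.inv.mem, ?_⟩
  have := hu.ne_zero
  rw [mul_inv]
  congr 1
  field_simp
  ring

theorem Rl.div {k : ℕ} (hk : 1 ≤ k) {x y x' y' : ℚ} (h : Rl p k x y) (h' : Rl p k x' y') :
    Rl p k (x / x') (y / y') := by
  rw [div_eq_mul_inv, div_eq_mul_inv]; exact h.mul (h'.inv hk)

theorem Rl.pow {k : ℕ} {x y : ℚ} (h : Rl p k x y) (n : ℕ) : Rl p k (x ^ n) (y ^ n) := by
  induction n with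
  | zero => simpa using Rl.refl k 1
  | succ n ih => rw [pow_succ, pow_succ]; exact ih.mul h

theorem Rl.trans {k : ℕ} {x y z : ℚ} (h : Rl p k x y) (h' : Rl p k y z) : Rl p k x z := by
  obtain ⟨w, hw, rfl⟩ := h
  obtain ⟨w', hw', rfl⟩ := h'
  refine ⟨w + w' + (p : ℚ) ^ k * (w * w'), ?_, by ring⟩
  exact add_mem (add_mem hw hw') (mul_mem (pow_mem p_mem _) (mul_mem hw hw'))

theorem Rl.symm {k : ℕ} (hk : 1 ≤ k) {x y : ℚ} (h : Rl p k x y) : Rl p k y x := by
  obtain ⟨w, hw, rfl⟩ := h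
  have hu := Un_one_add hk hw
  refine ⟨-w * (1 + (p : ℚ) ^ k * w)⁻¹, mul_mem (neg_mem hw) hu.inv.mem, ?_⟩
  have := hu.ne_zero
  field_simp
  ring

theorem Rl.of_eq {k : ℕ} {x y : ℚ} (h : x = y) : Rl p k x y := h ▸ Rl.refl k x

theorem Rl.cg {k : ℕ} {x y : ℚ} (h : Rl p k x y) (hy : y ∈ ZP p) : Cg p k x y := by
  obtain ⟨w, hw, rfl⟩ := h
  exact ⟨y * w, mul_mem hy hw, by ring⟩

theorem Rl_of_Cg {k : ℕ} {x y : ℚ} (h : Cg p k x y) (hy : Un p y) : Rl p k x y := by
  obtain ⟨w, hw, hx⟩ := h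
  refine ⟨y⁻¹ * w, mul_mem hy.inv.mem hw, ?_⟩
  have := hy.ne_zero
  field_simp
  linarith

theorem Rl.prod {ι : Type*} {k : ℕ} (s : Finset ι) (f g : ι → ℚ)
    (h : ∀ i ∈ s, Rl p k (f i) (g i)) : Rl p k (∏ i ∈ s, f i) (∏ i ∈ s, g i) := by
  classical
  induction s using Finset.induction_on with
  | empty => simpa using Rl.refl k 1
  | insert a s ha ih =>
    rw [Finset.prod_insert ha, Finset.prod_insert ha]
    exact (h a (Finset.mem_insert_self a s)).mul
      (ih (fun i hi => h i (Finset.mem_insert_of_mem hi)))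

theorem fact_eq_prod (n : ℕ) : (n.factorial : ℚ) = ∏ i ∈ range n, ((i : ℚ) + 1) := by
  rw [← Finset.prod_range_add_one_eq_factorial]
  push_cast
  rfl

theorem Un_fact {n : ℕ} (hn : n < p) : Un p (n.factorial : ℚ) := by
  rw [fact_eq_prod]
  apply Un_prod
  intro i hi
  rw [Finset.mem_range] at hi
  exact Un_succ (by omega)

/-- the product over a block is `(p - 1)!` modulo `p ^ 3` -/
theorem Blk_congr (h3 : 3 < p) {z : ℚ} (hz : z ∈ ZP p) :
    Rl p 3 (Blk p z) (((p - 1).factorial : ℕ) : ℚ) := by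
  obtain ⟨E, hE, hE2, hK⟩ := prod_expand (p := p) h3 (p - 1) (fun i => 1 / ((i : ℚ) + 1))
    (fun i hi => mem_div_of_Un (one_mem _) (Un_succ (by omega)))
  have hS : Dv p 2 (∑ i ∈ range (p - 1), 1 / ((i : ℚ) + 1)) := by
    have := harmonic_block h3 (zero_mem (ZP p))
    refine this.congr ?_
    apply Finset.sum_congr rfl
    intro i _
    rw [mul_zero, zero_add]
  have hE1 : Dv p 1 E := by
    have h1 : Dv p 1 (2 * E) := by
      rw [hE2]
      apply Dv.sub
      · have := (Dv.mul hS hS).mono (j := 1) (by norm_num)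
        exact this.congr (by ring)
      · have := H2_top h3
        unfold H2 at this
        refine this.congr ?_
        apply Finset.sum_congr rfl
        intro i _
        rw [div_pow, one_pow]
    exact h1.cancel (Un_two h3)
  obtain ⟨K, hKm, hKe⟩ := hK ((p : ℚ) * z) (mul_mem p_mem hz)
  obtain ⟨s, hs, hs'⟩ := hS
  obtain ⟨e, he, he'⟩ := hE1
  refine ⟨z * s + z ^ 2 * e + z ^ 3 * K, ?_, ?_⟩
  · exact add_mem (add_mem (mul_mem hz hs) (mul_mem (pow_mem hz _) he)) (mul_mem (pow_mem hz _) hKm)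
  · rw [fact_eq_prod]
    have : Blk p z = (∏ i ∈ range (p - 1), ((i : ℚ) + 1)) *
        ∏ i ∈ range (p - 1), (1 + (p : ℚ) * z * (1 / ((i : ℚ) + 1))) := by
      unfold Blk
      rw [← Finset.prod_mul_distrib]
      apply Finset.prod_congr rfl
      intro i hi
      rw [Finset.mem_range] at hi
      have := (Un_succ (p := p) (i := i) (by omega)).ne_zero
      field_simp
      ring
    rw [this, hKe, hs', he']
    ring

theorem fact_add (n m : ℕ) : ((n + m).factorial : ℚ) =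
    (n.factorial : ℚ) * ∏ i ∈ range m, ((n : ℚ) + (i + 1)) := by
  rw [fact_eq_prod, fact_eq_prod, Finset.prod_range_add]
  congr 1
  apply Finset.prod_congr rfl
  intro i _
  push_cast
  ring

/-- `(p K)!` relative congruence -/
theorem fact_block (h3 : 3 < p) (K : ℕ) :
    Rl p 3 ((p * K).factorial : ℚ)
      ((p : ℚ) ^ K * (K.factorial : ℚ) * (((p - 1).factorial : ℕ) : ℚ) ^ K) := by
  induction K with
  | zero => simpa using Rl.refl 3 1
  | succ K ih =>
    have e1 : p * (K + 1) = p * K + (p - 1) + 1 := by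
      have := hp.out.pos
      rw [mul_add, mul_one]
      omega
    rw [e1, Nat.factorial_succ, Nat.cast_mul, fact_add]
    have e2 : ((p * K + (p - 1) + 1 : ℕ) : ℚ) = (p : ℚ) * ((K : ℚ) + 1) := by
      rw [← e1]; push_cast; ring
    rw [e2]
    have h1 : Rl p 3 (∏ i ∈ range (p - 1), (((p * K : ℕ) : ℚ) + (i + 1))) (((p - 1).factorial : ℕ) : ℚ) := by
      have := Blk_congr h3 (nat_mem (p := p) K)
      unfold Blk at this
      refine (Rl.of_eq ?_).trans this
      apply Finset.prod_congr rfl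
      intro i _
      push_cast
      ring
    have h2 := (Rl.refl (p := p) 3 ((p : ℚ) * ((K : ℚ) + 1))).mul (ih.mul h1)
    refine h2.trans (Rl.of_eq ?_)
    rw [Nat.factorial_succ]
    push_cast
    ring

end MP18afd0
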