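import Mathlib
import Pool.Agent.Work.MP_18afd0_nt.Blocks

/-!
# Powers of `2 ^ (p - 1)` and of `± (-3) ^ ((p - 1) / 2)` modulo `p ^ 3`
-/

namespace MP18afd0

open Finset

variable {p : ℕ} [hp : Fact p.Prime]

instance fact3 : Fact (Nat.Prime 3) := ⟨Nat.prime_three⟩

/-- the sign `(p / 3)` -/
def chi (p : ℕ) : ℚ := ((legendreSym 3 (p : ℤ) : ℤ) : ℚ)

theorem chi_one {p : ℕ} (h : p % 3 = 1) : chi p = 1 := by
  unfold chi
  rw [legendreSym.mod]
  have : ((p : ℤ) % ((3 : ℕ) : ℤ)) = 1 := by omega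
  rw [this, legendreSym.at_one]
  norm_num

theorem chi_two {p : ℕ} (h : p % 3 = 2) : chi p = -1 := by
  unfold chi
  rw [legendreSym.mod]
  have : ((p : ℤ) % ((3 : ℕ) : ℤ)) = 2 := by omega
  rw [this]
  have : legendreSym 3 2 = -1 := by decide
  rw [this]
  norm_num

theorem p_mod_three (h3 : 3 < p) : p % 3 = 1 ∨ p % 3 = 2 := by
  have : ¬ 3 ∣ p := by
    intro h
    have := (Nat.prime_dvd_prime_iff_eq Nat.prime_three hp.out).1 h
    omega
  omega

theorem chi_sq (h3 : 3 < p) : chi p * chi p = 1 := by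
  rcases p_mod_three h3 with h | h
  · rw [chi_one h]; norm_num
  · rw [chi_two h]; norm_num

theorem chi_mem : chi p ∈ ZP p := int_mem _

/-- `2 ^ (p - 1)` -/
def AA (p : ℕ) : ℚ := 2 ^ (p - 1)

/-- `± (-3) ^ ((p - 1) / 2)` -/
def RR (p : ℕ) : ℚ := chi p * (-3) ^ (p / 2)

theorem AA_congr (h3 : 3 < p) : Dv p 1 (AA p - 1) := by
  have hc : IsCoprime ((2 : ℕ) : ℤ) (p : ℤ) := by
    rw [Nat.isCoprime_iff_coprime]
    exact ((hp.out.coprime_iff_not_dvd).2
      (fun h => absurd (Nat.le_of_dvd (by norm_num) h) (by omega))).symm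
  have hf := (Int.ModEq.pow_card_sub_one_eq_one hp.out hc).symm.dvd
  have := Dv_of_int_dvd hf
  push_cast at this
  exact this

theorem RR_congr (h3 : 3 < p) : Dv p 1 (RR p - 1) := by
  have hodd : p % 2 = 1 := Nat.odd_iff.1 (hp.out.odd_of_ne_two (by omega))
  have h1 : legendreSym p ((3 : ℕ) : ℤ) = (-1) ^ (3 / 2 * (p / 2)) * legendreSym 3 (p : ℤ) :=
    legendreSym.quadratic_reciprocity' (p := 3) (q := p) (by norm_num) (by omega)
  have h2 : legendreSym p (-1) = (-1) ^ (p / 2) := by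
    rw [legendreSym.at_neg_one (by omega), ZMod.χ₄_eq_neg_one_pow hodd]
  have h4 : legendreSym p (-3) = legendreSym 3 (p : ℤ) := by
    have : (-3 : ℤ) = (-1) * ((3 : ℕ) : ℤ) := by norm_num
    rw [this, legendreSym.mul, h1, h2]
    norm_num
    rw [← mul_assoc, ← mul_pow]
    norm_num
  have h5 := legendreSym.eq_pow p (-3)
  rw [h4] at h5
  have h6 : (((legendreSym 3 (p : ℤ)) - (-3) ^ (p / 2) : ℤ) : ZMod p) = 0 := by
    push_cast at h5 ⊢
    rw [h5]; ring
  rw [ZMod.intCast_zmod_eq_zero_iff_dvd] at h6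
  have h7 := Dv_of_int_dvd h6
  push_cast at h7
  have h8 := (h7.smul (chi_mem (p := p))).neg
  refine h8.congr ?_
  have h9 := chi_sq h3
  unfold RR
  have h10 : ((legendreSym 3 (p : ℤ) : ℤ) : ℚ) = chi p := rfl
  rw [h10]
  linear_combination -h9

theorem RR_sq (h3 : 3 < p) : RR p ^ 2 = 3 ^ (p - 1) := by
  have hodd : p % 2 = 1 := Nat.odd_iff.1 (hp.out.odd_of_ne_two (by omega))
  unfold RR
  rw [mul_pow, sq (chi p), chi_sq h3, one_mul, ← pow_mul]
  have : p / 2 * 2 = 2 * (p / 2) := by ring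
  rw [this, pow_mul]
  norm_num
  have e : p - 1 = 2 * (p / 2) := by omega
  rw [e, pow_mul]
  norm_num

theorem Un_AA (h3 : 3 < p) : Un p (AA p) := by
  have := Un_add Un_one (AA_congr h3)
  rwa [add_sub_cancel] at this

theorem Un_RR (h3 : 3 < p) : Un p (RR p) := by
  have := Un_add Un_one (RR_congr h3)
  rwa [add_sub_cancel] at this

/-- truncated binomial series -/
def Lx (z x : ℚ) : ℚ := 1 + x * z + x * (x - 1) / 2 * z ^ 2

theorem Lx_step (h3 : 3 < p) {z : ℚ} (hz : Dv p 1 z) (k : ℤ) :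
    Cg p 3 ((1 + z) * Lx z k) (Lx z ((k + 1 : ℤ) : ℚ)) := by
  have h1 : Dv p 3 (z ^ 3) := ((Dv.mul (Dv.mul hz hz) hz)).congr (by ring)
  have h2 : ((k : ℚ) * (k - 1) * (1 / 2)) ∈ ZP p :=
    mul_mem (mul_mem (int_mem _) (sub_mem (int_mem _) (one_mem _))) (half_mem h3)
  refine (h1.smul h2).congr ?_
  unfold Lx
  push_cast
  ring

theorem Lx_mem (h3 : 3 < p) {z x : ℚ} (hz : z ∈ ZP p) (hx : x ∈ ZP p) : Lx z x ∈ ZP p := by
  have : Lx z x = 1 + x * z + (x * (x - 1)) * (1 / 2) * z ^ 2 := by unfold Lx; ring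
  rw [this]
  exact add_mem (add_mem (one_mem _) (mul_mem hx hz))
    (mul_mem (mul_mem (mul_mem hx (sub_mem hx (one_mem _))) (half_mem h3)) (pow_mem hz _))

theorem Lx_zpow (h3 : 3 < p) {z : ℚ} (hz : Dv p 1 z) (k : ℤ) :
    Cg p 3 (Lx z k) ((1 + z) ^ k) := by
  have hu : Un p (1 + z) := Un_add Un_one hz
  have hne := hu.ne_zero
  induction k using Int.induction_on with
  | zero => simpa [Lx] using Cg.refl (p := p) (k := 3) 1
  | succ i ih =>
    have h1 := (Lx_step h3 hz (i : ℤ)).symm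
    refine h1.trans ?_
    have h2 := Cg.smul hu.mem ih
    refine h2.trans (Cg.of_eq ?_)
    rw [zpow_add_one₀ hne]; ring
  | pred i ih =>
    have h1 := (Lx_step h3 hz (-(i : ℤ) - 1))
    have e : (-(i : ℤ) - 1 + 1) = -(i : ℤ) := by ring
    rw [e] at h1
    have h2 := Cg.smul hu.inv.mem (h1.trans ih)
    rw [← mul_assoc, inv_mul_cancel₀ hne, one_mul] at h2
    refine h2.trans (Cg.of_eq ?_)
    rw [zpow_sub_one₀ hne]; ring

end MP18afd0
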