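import Mathlib

/-!
# A WZ pair for the series with `51 k + 7`

`V i d` is the hypergeometric term at `(n, m) = (i + d, -i)`.
-/

namespace MP18afd0

open Finset

/-- `binom(2k,k)^2 binom(3k,k)` -/
def cc (k : ℕ) : ℚ := ((Nat.choose (2 * k) k : ℕ) : ℚ) ^ 2 * ((Nat.choose (3 * k) k : ℕ) : ℚ)

/-- the truncated sum -/
def T (N : ℕ) : ℚ := ∑ k ∈ range N, (51 * (k : ℚ) + 7) * cc k / (-1728) ^ k

/-- the hypergeometric term -/
def V (i d : ℕ) : ℚ :=
  (-1) ^ d * (((3 * i + 3 * d).factorial : ℚ) * (i.factorial : ℚ) * ((4 * i + 2 * d).factorial : ℚ) *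
    ((2 * d).factorial : ℚ)) /
  (64 ^ (i + d) * 27 ^ d * (((i + d).factorial : ℚ) ^ 2 * ((3 * i).factorial : ℚ) *
    ((2 * i + d).factorial : ℚ) * (d.factorial : ℚ) ^ 2 * ((i + 2 * d).factorial : ℚ)))

theorem f1 (n : ℕ) : ((n + 1).factorial : ℚ) = ((n : ℚ) + 1) * (n.factorial : ℚ) := by
  rw [Nat.factorial_succ]; push_cast; ring

theorem f2 (n : ℕ) : ((n + 2).factorial : ℚ) = ((n : ℚ) + 2) * ((n : ℚ) + 1) * (n.factorial : ℚ) := by
  rw [show n + 2 = (n + 1) + 1 by ring, f1, f1]; push_cast; ring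

theorem f3 (n : ℕ) : ((n + 3).factorial : ℚ) =
    ((n : ℚ) + 3) * ((n : ℚ) + 2) * ((n : ℚ) + 1) * (n.factorial : ℚ) := by
  rw [show n + 3 = (n + 2) + 1 by ring, f1, f2]; push_cast; ring

theorem f4 (n : ℕ) : ((n + 4).factorial : ℚ) =
    ((n : ℚ) + 4) * ((n : ℚ) + 3) * ((n : ℚ) + 2) * ((n : ℚ) + 1) * (n.factorial : ℚ) := by
  rw [show n + 4 = (n + 3) + 1 by ring, f1, f3]; push_cast; ring

theorem fne (n : ℕ) : (n.factorial : ℚ) ≠ 0 := by exact_mod_cast Nat.factorial_ne_zero n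

theorem V_shift1 (i d : ℕ) :
    V i (d + 1) = -((3 * i + 1) * (3 * i + 2) * (2 * d + 1)) /
      (9 * (4 * i + 2 * d + 3) * (d + 1) * (i + 2 * d + 2)) * V (i + 1) d := by
  unfold V
  rw [show 3 * i + 3 * (d + 1) = 3 * i + 3 * d + 3 by ring,
    show 4 * i + 2 * (d + 1) = 4 * i + 2 * d + 2 by ring,
    show 2 * (d + 1) = 2 * d + 2 by ring,
    show i + (d + 1) = i + d + 1 by ring,
    show 2 * i + (d + 1) = 2 * i + d + 1 by ring,
    show i + (2 * d + 2) = i + 2 * d + 2 by ring,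
    show 3 * (i + 1) + 3 * d = 3 * i + 3 * d + 3 by ring,
    show 4 * (i + 1) + 2 * d = 4 * i + 2 * d + 4 by ring,
    show (i + 1) + d = i + d + 1 by ring,
    show 3 * (i + 1) = 3 * i + 3 by ring,
    show 2 * (i + 1) + d = 2 * i + d + 2 by ring,
    show (i + 1) + 2 * d = i + 2 * d + 1 by ring]
  simp only [f1, f2, f3, f4, pow_succ]
  have h1 := fne (3 * i + 3 * d)
  have h2 := fne i
  have h3 := fne (4 * i + 2 * d)
  have h4 := fne (2 * d)
  have h5 := fne (i + d)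
  have h6 := fne (3 * i)
  have h7 := fne (2 * i + d)
  have h8 := fne d
  have h9 := fne (i + 2 * d)
  push_cast
  field_simp
  ring

theorem V_shift2 (i d : ℕ) :
    V i (d + 1) = -((3 * i + 3 * d + 1) * (3 * i + 3 * d + 2) * (4 * i + 2 * d + 1) * (2 * d + 1)) /
      (144 * (i + d + 1) * (d + 1) * (i + 2 * d + 1) * (i + 2 * d + 2)) * V i d := by
  unfold V
  rw [show 3 * i + 3 * (d + 1) = 3 * i + 3 * d + 3 by ring,
    show 4 * i + 2 * (d + 1) = 4 * i + 2 * d + 2 by ring,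
    show 2 * (d + 1) = 2 * d + 2 by ring,
    show i + (d + 1) = i + d + 1 by ring,
    show 2 * i + (d + 1) = 2 * i + d + 1 by ring,
    show i + (2 * d + 2) = i + 2 * d + 2 by ring]
  simp only [f1, f2, f3, f4, pow_succ]
  have h1 := fne (3 * i + 3 * d)
  have h2 := fne i
  have h3 := fne (4 * i + 2 * d)
  have h4 := fne (2 * d)
  have h5 := fne (i + d)
  have h6 := fne (3 * i)
  have h7 := fne (2 * i + d)
  have h8 := fne d
  have h9 := fne (i + 2 * d)
  push_cast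
  field_simp
  ring

theorem V_diag (n : ℕ) :
    V (n + 1) 0 = ((4 * n + 1) * (4 * n + 3)) / (16 * (n + 1) ^ 2) * V n 0 := by
  unfold V
  rw [show 3 * (n + 1) + 3 * 0 = 3 * n + 3 by ring,
    show 4 * (n + 1) + 2 * 0 = 4 * n + 4 by ring,
    show (n + 1) + 0 = n + 1 by ring,
    show 3 * (n + 1) = 3 * n + 3 by ring,
    show 2 * (n + 1) + 0 = 2 * n + 2 by ring,
    show (n + 1) + 2 * 0 = n + 1 by ring,
    show 3 * n + 3 * 0 = 3 * n by ring,
    show 4 * n + 2 * 0 = 4 * n by ring,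
    show n + 0 = n by ring,
    show 2 * n + 0 = 2 * n by ring]
  simp only [f1, f2, f3, f4, pow_succ]
  have h2 := fne n
  have h3 := fne (4 * n)
  have h6 := fne (3 * n)
  have h7 := fne (2 * n)
  push_cast
  field_simp
  ring

/-- first component of the pair -/
def Fv (i d : ℕ) : ℚ :=
  V i d * (36 * i ^ 2 + 114 * i * d + 102 * d ^ 2 + 37 * i + 65 * d + 7) / (i + 2 * d + 1)

/-- second component of the pair -/
def Gv (i d : ℕ) : ℚ :=
  16 * (9 * i + 6 * d - 2) * (i + d) * V i d / (4 * i + 2 * d - 1)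

theorem wz (i d : ℕ) :
    Fv i (d + 1) - Fv (i + 1) d = Gv (i + 1) (d + 1) - Gv (i + 1) d := by
  unfold Fv Gv
  rw [V_shift2 (i + 1) d, V_shift1 i d]
  generalize V (i + 1) d = v
  push_cast
  have e1 : (4 * ((i : ℚ) + 1) + 2 * d - 1) = 4 * i + 2 * d + 3 := by ring
  have e2 : (4 * ((i : ℚ) + 1) + 2 * (d + 1) - 1) = 4 * i + 2 * d + 5 := by ring
  have e3 : (i : ℚ) + 1 + d + 1 = i + d + 2 := by ring
  have e4 : (i : ℚ) + 1 + 2 * d + 1 = i + 2 * d + 2 := by ring
  have e5 : (i : ℚ) + 1 + 2 * d + 2 = i + 2 * d + 3 := by ring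
  have e6 : (i : ℚ) + 2 * (d + 1) + 1 = i + 2 * d + 3 := by ring
  rw [e1, e2, e3, e4, e5, e6]
  field_simp
  ring

theorem wz_base (n : ℕ) : Gv (n + 1) 0 = Fv n 0 := by
  unfold Fv Gv
  rw [V_diag]
  generalize V n 0 = v
  push_cast
  have e1 : (4 * ((n : ℚ) + 1) + 2 * 0 - 1) = 4 * n + 3 := by ring
  have e2 : (n : ℚ) + 2 * 0 + 1 = n + 1 := by ring
  rw [e1, e2]
  field_simp
  ring

theorem V_zero_eq (M : ℕ) : V 0 M = cc M / (-1728) ^ M := by
  unfold V cc
  rw [Nat.choose_eq_factorial_div_factorial (by omega : M ≤ 2 * M),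
    Nat.choose_eq_factorial_div_factorial (by omega : M ≤ 3 * M),
    Nat.cast_div (Nat.factorial_mul_factorial_dvd_factorial (by omega)) (by
      exact_mod_cast Nat.mul_ne_zero (Nat.factorial_ne_zero _) (Nat.factorial_ne_zero _)),
    Nat.cast_div (Nat.factorial_mul_factorial_dvd_factorial (by omega)) (by
      exact_mod_cast Nat.mul_ne_zero (Nat.factorial_ne_zero _) (Nat.factorial_ne_zero _))]
  rw [show 2 * M - M = M by omega, show 3 * M - M = 2 * M by omega,
    show 3 * 0 + 3 * M = 3 * M by ring, show 4 * 0 + 2 * M = 2 * M by ring,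
    show 0 + M = M by ring, show 3 * 0 = 0 by ring]
  rw [show (-1728 : ℚ) ^ M = (-1) ^ M * (64 ^ M * 27 ^ M) by
    rw [← mul_pow, ← mul_pow]; norm_num]
  have hm : ((-1 : ℚ) ^ M) * (-1) ^ M = 1 := by
    rw [← mul_pow]; norm_num
  have hm0 : ((-1 : ℚ) ^ M) ≠ 0 := pow_ne_zero _ (by norm_num)
  have h1 := fne M
  have h2 := fne (2 * M)
  push_cast
  field_simp
  linear_combination hm

theorem Fv_zero (M : ℕ) : Fv 0 M = (51 * (M : ℚ) + 7) * cc M / (-1728) ^ M := by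
  unfold Fv
  rw [V_zero_eq]
  have h : ((-1728 : ℚ) ^ M) ≠ 0 := pow_ne_zero _ (by norm_num)
  push_cast
  field_simp
  ring

/-- the truncated sum as a boundary sum -/
theorem T_eq (N : ℕ) : T N = ∑ d ∈ range N, Gv (N - d) d := by
  induction N with
  | zero => simp [T]
  | succ N ih =>
    have h1 : T (N + 1) = T N + Fv 0 N := by
      unfold T; rw [Finset.sum_range_succ, Fv_zero]
    rw [h1, ih, Finset.sum_range_succ']
    have h2 : ∑ d ∈ range N, Gv (N + 1 - (d + 1)) (d + 1) =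
        ∑ d ∈ range N, Gv (N - d) d + ∑ d ∈ range N, (Fv (N - (d + 1)) (d + 1) - Fv (N - d) d) := by
      rw [← Finset.sum_add_distrib]
      apply Finset.sum_congr rfl
      intro d hd
      rw [Finset.mem_range] at hd
      obtain ⟨i, rfl⟩ : ∃ i, N = i + 1 + d := ⟨N - d - 1, by omega⟩
      have e1 : i + 1 + d + 1 - (d + 1) = i + 1 := by omega
      have e2 : i + 1 + d - d = i + 1 := by omega
      have e3 : i + 1 + d - (d + 1) = i := by omega
      rw [e1, e2, e3]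
      linarith [wz i d]
    rw [h2, Finset.sum_range_sub (fun d => Fv (N - d) d), Nat.sub_self, Nat.sub_zero, Nat.sub_zero,
      wz_base]
    ring

end MP18afd0
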