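import Mathlib
import Pool.Agent.Work.MP_18afd0_nt.WZ

/-!
# Splitting the boundary sum into blocks of length `p`
-/

namespace MP18afd0

open Finset

/-- ratio of hypergeometric terms -/
def tt (r : ℕ) (X Y : ℚ) : ℚ :=
  ∏ i ∈ range r, ((1 / 3 + Y + i) * (2 / 3 + Y + i) * (1 / 2 + X + Y + i) /
    ((1 + X + Y + i) * (1 + 2 * X + Y + i) * (3 / 2 + Y - X + i)))

/-- the sum over a block -/
def SG (L : ℕ) (X Y : ℚ) : ℚ := ∑ r ∈ range L, (3 * (r : ℚ) + 2 + 3 * Y - 6 * X) * tt r X Y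

/-- normalised term -/
def W (i d : ℕ) : ℚ := V i d / (4 * i + 2 * d - 1)

theorem tt_succ (r : ℕ) (X Y : ℚ) : tt (r + 1) X Y = tt r X Y *
    ((1 / 3 + Y + r) * (2 / 3 + Y + r) * (1 / 2 + X + Y + r) /
    ((1 + X + Y + r) * (1 + 2 * X + Y + r) * (3 / 2 + Y - X + r))) := by
  unfold tt
  rw [Finset.prod_range_succ]

theorem W_shift (i d : ℕ) :
    (4 * i + 2 * d + 1 : ℚ) * W i (d + 1) = -((3 * i + 1) * (3 * i + 2) * (2 * d + 1)) /
      (9 * (d + 1) * (i + 2 * d + 2)) * W (i + 1) d := by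
  unfold W
  rw [V_shift1]
  generalize V (i + 1) d = v
  push_cast
  have e1 : (4 * (i : ℚ) + 2 * (d + 1) - 1) = 4 * i + 2 * d + 1 := by ring
  have e2 : (4 * ((i : ℚ) + 1) + 2 * d - 1) = 4 * i + 2 * d + 3 := by ring
  rw [e1, e2]
  field_simp

theorem W_block (J D r : ℕ) (hr : r ≤ J) :
    W (J - r) (D + r) = W J D * tt r (J + D) (-J) := by
  induction r with
  | zero => simp [tt]
  | succ r ih =>
    obtain ⟨i, rfl⟩ : ∃ i, J = i + 1 + r := ⟨J - r - 1, by omega⟩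
    have e1 : i + 1 + r - (r + 1) = i := by omega
    have e2 : i + 1 + r - r = i + 1 := by omega
    have ih' := ih (by omega)
    rw [e2] at ih'
    rw [e1, tt_succ, ← mul_assoc, ← ih', ← add_assoc]
    have h := W_shift i (D + r)
    have h1 : (4 * (i : ℚ) + 2 * ((D + r : ℕ) : ℚ) + 1) ≠ 0 := by positivity
    apply mul_left_cancel₀ h1
    rw [h]
    generalize W (i + 1) (D + r) = w
    push_cast
    have a1 : (1 / 3 + -((i : ℚ) + 1 + r) + r) = -(3 * i + 2) / 3 := by ring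
    have a2 : (2 / 3 + -((i : ℚ) + 1 + r) + r) = -(3 * i + 1) / 3 := by ring
    have a3 : (1 / 2 + ((i : ℚ) + 1 + r + D) + -((i : ℚ) + 1 + r) + r) = (2 * (D + r) + 1) / 2 := by
      ring
    have a4 : (1 + ((i : ℚ) + 1 + r + D) + -((i : ℚ) + 1 + r) + r) = D + r + 1 := by ring
    have a5 : (1 + 2 * ((i : ℚ) + 1 + r + D) + -((i : ℚ) + 1 + r) + r) = i + 2 * (D + r) + 2 := by
      ring
    have a6 : (3 / 2 + -((i : ℚ) + 1 + r) - ((i : ℚ) + 1 + r + D) + r) =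
      -(4 * i + 2 * (D + r) + 1) / 2 := by ring
    rw [a1, a2, a3, a4, a5, a6]
    field_simp
    ring

theorem Gv_eq_W (i d : ℕ) : Gv i d = 16 * (9 * i + 6 * d - 2) * (i + d) * W i d := by
  unfold Gv W
  ring

theorem sum_range_mul (f : ℕ → ℚ) (p N : ℕ) :
    ∑ i ∈ range (p * N), f i = ∑ k ∈ range N, ∑ r ∈ range p, f (p * k + r) := by
  induction N with
  | zero => simp
  | succ N ih =>
    rw [mul_add, mul_one, Finset.sum_range_add, ih, Finset.sum_range_succ]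

/-- the truncated sum to `p N` terms, split in blocks -/
theorem T_block (p N : ℕ) (hp : 0 < p) : T (p * N) =
    ∑ k ∈ range N, (-(16 * ((p : ℚ) * N) * W (p * (N - k)) (p * k))) *
      SG p ((p : ℚ) * N) (-((p : ℚ) * ((N - k : ℕ) : ℚ))) := by
  rw [T_eq, sum_range_mul]
  apply Finset.sum_congr rfl
  intro k hk
  rw [Finset.mem_range] at hk
  unfold SG
  rw [Finset.mul_sum]
  apply Finset.sum_congr rfl
  intro r hr
  rw [Finset.mem_range] at hr
  obtain ⟨j, rfl⟩ : ∃ j, N = j + 1 + k := ⟨N - k - 1, by omega⟩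
  have e1 : j + 1 + k - k = j + 1 := by omega
  have e2 : p * (j + 1 + k) - (p * k + r) = p * (j + 1) - r := by
    rw [mul_add]; omega
  have hrJ : r ≤ p * (j + 1) := by
    rw [mul_add, mul_one]; omega
  rw [e1, e2, Gv_eq_W, W_block (p * (j + 1)) (p * k) r hrJ]
  have e3 : ((p * (j + 1) : ℕ) : ℚ) + ((p * k : ℕ) : ℚ) = (p : ℚ) * ((j + 1 + k : ℕ) : ℚ) := by
    push_cast; ring
  have e4 : ((p * (j + 1) : ℕ) : ℚ) = (p : ℚ) * ((j + 1 : ℕ) : ℚ) := by push_cast; ring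
  rw [e3, Nat.cast_sub hrJ, e4]
  generalize tt r _ _ = t
  push_cast
  ring

end MP18afd0
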