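import Mathlib
import Pool.Agent.Work.MP_18afd0_nt.Blocks
import Pool.Agent.Work.MP_18afd0_nt.WZBlock

/-!
# The hypergeometric terms at multiples of `p`
-/

namespace MP18afd0

open Finset

variable {p : ℕ} [hp : Fact p.Prime]

/-- `(1/3)_r (2/3)_r / r!^2` -/
def cp (r : ℕ) : ℚ := ((3 * r).factorial : ℚ) / (27 ^ r * (r.factorial : ℚ) ^ 3)

theorem neg_one_pow_p (h3 : 3 < p) (d : ℕ) : (-1 : ℚ) ^ (p * d) = (-1) ^ d := by
  have hodd : Odd p := hp.out.odd_of_ne_two (by omega)
  rw [pow_mul, hodd.neg_one_pow]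

theorem V_block (h3 : 3 < p) (i d : ℕ) :
    Rl p 3 (V (p * i) (p * d)) (V i d / (64 ^ ((p - 1) * (i + d)) * 27 ^ ((p - 1) * d))) := by
  have hf : (((p - 1).factorial : ℕ) : ℚ) ≠ 0 := fne _
  have hpp : (p : ℚ) ≠ 0 := p_ne
  have b1 := fact_block h3 (3 * i + 3 * d)
  have b2 := fact_block h3 i
  have b3 := fact_block h3 (4 * i + 2 * d)
  have b4 := fact_block h3 (2 * d)
  have b5 := fact_block h3 (i + d)
  have b6 := fact_block h3 (3 * i)
  have b7 := fact_block h3 (2 * i + d)
  have b8 := fact_block h3 d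
  have b9 := fact_block h3 (i + 2 * d)
  have hnum := ((Rl.refl (p := p) 3 ((-1 : ℚ) ^ d)).mul (((b1.mul b2).mul b3).mul b4))
  have hden := ((Rl.refl (p := p) 3 ((64 : ℚ) ^ (p * (i + d)) * 27 ^ (p * d))).mul
    (((((b5.pow 2).mul b6).mul b7).mul (b8.pow 2)).mul b9))
  have h := hnum.div (by norm_num) hden
  refine (Rl.of_eq ?_).trans (h.trans (Rl.of_eq ?_))
  · unfold V
    rw [neg_one_pow_p h3]
    rw [show 3 * (p * i) + 3 * (p * d) = p * (3 * i + 3 * d) by ring,
      show 4 * (p * i) + 2 * (p * d) = p * (4 * i + 2 * d) by ring,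
      show 2 * (p * d) = p * (2 * d) by ring,
      show p * i + p * d = p * (i + d) by ring,
      show 3 * (p * i) = p * (3 * i) by ring,
      show 2 * (p * i) + p * d = p * (2 * i + d) by ring,
      show p * i + p * (2 * d) = p * (i + 2 * d) by ring]
  · unfold V
    have h1 := fne (3 * i + 3 * d)
    have h2 := fne i
    have h3' := fne (4 * i + 2 * d)
    have h4 := fne (2 * d)
    have h5 := fne (i + d)
    have h6 := fne (3 * i)
    have h7 := fne (2 * i + d)
    have h8 := fne d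
    have h9 := fne (i + 2 * d)
    have e1 : (64 : ℚ) ^ (p * (i + d)) = 64 ^ ((p - 1) * (i + d)) * 64 ^ (i + d) := by
      rw [← pow_add]; congr 1
      have := hp.out.pos
      nlinarith [Nat.sub_add_cancel this]
    have e2 : (27 : ℚ) ^ (p * d) = 27 ^ ((p - 1) * d) * 27 ^ d := by
      rw [← pow_add]; congr 1
      have := hp.out.pos
      nlinarith [Nat.sub_add_cancel this]
    rw [e1, e2]
    generalize (((p - 1).factorial : ℕ) : ℚ) = f at *
    generalize (p : ℚ) = q at *
    generalize ((3 * i + 3 * d).factorial : ℚ) = g1 at *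
    generalize (i.factorial : ℚ) = g2 at *
    generalize ((4 * i + 2 * d).factorial : ℚ) = g3 at *
    generalize ((2 * d).factorial : ℚ) = g4 at *
    generalize ((i + d).factorial : ℚ) = g5 at *
    generalize ((3 * i).factorial : ℚ) = g6 at *
    generalize ((2 * i + d).factorial : ℚ) = g7 at *
    generalize (d.factorial : ℚ) = g8 at *
    generalize ((i + 2 * d).factorial : ℚ) = g9 at *
    generalize (64 : ℚ) ^ ((p - 1) * (i + d)) = c1 at *
    generalize (27 : ℚ) ^ ((p - 1) * d) = c2 at *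
    have hc1 : (64 : ℚ) ^ (i + d) ≠ 0 := by positivity
    have hc2 : (27 : ℚ) ^ d ≠ 0 := by positivity
    by_cases hz1 : c1 = 0
    · subst hz1; simp
    by_cases hz2 : c2 = 0
    · subst hz2; simp
    have hqf : q * f ≠ 0 := mul_ne_zero hpp hf
    have key : ∀ n : ℕ, ∀ g : ℚ, q ^ n * g * f ^ n = (q * f) ^ n * g := by
      intro n g; rw [mul_pow]; ring
    simp only [key]
    generalize q * f = u at *
    field_simp
    ring

theorem cp_block (h3 : 3 < p) (m : ℕ) :
    Rl p 3 (cp (p * m)) (cp m / 27 ^ ((p - 1) * m)) := by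
  have hf : (((p - 1).factorial : ℕ) : ℚ) ≠ 0 := fne _
  have hpp : (p : ℚ) ≠ 0 := p_ne
  have b1 := fact_block h3 (3 * m)
  have b2 := fact_block h3 m
  have h := b1.div (by norm_num) ((Rl.refl (p := p) 3 ((27 : ℚ) ^ (p * m))).mul (b2.pow 3))
  refine (Rl.of_eq ?_).trans (h.trans (Rl.of_eq ?_))
  · unfold cp
    rw [show 3 * (p * m) = p * (3 * m) by ring]
  · unfold cp
    have h1 := fne (3 * m)
    have h2 := fne m
    have e2 : (27 : ℚ) ^ (p * m) = 27 ^ ((p - 1) * m) * 27 ^ m := by
      rw [← pow_add]; congr 1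
      have := hp.out.pos
      nlinarith [Nat.sub_add_cancel this]
    rw [e2]
    generalize (((p - 1).factorial : ℕ) : ℚ) = f at *
    generalize (p : ℚ) = q at *
    have hqf : q * f ≠ 0 := mul_ne_zero hpp hf
    have key : ∀ n : ℕ, ∀ g : ℚ, q ^ n * g * f ^ n = (q * f) ^ n * g := by
      intro n g; rw [mul_pow]; ring
    simp only [key]
    generalize q * f = u at *
    field_simp
    ring

end MP18afd0
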