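import Mathlib
import Pool.Agent.Work.MP_18afd0_nt.Blocks

/-!
# Sums of `(-x)_r (1 + x)_r / r! ^ 2` over blocks
-/

namespace MP18afd0

open Finset

variable {p : ℕ} [hp : Fact p.Prime]

/-- `(-x)_r (1+x)_r / r!^2` -/
def ww (r : ℕ) (x : ℚ) : ℚ := ∏ i ∈ range r, (((i : ℚ) - x) * (i + 1 + x) / (i + 1) ^ 2)

/-- `∏ (1 - x^2/i^2)` -/
def PP (r : ℕ) (x : ℚ) : ℚ := ∏ i ∈ range r, (1 - x ^ 2 / ((i : ℚ) + 1) ^ 2)

theorem ww_succ (r : ℕ) (x : ℚ) :
    ww (r + 1) x = ww r x * (((r : ℚ) - x) * (r + 1 + x) / (r + 1) ^ 2) := by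
  unfold ww; rw [Finset.prod_range_succ]

theorem PP_succ (r : ℕ) (x : ℚ) : PP (r + 1) x = PP r x * (1 - x ^ 2 / ((r : ℚ) + 1) ^ 2) := by
  unfold PP; rw [Finset.prod_range_succ]

theorem wwA (r : ℕ) (x : ℚ) : ww (r + 1) x = -(x * (x + (r + 1))) / (r + 1) ^ 2 * PP r x := by
  induction r with
  | zero =>
    rw [ww_succ]
    unfold ww PP
    simp only [Finset.range_zero, Finset.prod_empty, Nat.cast_zero]
    ring
  | succ r ih =>
    rw [ww_succ, ih, PP_succ]
    push_cast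
    field_simp
    ring

theorem wwB (r : ℕ) (x : ℚ) :
    ww (r + 1) (x - 1) = (x * ((r + 1) - x)) / (r + 1) ^ 2 * PP r x := by
  induction r with
  | zero =>
    rw [ww_succ]
    unfold ww PP
    simp only [Finset.range_zero, Finset.prod_empty, Nat.cast_zero]
    ring
  | succ r ih =>
    rw [ww_succ, ih, PP_succ]
    push_cast
    field_simp
    ring

theorem ww_symm (r : ℕ) (x : ℚ) : ww r (-1 - x) = ww r x := by
  unfold ww
  apply Finset.prod_congr rfl
  intro i _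
  congr 1
  ring

/-- relation between `PP` and `ww` -/
theorem PP_rel (r : ℕ) (t : ℚ) : t * PP r t = (t - r) * ww r t := by
  cases r with
  | zero => simp [ww, PP]
  | succ r =>
    rw [wwA, PP_succ]
    push_cast
    field_simp
    ring

theorem PP_mem (h3 : 3 < p) {r : ℕ} (hr : r < p) {t : ℚ} (ht : t ∈ ZP p) : PP r t ∈ ZP p := by
  unfold PP
  apply prod_mem
  intro i hi
  rw [Finset.mem_range] at hi
  exact sub_mem (one_mem _) (mem_div_of_Un (pow_mem ht 2) ((Un_succ (by omega)).pow 2))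

theorem ww_mem (h3 : 3 < p) {r : ℕ} (hr : r < p) {t : ℚ} (ht : t ∈ ZP p) : ww r t ∈ ZP p := by
  unfold ww
  apply prod_mem
  intro i hi
  rw [Finset.mem_range] at hi
  have h1 : ((i : ℚ) + 1 + t) ∈ ZP p := add_mem (Un_succ (by omega)).mem ht
  exact mem_div_of_Un (mul_mem (sub_mem (nat_mem i) ht) h1) ((Un_succ (by omega)).pow 2)

/-- products up to a multiple of `p` plus `s` -/
theorem PP_block (h3 : 3 < p) {t : ℚ} (ht : t ∈ ZP p) (l : ℕ) :
    ∀ s < p, Rl p 3 (PP (p * l + s) (p * t)) (PP l t * (1 - (p : ℚ) ^ 2 * (t ^ 2 * H2 s))) := by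
  -- step inside a block
  have step : ∀ l : ℕ, Rl p 3 (PP (p * l) (p * t)) (PP l t) →
      ∀ s < p, Rl p 3 (PP (p * l + s) (p * t)) (PP l t * (1 - (p : ℚ) ^ 2 * (t ^ 2 * H2 s))) := by
    intro l hl s
    induction s with
    | zero =>
      intro _
      refine (Rl.of_eq ?_).trans (hl.trans (Rl.of_eq ?_))
      · rw [add_zero]
      · simp [H2]
    | succ s ih =>
      intro hs
      have ih' := ih (by omega)
      rw [← add_assoc, PP_succ]
      have hu : Un p ((s : ℚ) + 1) := Un_succ (by omega)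
      have hv : Un p ((p : ℚ) * l + (s + 1)) := Un_shift (nat_mem l) (by omega)
      have hH : H2 s ∈ ZP p := H2_mem (by omega)
      have hc : Cg p 1 (1 / ((p : ℚ) * l + (s + 1)) ^ 2) (1 / ((s : ℚ) + 1) ^ 2) :=
        inv_sq_congr hv hu ((Dv_pmul (nat_mem l)).congr (by ring))
      have h1 : Cg p 3 (1 - ((p : ℚ) * t) ^ 2 / (((p * l + s : ℕ) : ℚ) + 1) ^ 2)
          (1 - ((p : ℚ) * t) ^ 2 / ((s : ℚ) + 1) ^ 2) := by
        have h2 := ((Dv.mul (Dv_pow (p := p) 2) (Dv.smul (pow_mem ht 2) hc))).neg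
        refine h2.congr ?_
        push_cast
        have := hu.ne_zero
        have := hv.ne_zero
        have e : (p : ℚ) * l + s + 1 = (p : ℚ) * l + (s + 1) := by ring
        rw [e]
        field_simp
        ring
      have hun : Un p (1 - ((p : ℚ) * t) ^ 2 / ((s : ℚ) + 1) ^ 2) := by
        have h4 : Dv p 1 (-(((p : ℚ) * t) ^ 2 / ((s : ℚ) + 1) ^ 2)) := by
          have h5 := (Dv.smul (mem_div_of_Un (mul_mem (mul_mem p_mem ht) ht) (hu.pow 2))
            (Dv_p (p := p))).neg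
          refine h5.congr ?_
          ring
        have := Un_add Un_one h4
        rwa [← sub_eq_add_neg] at this
      have h6 := Rl_of_Cg h1 hun
      refine (ih'.mul h6).trans ?_
      have hH2 : H2 (s + 1) = H2 s + 1 / ((s : ℚ) + 1) ^ 2 := by
        unfold H2; rw [Finset.sum_range_succ]
      rw [mul_assoc]
      refine (Rl.refl 3 (PP l t)).mul ?_
      have hun2 : Un p (1 - (p : ℚ) ^ 2 * (t ^ 2 * H2 (s + 1))) := by
        have h4 : Dv p 1 (-((p : ℚ) ^ 2 * (t ^ 2 * H2 (s + 1)))) := by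
          have h5 := (Dv.smul (mul_mem p_mem (mul_mem (pow_mem ht 2) (H2_mem (by omega : s + 1 < p))))
            (Dv_p (p := p))).neg
          refine h5.congr ?_
          ring
        have := Un_add Un_one h4
        rwa [← sub_eq_add_neg] at this
      apply Rl_of_Cg _ hun2
      refine ⟨(p : ℚ) * (t ^ 2 * t ^ 2 * H2 s * (1 / ((s : ℚ) + 1) ^ 2)),
        mul_mem p_mem (mul_mem (mul_mem (mul_mem (pow_mem ht 2) (pow_mem ht 2)) hH)
          (mem_div_of_Un (one_mem _) (hu.pow 2))), ?_⟩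
      rw [hH2]
      ring
  apply step
  induction l with
  | zero => simpa [PP] using Rl.refl (p := p) 3 1
  | succ l ih =>
    have h1 := step l ih (p - 1) (by have := hp.out.pos; omega)
    have e : p * (l + 1) = p * l + (p - 1) + 1 := by
      have := hp.out.pos
      rw [mul_add, mul_one]
      omega
    rw [e, PP_succ, PP_succ]
    have e2 : (((p * l + (p - 1) : ℕ) : ℚ) + 1) = (p : ℚ) * ((l : ℚ) + 1) := by
      have : ((p * l + (p - 1) + 1 : ℕ) : ℚ) = ((p * (l + 1) : ℕ) : ℚ) := by rw [e]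
      push_cast at this ⊢
      linarith
    rw [e2]
    have e3 : (1 : ℚ) - ((p : ℚ) * t) ^ 2 / ((p : ℚ) * ((l : ℚ) + 1)) ^ 2 =
        1 - t ^ 2 / ((l : ℚ) + 1) ^ 2 := by
      have := p_ne (p := p)
      have h0 : ((l : ℚ) + 1) ≠ 0 := by positivity
      field_simp
    rw [e3]
    refine (h1.mul (Rl.refl 3 _)).trans ?_
    obtain ⟨z, hz, hz'⟩ := H2_top h3
    refine ⟨-(t ^ 2 * z), neg_mem (mul_mem (pow_mem ht 2) hz), ?_⟩
    rw [hz']
    ring

/-- value of `ww` at multiples of `p` -/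
theorem ww_mult (h3 : 3 < p) {t : ℚ} (ht : t ∈ ZP p) (l : ℕ) :
    Rl p 3 (ww (p * l) (p * t)) (ww l t) := by
  cases l with
  | zero => simpa [ww] using Rl.refl (p := p) 3 1
  | succ l =>
    have h1 := PP_block h3 ht l (p - 1) (by have := hp.out.pos; omega)
    have e : p * (l + 1) = p * l + (p - 1) + 1 := by
      have := hp.out.pos
      rw [mul_add, mul_one]
      omega
    rw [e, wwA, wwA]
    have e2 : (((p * l + (p - 1) : ℕ) : ℚ) + 1) = (p : ℚ) * ((l : ℚ) + 1) := by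
      have : ((p * l + (p - 1) + 1 : ℕ) : ℚ) = ((p * (l + 1) : ℕ) : ℚ) := by rw [e]
      push_cast at this ⊢
      linarith
    rw [e2]
    have e3 : -((p : ℚ) * t * ((p : ℚ) * t + (p : ℚ) * ((l : ℚ) + 1))) /
        ((p : ℚ) * ((l : ℚ) + 1)) ^ 2 = -(t * (t + (l + 1))) / (l + 1) ^ 2 := by
      have := p_ne (p := p)
      have h0 : ((l : ℚ) + 1) ≠ 0 := by positivity
      field_simp
    rw [e3]
    refine (Rl.refl 3 _).mul (h1.trans ?_)
    obtain ⟨z, hz, hz'⟩ := H2_top h3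
    refine ⟨-(t ^ 2 * z), neg_mem (mul_mem (pow_mem ht 2) hz), ?_⟩
    rw [hz']
    ring

/-- the terms inside a block -/
theorem ww_inside (h3 : 3 < p) {t : ℚ} (ht : t ∈ ZP p) {l s : ℕ} (hl : l < p) (hs : s + 1 < p) :
    Cg p 3 (ww (p * l + (s + 1)) (p * t))
      (-((p : ℚ) * (t * PP l t)) * ((((p : ℚ) * l + (s + 1)) + p * t) / ((p : ℚ) * l + (s + 1)) ^ 2)) := by
  have h1 := (PP_block h3 ht l s (by omega))
  have hP : PP l t ∈ ZP p := PP_mem h3 hl ht
  have hH : H2 s ∈ ZP p := H2_mem (by omega)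
  have hv : Un p ((p : ℚ) * l + (s + 1)) := Un_shift (nat_mem l) (by omega)
  have h2 : Cg p 2 (PP (p * l + s) (p * t)) (PP l t) := by
    obtain ⟨w, hw, hw'⟩ := h1
    refine ⟨PP l t * (p * w) - PP l t * (t ^ 2 * H2 s) * (1 + (p : ℚ) ^ 3 * w), ?_, ?_⟩
    · exact sub_mem (mul_mem hP (mul_mem p_mem hw))
        (mul_mem (mul_mem hP (mul_mem (pow_mem ht 2) hH))
          (add_mem (one_mem _) (mul_mem (pow_mem p_mem 3) hw)))
    · rw [hw']; ring
  rw [← add_assoc, wwA]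
  have h4 : t * ((((p : ℚ) * l + (s + 1)) + p * t) / ((p : ℚ) * l + (s + 1)) ^ 2) ∈ ZP p :=
    mul_mem ht (mem_div_of_Un (add_mem hv.mem (mul_mem p_mem ht)) (hv.pow 2))
  have h5 := (Dv.mul (Dv_p (p := p)) (Dv.smul h4 h2)).neg
  refine h5.congr ?_
  have e : (((p * l + s : ℕ) : ℚ) + 1) = (p : ℚ) * l + (s + 1) := by push_cast; ring
  rw [e]
  ring

end MP18afd0
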