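import Mathlib
import Pool.Agent.Work.MP_18afd0_nt.ZeroA

/-!
# Sums over blocks, second part
-/

namespace MP18afd0

open Finset

variable {p : ℕ} [hp : Fact p.Prime]

theorem sq_block (h3 : 3 < p) (l : ℕ) :
    Dv p 1 (∑ i ∈ range (p - 1), 1 / ((p : ℚ) * l + (i + 1)) ^ 2) := by
  have h1 : Cg p 1 (∑ i ∈ range (p - 1), 1 / ((p : ℚ) * l + (i + 1)) ^ 2) (H2 (p - 1)) := by
    unfold H2
    apply Cg.sum
    intro i hi
    rw [Finset.mem_range] at hi
    exact inv_sq_congr (Un_shift (nat_mem l) (by omega)) (Un_succ (by omega))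
      ((Dv_pmul (nat_mem l)).congr (by ring))
  exact (Dv.add h1 (H2_top h3)).congr (by ring)

theorem sum_split (f : ℕ → ℚ) (h3 : 3 < p) :
    ∑ s ∈ range p, f s = f 0 + ∑ s ∈ range (p - 1), f (s + 1) := by
  have e : p = (p - 1) + 1 := by omega
  conv_lhs => rw [e]
  rw [Finset.sum_range_succ', add_comm]

theorem P_block (h3 : 3 < p) {t : ℚ} (ht : t ∈ ZP p) {l : ℕ} (hl : l < p) :
    Cg p 3 (∑ s ∈ range p, ww (p * l + s) (p * t)) (ww l t) := by
  rw [sum_split _ h3]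
  have h1 : Cg p 3 (ww (p * l + 0) (p * t)) (ww l t) := by
    rw [add_zero]
    exact (ww_mult h3 ht l).cg (ww_mem h3 hl ht)
  have h2 : Cg p 3 (∑ s ∈ range (p - 1), ww (p * l + (s + 1)) (p * t))
      (∑ s ∈ range (p - 1), (-((p : ℚ) * (t * PP l t)) *
        ((((p : ℚ) * l + (s + 1)) + p * t) / ((p : ℚ) * l + (s + 1)) ^ 2))) := by
    apply Cg.sum
    intro s hs
    rw [Finset.mem_range] at hs
    exact ww_inside h3 ht hl (by omega)
  have h4 : Dv p 3 (∑ s ∈ range (p - 1), (-((p : ℚ) * (t * PP l t)) *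
        ((((p : ℚ) * l + (s + 1)) + p * t) / ((p : ℚ) * l + (s + 1)) ^ 2))) := by
    rw [← Finset.mul_sum]
    have e : ∑ s ∈ range (p - 1), ((((p : ℚ) * l + (s + 1)) + p * t) / ((p : ℚ) * l + (s + 1)) ^ 2) =
        (∑ i ∈ range (p - 1), 1 / ((p : ℚ) * l + (i + 1))) +
        (p : ℚ) * t * (∑ i ∈ range (p - 1), 1 / ((p : ℚ) * l + (i + 1)) ^ 2) := by
      rw [Finset.mul_sum, ← Finset.sum_add_distrib]
      apply Finset.sum_congr rfl
      intro s hs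
      rw [Finset.mem_range] at hs
      have := (Un_shift (p := p) (nat_mem l) (i := s) (by omega)).ne_zero
      field_simp
    rw [e]
    have hA := harmonic_block h3 (nat_mem (p := p) l)
    have hB := Dv.mul (Dv_pmul (p := p) ht) (sq_block h3 l)
    have hC := Dv.add hA hB
    have hD := Dv.mul (Dv_pmul (p := p) (mul_mem ht (PP_mem h3 hl ht))) hC
    exact hD.neg.congr (by ring)
  have h5 := h1.add h2
  refine h5.trans ?_
  unfold Cg
  exact h4.congr (by ring)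

theorem P_total (h3 : 3 < p) {t : ℚ} (ht : t ∈ ZP p) {M : ℕ} (hM : M ≤ p) :
    Cg p 3 (∑ r ∈ range (p * M), ww r (p * t)) (∑ l ∈ range M, ww l t) := by
  have e : ∑ r ∈ range (p * M), ww r (p * t) =
      ∑ l ∈ range M, ∑ s ∈ range p, ww (p * l + s) (p * t) := by
    clear hM
    induction M with
    | zero => simp
    | succ M ih => rw [mul_add, mul_one, Finset.sum_range_add, ih, Finset.sum_range_succ]
  rw [e]
  apply Cg.sum
  intro l hl
  rw [Finset.mem_range] at hl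
  exact P_block h3 ht (by omega)

theorem Q_block (h3 : 3 < p) {h : ℕ} (hh : p = 2 * h + 1) {t : ℚ} (ht : t ∈ ZP p) {l : ℕ}
    (hl : l < p) (hl2 : Un p (2 * (l : ℚ) + 1)) :
    Cg p 3 ((1 + 2 * (p * t)) * ∑ s ∈ range p, ww (p * l + s) (p * t) / (2 * ((p * l + s : ℕ) : ℚ) + 1))
      ((1 + 2 * t) * (ww l t / (2 * (l : ℚ) + 1))) := by
  have hpm : (p : ℚ) ∈ ZP p := p_mem
  have hpn : (p : ℚ) ≠ 0 := p_ne
  have h2m : (2 : ℚ) ∈ ZP p := (Un_two h3).mem
  have hpq : (p : ℚ) = 2 * (h : ℚ) + 1 := by exact_mod_cast hh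
  have hlm : (l : ℚ) ∈ ZP p := nat_mem l
  have hh2 : 2 ≤ h := by omega
  have hP : PP l t ∈ ZP p := PP_mem h3 hl ht
  have hw : ww l t ∈ ZP p := ww_mem h3 hl ht
  -- units
  have hr : Un p ((p : ℚ) * l + h) := by
    have := Un_shift (p := p) (nat_mem l) (i := h - 1) (by omega)
    rw [Nat.cast_sub (by omega : 1 ≤ h)] at this
    push_cast at this
    convert this using 1
    ring
  have hU : Un p (2 * ((p : ℚ) * l) + 1) := by
    have := Un_add (p := p) Un_one (Dv_pmul (mul_mem h2m hlm))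
    convert this using 1
    ring
  -- the three sums
  obtain ⟨a1, ha1, hA1⟩ := harmonic_block h3 (nat_mem (p := p) l)
  obtain ⟨a2, ha2, hA2⟩ := sq_block h3 l
  obtain ⟨a3, ha3, hA3⟩ := odd_harmonic_block h3 hh (nat_mem (p := p) l)
  -- the middle term
  obtain ⟨w1, hw1, hw1e⟩ := PP_block h3 ht l (h - 1) (by omega)
  obtain ⟨b, hb, hbe⟩ := H2_half h3 hh
  obtain ⟨w0, hw0, hw0e⟩ := (ww_mult h3 ht l)
  set x : ℚ := (p : ℚ) * t with hx
  set rh : ℚ := (p : ℚ) * l + h with hrh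
  rw [sum_split _ h3]
  -- split off the middle term
  have hmem : h - 1 ∈ range (p - 1) := Finset.mem_range.2 (by omega)
  have hmid := Finset.add_sum_erase (range (p - 1))
    (fun s : ℕ => ww (p * l + (s + 1)) x / (2 * ((p * l + (s + 1) : ℕ) : ℚ) + 1)) hmem
  have hh1 : h - 1 + 1 = h := by omega
  rw [← hmid]
  -- the other terms
  have hother : Cg p 3 (∑ s ∈ (range (p - 1)).erase (h - 1),
      ww (p * l + (s + 1)) x / (2 * ((p * l + (s + 1) : ℕ) : ℚ) + 1))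
      (-((p : ℚ) * (t * PP l t)) * ((1 - 2 * x) * ((p : ℚ) ^ 2 * a1 - 1 / rh) +
        x * ((p : ℚ) ^ 1 * a2 - 1 / rh ^ 2) +
        (4 * x - 2) * ((p : ℚ) ^ 2 * a3 - 1 / (2 * ((p : ℚ) * l) + 1)))) := by
    have hsum : ∀ s ∈ (range (p - 1)).erase (h - 1),
        Cg p 3 (ww (p * l + (s + 1)) x / (2 * ((p * l + (s + 1) : ℕ) : ℚ) + 1))
        (-((p : ℚ) * (t * PP l t)) * ((1 - 2 * x) * (1 / ((p : ℚ) * l + (s + 1))) +
          x * (1 / ((p : ℚ) * l + (s + 1)) ^ 2) +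
          (4 * x - 2) * (1 / (2 * ((p : ℚ) * l) + (2 * ((s + 1 : ℕ) : ℚ) + 1))))) := by
      intro s hs
      rw [Finset.mem_erase, Finset.mem_range] at hs
      have hu : Un p ((p : ℚ) * l + (s + 1)) := Un_shift (nat_mem l) (by omega)
      have hv : Un p (2 * ((p * l + (s + 1) : ℕ) : ℚ) + 1) := by
        have hnd : ¬ p ∣ (2 * (p * l + (s + 1)) + 1) := by
          rintro ⟨c, hc⟩
          have h5 : p ∣ 2 * (s + 1) + 1 := by
            have : 2 * (p * l + (s + 1)) + 1 = p * (2 * l) + (2 * (s + 1) + 1) := by ring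
            rw [this] at hc
            exact (Nat.dvd_add_right (Dvd.intro _ rfl)).1 ⟨c, hc⟩
          obtain ⟨d, hd⟩ := h5
          have hd0 : d ≠ 0 := by rintro rfl; omega
          have hd1 : d ≠ 1 := by rintro rfl; omega
          have hd2 : 2 ≤ d := by omega
          have : p * 2 ≤ p * d := Nat.mul_le_mul_left p hd2
          omega
        have := Un_nat (p := p) hnd
        push_cast at this ⊢
        exact this
      have h6 := Cg.smul hv.inv.mem (ww_inside h3 ht hl (s := s) (by omega))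
      have e1 : (2 * ((p * l + (s + 1) : ℕ) : ℚ) + 1)⁻¹ * ww (p * l + (s + 1)) x =
        ww (p * l + (s + 1)) x / (2 * ((p * l + (s + 1) : ℕ) : ℚ) + 1) := by
        rw [div_eq_mul_inv, mul_comm]
      rw [e1] at h6
      refine h6.trans (Cg.of_eq ?_)
      have hv' := hv.ne_zero
      have hu' := hu.ne_zero
      have e2 : (2 * ((p * l + (s + 1) : ℕ) : ℚ) + 1) = 2 * ((p : ℚ) * l + (s + 1)) + 1 := by
        push_cast; ring
      have e3 : (2 * ((p : ℚ) * l) + (2 * ((s + 1 : ℕ) : ℚ) + 1)) = 2 * ((p : ℚ) * l + (s + 1)) + 1 := by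
        push_cast; ring
      rw [e2] at hv'
      rw [e2, e3]
      generalize (p : ℚ) * l + (s + 1) = R at *
      rw [← hx]
      field_simp
      ring
    refine (Cg.sum _ _ _ hsum).trans (Cg.of_eq ?_)
    rw [← Finset.mul_sum, Finset.sum_add_distrib, Finset.sum_add_distrib, ← Finset.mul_sum,
      ← Finset.mul_sum, ← Finset.mul_sum]
    have g1 := Finset.add_sum_erase (range (p - 1))
      (fun s : ℕ => 1 / ((p : ℚ) * l + (s + 1))) hmem
    have g2 := Finset.add_sum_erase (range (p - 1))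
      (fun s : ℕ => 1 / ((p : ℚ) * l + (s + 1)) ^ 2) hmem
    have g3 := Finset.add_sum_erase (range (p - 1))
      (fun s : ℕ => 1 / (2 * ((p : ℚ) * l) + (2 * ((s + 1 : ℕ) : ℚ) + 1))) hmem
    have g4 := Finset.add_sum_erase (range p)
      (fun s : ℕ => 1 / (2 * ((p : ℚ) * l) + (2 * (s : ℚ) + 1))) (a := h)
      (Finset.mem_range.2 (by omega))
    have g5 := sum_split (p := p) (fun s : ℕ => 1 / (2 * ((p : ℚ) * l) + (2 * (s : ℚ) + 1))) h3
    have hc1 : ((h - 1 : ℕ) : ℚ) + 1 = h := by exact_mod_cast hh1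
    simp only [hh1] at g3
    rw [hc1] at g1 g2
    rw [hA1] at g1
    rw [hA2] at g2
    rw [hA3] at g4
    rw [← hrh] at g1 g2
    have q1 : ∑ s ∈ (range (p - 1)).erase (h - 1), 1 / ((p : ℚ) * l + (s + 1)) =
        (p : ℚ) ^ 2 * a1 - 1 / rh := by linarith
    have q2 : ∑ s ∈ (range (p - 1)).erase (h - 1), 1 / ((p : ℚ) * l + (s + 1)) ^ 2 =
        (p : ℚ) ^ 1 * a2 - 1 / rh ^ 2 := by linarith
    have q3 : ∑ s ∈ (range (p - 1)).erase (h - 1),
        1 / (2 * ((p : ℚ) * l) + (2 * ((s + 1 : ℕ) : ℚ) + 1)) =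
        (p : ℚ) ^ 2 * a3 - 1 / (2 * ((p : ℚ) * l) + 1) := by
      have g6 : (2 * ((p : ℚ) * l) + (2 * ((0 : ℕ) : ℚ) + 1)) = (2 * ((p : ℚ) * l) + 1) := by
        push_cast; ring
      rw [g6] at g5
      linarith
    rw [q1, q2, q3]
  -- the first term
  have hfirst : Cg p 3 (ww (p * l + 0) x / (2 * ((p * l + 0 : ℕ) : ℚ) + 1))
      (ww l t / (2 * ((p : ℚ) * l) + 1)) := by
    rw [add_zero, hw0e]
    refine ⟨ww l t * w0 / (2 * ((p : ℚ) * l) + 1), mem_div_of_Un (mul_mem hw hw0) hU, ?_⟩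
    push_cast
    ring
  -- the middle term
  have hmiddle : Cg p 3 (ww (p * l + (h - 1 + 1)) x / (2 * ((p * l + (h - 1 + 1) : ℕ) : ℚ) + 1))
      (-(t * PP l t) * (x + rh) * (1 + 4 * ((p : ℚ) ^ 2 * t ^ 2)) / (rh ^ 2 * (2 * l + 1))) := by
    rw [← add_assoc, wwA, hw1e]
    have e1 : ((p * l + (h - 1) : ℕ) : ℚ) + 1 = rh := by
      rw [hrh]
      have hc1 : ((h - 1 : ℕ) : ℚ) + 1 = h := by exact_mod_cast hh1
      push_cast
      linarith
    have e2 : (2 * ((p * l + (h - 1) + 1 : ℕ) : ℚ) + 1) = (p : ℚ) * (2 * l + 1) := by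
      have : ((p * l + (h - 1) + 1 : ℕ) : ℚ) = rh := by
        rw [← e1]; push_cast; ring
      rw [this, hrh, hpq]; ring
    rw [e1, e2]
    have hH : H2 (h - 1) = (p : ℚ) ^ 1 * b - 1 / (h : ℚ) ^ 2 := by
      have : H2 h = H2 (h - 1) + 1 / (h : ℚ) ^ 2 := by
        conv_lhs => rw [← hh1]
        unfold H2
        rw [Finset.sum_range_succ]
        have hc1 : ((h - 1 : ℕ) : ℚ) + 1 = h := by exact_mod_cast hh1
        rw [hc1]
      rw [← hbe, this]; ring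
    have hhu : Un p (h : ℚ) := Un_small (by omega) (by omega)
    have hhne := hhu.ne_zero
    have hrne := hr.ne_zero
    have hlne := hl2.ne_zero
    -- witness
    have hG : -(t * PP l t) * (x + rh) / (rh ^ 2 * (2 * l + 1)) ∈ ZP p :=
      mem_div_of_Un (mul_mem (neg_mem (mul_mem ht hP)) (add_mem (mul_mem hpm ht) hr.mem))
        ((hr.pow 2).mul hl2)
    have h1h : 1 / (h : ℚ) ^ 2 ∈ ZP p := mem_div_of_Un (one_mem _) (hhu.pow 2)
    -- 1/h^2 - 4 = p * stuff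
    have h4 : 1 / (h : ℚ) ^ 2 = 4 + (p : ℚ) * (-(2 * h - 1) * (1 / (h : ℚ) ^ 2)) := by
      rw [hpq]; field_simp; ring
    set v : ℚ := -(2 * (h : ℚ) - 1) * (1 / (h : ℚ) ^ 2) with hv
    have hvm : v ∈ ZP p := mul_mem (neg_mem (sub_mem (mul_mem h2m hhu.mem) (one_mem _))) h1h
    have h5 : Cg p 3 ((1 - (p : ℚ) ^ 2 * (t ^ 2 * H2 (h - 1))) * (1 + (p : ℚ) ^ 3 * w1))
        (1 + 4 * ((p : ℚ) ^ 2 * t ^ 2)) := by
      rw [hH, h4]
      refine ⟨-(t ^ 2 * (b - v)) + (1 - (p : ℚ) ^ 2 * (t ^ 2 * ((p : ℚ) ^ 1 * b - (4 + p * v)))) * w1,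
        ?_, by ring⟩
      have h4m : (4 : ℚ) ∈ ZP p := by
        have := int_mem (p := p) 4
        exact_mod_cast this
      exact add_mem (neg_mem (mul_mem (pow_mem ht 2) (sub_mem hb hvm)))
        (mul_mem (sub_mem (one_mem _) (mul_mem (pow_mem hpm 2) (mul_mem (pow_mem ht 2)
          (sub_mem (mul_mem (pow_mem hpm 1) hb) (add_mem h4m (mul_mem hpm hvm)))))) hw1)
    have h6 := Cg.smul hG h5
    refine (Cg.of_eq ?_).trans (h6.trans (Cg.of_eq ?_))
    · rw [hx]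
      field_simp
    · field_simp
  have htot := Cg.smul (add_mem (one_mem _) (mul_mem h2m (mul_mem hpm ht)) : (1 + 2 * x) ∈ ZP p)
    (hfirst.add (hmiddle.add hother))
  refine htot.trans ?_
  -- final rational identity
  have hrel := PP_rel l t
  have hK : (16*t^3 + -16*l*t^2 + 32*l*t^3 + -32*l^2*t^2 + -24*p*t^3 + -16*p*t^4 + -32*p*t^5 +
    24*p*l*t^2 + -64*p*l*t^3 + 80*p*l^2*t^2 + -32*p*l^2*t^3 + 64*p*l^3*t^2 + 8*p^2*t^3 +
    -8*p^2*l*t^2 + 32*p^2*l*t^3 + -32*p^2*l*t^4 + -64*p^2*l*t^5 + -32*p^2*l^2*t^2 +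
    64*p^2*l^2*t^3 + -32*p^2*l^3*t^2 + 64*p^2*l^3*t^3 : ℚ) ∈ ZP p := by
    have key : ∀ (k : ℤ) (a b c : ℕ), (k : ℚ) * ((p : ℚ) ^ a * (l : ℚ) ^ b * t ^ c) ∈ ZP p :=
      fun k a b c => mul_mem (int_mem k) (mul_mem (mul_mem (pow_mem hpm a) (pow_mem hlm b))
        (pow_mem ht c))
    have hs : (∑ i ∈ range 21, (([16, -16, 32, -32, -24, -16, -32, 24, -64, 80, -32, 64, 8, -8, 32,
      -32, -64, -32, 64, -32, 64] : List ℤ).getD i 0 : ℚ) *
      ((p : ℚ) ^ (([0,0,0,0,1,1,1,1,1,1,1,1,2,2,2,2,2,2,2,2,2] : List ℕ).getD i 0) *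
       (l : ℚ) ^ (([0,1,1,2,0,0,0,1,1,2,2,3,0,1,1,1,1,2,2,3,3] : List ℕ).getD i 0) *
       t ^ (([3,2,3,2,3,4,5,2,3,2,3,2,3,2,3,4,5,2,3,2,3] : List ℕ).getD i 0))) ∈ ZP p :=
      sum_mem (fun i _ => key _ _ _ _)
    simp [Finset.sum_range_succ] at hs
    convert hs using 1
    ring
  refine ⟨ww l t * ((16*t^3 + -16*l*t^2 + 32*l*t^3 + -32*l^2*t^2 + -24*p*t^3 + -16*p*t^4 + -32*p*t^5 +
    24*p*l*t^2 + -64*p*l*t^3 + 80*p*l^2*t^2 + -32*p*l^2*t^3 + 64*p*l^3*t^2 + 8*p^2*t^3 +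
    -8*p^2*l*t^2 + 32*p^2*l*t^3 + -32*p^2*l*t^4 + -64*p^2*l*t^5 + -32*p^2*l^2*t^2 +
    64*p^2*l^2*t^3 + -32*p^2*l^3*t^2 + 64*p^2*l^3*t^3) /
    ((2 * ((p : ℚ) * l) + 1) * (2 * rh) ^ 2 * (2 * l + 1))) +
    (1 + 2 * x) * (-(t * PP l t) * ((1 - 2 * x) * a1 + t * a2 + (4 * x - 2) * a3)), ?_, ?_⟩
  · have h4m : (4 : ℚ) ∈ ZP p := by
      have := int_mem (p := p) 4
      exact_mod_cast this
    have hxm : x ∈ ZP p := mul_mem hpm ht
    exact add_mem (mul_mem hw (mem_div_of_Un hK ((hU.mul (((Un_two h3).mul hr).pow 2)).mul hl2)))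
      (mul_mem (add_mem (one_mem _) (mul_mem h2m hxm)) (mul_mem (neg_mem (mul_mem ht hP))
        (add_mem (add_mem (mul_mem (sub_mem (one_mem _) (mul_mem h2m hxm)) ha1) (mul_mem ht ha2))
          (mul_mem (sub_mem (mul_mem h4m hxm) h2m) ha3))))
  · rw [hrel]
    have hrh2 : rh = ((p : ℚ) * (2 * l + 1) - 1) / 2 := by rw [hrh, hpq]; ring
    have n1 : (p : ℚ) * (2 * l + 1) - 1 ≠ 0 := by
      have := hr.ne_zero
      rw [hrh2] at this
      intro h0
      apply this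
      rw [h0]; ring
    have n2 := hU.ne_zero
    have n3 := hl2.ne_zero
    rw [hrh2, hx]
    clear_value rh x
    clear htot hmiddle hfirst hother hmid hK hw0e hw1e hrel
    generalize ww l t = w at *
    generalize (l : ℚ) = L at *
    generalize (p : ℚ) = q at *
    have n2' : (2 * (q * L) + 1) ≠ 0 := n2
    clear hA1 hA2 hA3 hbe hrh hrh2 hr hU hx hl2
    obtain ⟨D, hD⟩ : ∃ D, D = q * (2 * L + 1) - 1 := ⟨_, rfl⟩
    obtain ⟨U, hU⟩ : ∃ U, U = 2 * (q * L) + 1 := ⟨_, rfl⟩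
    obtain ⟨S, hS⟩ : ∃ S, S = 2 * L + 1 := ⟨_, rfl⟩
    rw [← hD] at n1 ⊢
    rw [← hU] at n2' ⊢
    rw [← hS] at n3 ⊢
    field_simp
    rw [hD, hU, hS]
    ring

end MP18afd0
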