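import Mathlib
import Pool.Agent.Work.MP_18afd0_nt.ZeroB
import Pool.Agent.Work.MP_18afd0_nt.VBlock
import Pool.Agent.Work.MP_18afd0_nt.Lam

/-!
# The sum of `(3 r + 2) / (2 r + 1) * (1/3)_r (2/3)_r / r! ^ 2` up to a multiple of `p`
-/

namespace MP18afd0

open Finset

variable {p : ℕ} [hp : Fact p.Prime]

theorem Q_total (h3 : 3 < p) {h : ℕ} (hh : p = 2 * h + 1) {t : ℚ} (ht : t ∈ ZP p) {M : ℕ}
    (hM : M ≤ p) (hu : ∀ l < M, Un p (2 * (l : ℚ) + 1)) :
    Cg p 3 ((1 + 2 * (p * t)) * ∑ r ∈ range (p * M), ww r (p * t) / (2 * (r : ℚ) + 1))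
      ((1 + 2 * t) * ∑ l ∈ range M, ww l t / (2 * (l : ℚ) + 1)) := by
  have e : ∑ r ∈ range (p * M), ww r (p * t) / (2 * (r : ℚ) + 1) =
      ∑ l ∈ range M, ∑ s ∈ range p, ww (p * l + s) (p * t) / (2 * ((p * l + s : ℕ) : ℚ) + 1) := by
    clear hM hu
    induction M with
    | zero => simp
    | succ M ih => rw [mul_add, mul_one, Finset.sum_range_add, ih, Finset.sum_range_succ]
  rw [e, Finset.mul_sum, Finset.mul_sum]
  apply Cg.sum
  intro l hl
  rw [Finset.mem_range] at hl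
  exact Q_block h3 hh ht (by omega) (hu l hl)

/-- the two sums -/
def PS (M : ℕ) (x : ℚ) : ℚ := ∑ r ∈ range M, ww r x
def QS (M : ℕ) (x : ℚ) : ℚ := (1 + 2 * x) * ∑ r ∈ range M, ww r x / (2 * (r : ℚ) + 1)

theorem PS_shift (M : ℕ) (x : ℚ) : PS (M + 1) x + PS (M + 1) (x - 1) = 2 * PP M x := by
  induction M with
  | zero => simp [PS, ww, PP]; norm_num
  | succ M ih =>
    unfold PS at *
    rw [Finset.sum_range_succ (fun r => ww r x), Finset.sum_range_succ (fun r => ww r (x - 1)),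
      wwA, wwB, PP_succ]
    have h0 : ((M : ℚ) + 1) ≠ 0 := by positivity
    have : -(x * (x + (↑M + 1))) / (↑M + 1) ^ 2 * PP M x + x * (↑M + 1 - x) / (↑M + 1) ^ 2 * PP M x =
      -2 * x ^ 2 / (↑M + 1) ^ 2 * PP M x := by
      field_simp; ring
    linear_combination ih + this

theorem QS_shift (M : ℕ) (x : ℚ) : QS (M + 1) x - QS (M + 1) (x - 1) = 2 * PP M x := by
  induction M with
  | zero => simp [QS, ww, PP]; ring
  | succ M ih =>
    unfold QS at *
    rw [Finset.sum_range_succ (fun r : ℕ => ww r x / (2 * (r : ℚ) + 1)),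
      Finset.sum_range_succ (fun r : ℕ => ww r (x - 1) / (2 * (r : ℚ) + 1)),
      wwA, wwB, PP_succ]
    have h0 : ((M : ℚ) + 1) ≠ 0 := by positivity
    have : (1 + 2 * x) * (-(x * (x + (↑M + 1))) / (↑M + 1) ^ 2 * PP M x / (2 * ((M + 1 : ℕ) : ℚ) + 1)) -
      (1 + 2 * (x - 1)) * (x * (↑M + 1 - x) / (↑M + 1) ^ 2 * PP M x / (2 * ((M + 1 : ℕ) : ℚ) + 1)) =
      -2 * x ^ 2 / (↑M + 1) ^ 2 * PP M x := by
      push_cast
      have h1 : 2 * ((M : ℚ) + 1) + 1 ≠ 0 := by positivity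
      field_simp
      ring
    linear_combination ih + this

theorem PS_iter (M : ℕ) (z : ℚ) (a : ℕ) :
    PS (M + 1) (z + a) = (-1) ^ a * PS (M + 1) z +
      ∑ i ∈ range a, (-1) ^ (a + i + 1) * (2 * PP M (z + (i + 1))) := by
  induction a with
  | zero => simp
  | succ a ih =>
    have h := PS_shift M (z + (a + 1))
    have e : z + (a + 1) - 1 = z + a := by ring
    rw [e, ih] at h
    rw [Finset.sum_range_succ]
    have e2 : z + ((a + 1 : ℕ) : ℚ) = z + (a + 1) := by push_cast; ring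
    rw [e2]
    have e3 : ∑ i ∈ range a, (-1 : ℚ) ^ (a + 1 + i + 1) * (2 * PP M (z + (i + 1))) =
        -∑ i ∈ range a, (-1 : ℚ) ^ (a + i + 1) * (2 * PP M (z + (i + 1))) := by
      rw [← Finset.sum_neg_distrib]
      apply Finset.sum_congr rfl
      intro i _
      rw [show a + 1 + i + 1 = (a + i + 1) + 1 by ring, pow_succ]
      ring
    rw [e3]
    have e4 : (-1 : ℚ) ^ (a + 1 + a + 1) = 1 := by
      rw [show a + 1 + a + 1 = 2 * (a + 1) by ring, pow_mul]; norm_num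
    rw [e4, pow_succ]
    linear_combination h

theorem QS_iter (M : ℕ) (z : ℚ) (a : ℕ) :
    QS (M + 1) (z + a) = QS (M + 1) z + ∑ i ∈ range a, (2 * PP M (z + (i + 1))) := by
  induction a with
  | zero => simp
  | succ a ih =>
    have h := QS_shift M (z + (a + 1))
    have e : z + (a + 1) - 1 = z + a := by ring
    rw [e, ih] at h
    rw [Finset.sum_range_succ]
    have e2 : z + ((a + 1 : ℕ) : ℚ) = z + (a + 1) := by push_cast; ring
    rw [e2]
    linear_combination h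

/-- `ww (p M)` at `p t + i` modulo `p` -/
theorem ww_far (h3 : 3 < p) {t : ℚ} (ht : t ∈ ZP p) {M : ℕ} (hM : 0 < M) (hMp : M < p) (a : ℕ)
    (ha : a < p) : Cg p 1 (ww (p * M) (p * t + a)) (ww M t) := by
  induction a with
  | zero =>
    have h1 := (ww_mult h3 ht M).cg (ww_mem h3 hMp ht)
    refine (Cg.of_eq ?_).trans (h1.mono (by norm_num))
    simp
  | succ a ih =>
    have ih' := ih (by omega)
    obtain ⟨L, hL⟩ : ∃ L, p * M = L + 1 := ⟨p * M - 1, by
      have := Nat.mul_pos hp.out.pos hM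
      omega⟩
    set x : ℚ := (p : ℚ) * t + (a + 1) with hx
    have hxu : Un p x := Un_shift ht (by omega)
    have e1 : (p : ℚ) * t + ((a + 1 : ℕ) : ℚ) = x := by rw [hx]; push_cast; ring
    have e2 : (p : ℚ) * t + (a : ℚ) = x - 1 := by rw [hx]; ring
    rw [e1]
    rw [e2] at ih'
    rw [hL] at ih' ⊢
    have hLq : (p : ℚ) * M = (L : ℚ) + 1 := by exact_mod_cast hL
    -- ww (L+1) x * (L + 1 - x) = - ww (L+1) (x-1) * (x + L + 1)
    have hA := wwA L x
    have hB := wwB L x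
    have hx0 := hxu.ne_zero
    have hrel : ww (L + 1) x * ((L + 1) - x) = -(ww (L + 1) (x - 1) * (x + (L + 1))) := by
      rw [hA, hB]; ring
    have hu1 : Un p (((L : ℚ) + 1) - x) := by
      have := Un_add hxu.neg (Dv_pmul (nat_mem (p := p) M))
      rw [hLq] at this
      convert this using 1; ring
    have hu2 : Un p (x + (L + 1)) := by
      have := Un_add hxu (Dv_pmul (nat_mem (p := p) M))
      rwa [hLq] at this
    have hm : ww (L + 1) (x - 1) ∈ ZP p := ih'.mem (ww_mem h3 hMp ht)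
    have hLd : Dv p 1 ((L : ℚ) + 1) := by rw [← hLq]; exact Dv_pmul (nat_mem M)
    have hfin : Cg p 1 (ww (L + 1) x) (ww (L + 1) (x - 1)) := by
      have e3 : ww (L + 1) x - ww (L + 1) (x - 1) =
          (((L : ℚ) + 1) - x)⁻¹ * (-2 * ww (L + 1) (x - 1)) * ((L : ℚ) + 1) := by
        have := hu1.ne_zero
        field_simp
        linear_combination hrel
      unfold Cg
      rw [e3]
      have h2m : (-2 : ℚ) ∈ ZP p := by
        have := int_mem (p := p) (-2)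
        exact_mod_cast this
      exact Dv.smul (mul_mem hu1.inv.mem (mul_mem h2m hm)) hLd
    exact hfin.trans ih'

/-- the boundary products modulo `p ^ 3` -/
theorem PP_far (h3 : 3 < p) {t : ℚ} (ht : t ∈ ZP p) {M L : ℕ} (hM : 0 < M) (hMp : M < p)
    (hL : p * M = L + 1) {i : ℕ} (hi : i + 1 < p) :
    Cg p 3 (2 * PP L (p * t + (i + 1)))
      (-2 * (p : ℚ) ^ 2 * (M ^ 2 * ww M t) * (1 / ((i : ℚ) + 1) ^ 2)) := by
  set x : ℚ := (p : ℚ) * t + (i + 1) with hx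
  have hxu : Un p x := Un_shift ht (by omega)
  have hLq : (p : ℚ) * M = (L : ℚ) + 1 := by exact_mod_cast hL
  have hu2 : Un p (x + p * M) := Un_add hxu (Dv_pmul (nat_mem (p := p) M))
  have hA := wwA L x
  have h1 := ww_far h3 ht hM hMp (i + 1) (by omega)
  have e1 : (p : ℚ) * t + ((i + 1 : ℕ) : ℚ) = x := by rw [hx]; push_cast; ring
  rw [e1, hL] at h1
  have hu0 : Un p ((i : ℚ) + 1) := Un_succ hi
  have hc1 : Cg p 1 (x * (x + p * M)) (((i : ℚ) + 1) ^ 2) := by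
    have a1 : Cg p 1 x ((i : ℚ) + 1) := (Dv_pmul ht).congr (by rw [hx]; ring)
    have a2 : Cg p 1 (x + p * M) ((i : ℚ) + 1) :=
      (Dv_pmul (add_mem ht (nat_mem (p := p) M))).congr (by rw [hx]; ring)
    refine (a1.mul a2 hu0.mem hu2.mem).trans (Cg.of_eq (by ring))
  have hc2 := Cg.inv hc1 (hxu.mul hu2) (hu0.pow 2)
  have hwm : ww (L + 1) x ∈ ZP p := h1.mem (ww_mem h3 hMp ht)
  have hc3 : Cg p 1 (ww (L + 1) x * (x * (x + p * M))⁻¹) (ww M t * (((i : ℚ) + 1) ^ 2)⁻¹) :=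
    h1.mul hc2 (ww_mem h3 hMp ht) (hxu.mul hu2).inv.mem
  have hPP : PP L x = -((p : ℚ) ^ 2 * M ^ 2) * (ww (L + 1) x * (x * (x + p * M))⁻¹) := by
    rw [hA, ← hLq]
    have n1 := hxu.ne_zero
    have n2 := hu2.ne_zero
    have n3 : (p : ℚ) ≠ 0 := p_ne
    have n4 : (M : ℚ) ≠ 0 := by exact_mod_cast hM.ne'
    field_simp
  have h2m : (-2 : ℚ) ∈ ZP p := by
    have := int_mem (p := p) (-2)
    exact_mod_cast this
  have hfin := Dv.mul (Dv_pow (p := p) 2) (Dv.smul (mul_mem h2m (pow_mem (nat_mem M) 2)) hc3)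
  rw [hPP]
  refine hfin.congr ?_
  rw [one_div]
  ring

/-- the basic sum -/
def VV (M : ℕ) : ℚ := ∑ r ∈ range M, (3 * (r : ℚ) + 2) / (2 * r + 1) * cp r

theorem cp_succ (r : ℕ) : cp (r + 1) = cp r * ((3 * r + 1) * (3 * r + 2) / (9 * (r + 1) ^ 2)) := by
  unfold cp
  rw [show 3 * (r + 1) = 3 * r + 3 by ring]
  rw [f3, f1, pow_succ]
  have h1 := fne (3 * r)
  have h2 := fne r
  push_cast
  field_simp
  norm_num

theorem cp_eq (r : ℕ) : cp r = ww r (-1 / 3) := by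
  induction r with
  | zero => simp [cp, ww]
  | succ r ih =>
    rw [cp_succ, ih, ww_succ]
    field_simp
    ring

theorem VV_eq (M : ℕ) : VV M = 3 / 2 * (PS M (-1 / 3) + QS M (-1 / 3)) := by
  unfold VV PS QS
  rw [Finset.mul_sum, ← Finset.sum_add_distrib, Finset.mul_sum]
  apply Finset.sum_congr rfl
  intro r _
  rw [cp_eq]
  have : (2 * (r : ℚ) + 1) ≠ 0 := by positivity
  field_simp
  ring

/-- the shift: `-1/3 = p * tp + ap` -/
def tp (p : ℕ) : ℚ := if p % 3 = 1 then -1 / 3 else -2 / 3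
def ap (p : ℕ) : ℕ := if p % 3 = 1 then (p - 1) / 3 else (2 * p - 1) / 3

theorem tp_mem (h3 : 3 < p) : tp p ∈ ZP p := by
  unfold tp
  split
  · exact const_mem h3 0 1 (-1) (by norm_num)
  · exact const_mem h3 0 1 (-2) (by norm_num)

theorem tp_ap (h3 : 3 < p) : (p : ℚ) * tp p + ap p = -1 / 3 := by
  unfold tp ap
  rcases p_mod_three h3 with h | h
  · rw [if_pos h, if_pos h]
    have e : 3 * ((p - 1) / 3) + 1 = p := by omega
    have e2 : 3 * (((p - 1) / 3 : ℕ) : ℚ) + 1 = (p : ℚ) := by exact_mod_cast e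
    linarith
  · rw [if_neg (by omega), if_neg (by omega)]
    have e : 3 * ((2 * p - 1) / 3) + 1 = 2 * p := by omega
    have e2 : 3 * (((2 * p - 1) / 3 : ℕ) : ℚ) + 1 = 2 * (p : ℚ) := by exact_mod_cast e
    linarith

theorem ap_lt (h3 : 3 < p) : ap p < p := by
  unfold ap
  split <;> omega

theorem ap_sign (h3 : 3 < p) : (-1 : ℚ) ^ (ap p) = chi p := by
  have hodd : p % 2 = 1 := Nat.odd_iff.1 (hp.out.odd_of_ne_two (by omega))
  unfold ap
  rcases p_mod_three h3 with h | h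
  · rw [if_pos h, chi_one h]
    have : Even ((p - 1) / 3) := by rw [Nat.even_iff]; omega
    exact this.neg_one_pow
  · rw [if_neg (by omega), chi_two h]
    have : Odd ((2 * p - 1) / 3) := by rw [Nat.odd_iff]; omega
    exact this.neg_one_pow

theorem ww_tp (r : ℕ) : ww r (tp p) = cp r := by
  rw [cp_eq]
  unfold tp
  split
  · rfl
  · rw [← ww_symm]; congr 1; norm_num

theorem PS_tp (M : ℕ) : PS M (tp p) = PS M (-1 / 3) := by
  unfold PS
  apply Finset.sum_congr rfl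
  intro r _
  rw [ww_tp, cp_eq]

theorem QS_tp (h3 : 3 < p) (M : ℕ) : QS M (tp p) = chi p * QS M (-1 / 3) := by
  unfold QS
  have e : ∑ r ∈ range M, ww r (tp p) / (2 * (r : ℚ) + 1) =
      ∑ r ∈ range M, ww r (-1 / 3) / (2 * (r : ℚ) + 1) := by
    apply Finset.sum_congr rfl
    intro r _
    rw [ww_tp, cp_eq]
  rw [e]
  unfold tp
  rcases p_mod_three h3 with h | h
  · rw [if_pos h, chi_one h]; ring
  · rw [if_neg (by omega), chi_two h]; ring

/-- the alternating sum that appears -/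
def sig (a : ℕ) : ℚ := H2 a + ∑ i ∈ range a, (-1 : ℚ) ^ (a + i + 1) * (1 / ((i : ℚ) + 1) ^ 2)

theorem VV_congr (h3 : 3 < p) {h : ℕ} (hh : p = 2 * h + 1) {M : ℕ} (hMp : M < p)
    (hu : ∀ l < M, Un p (2 * (l : ℚ) + 1)) :
    Cg p 3 (VV (p * M)) (chi p * VV M - 3 * (p : ℚ) ^ 2 * (M ^ 2 * cp M) * sig (ap p)) := by
  rcases Nat.eq_zero_or_pos M with rfl | hM
  · refine Cg.of_eq ?_
    simp [VV]
  obtain ⟨L, hL⟩ : ∃ L, p * M = L + 1 := ⟨p * M - 1, by
      have := Nat.mul_pos hp.out.pos hM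
      omega⟩
  have ht := tp_mem (p := p) h3
  have hP := P_total h3 ht (M := M) (by omega)
  have hQ := Q_total h3 hh ht (M := M) (by omega) hu
  have hPi := PS_iter L ((p : ℚ) * tp p) (ap p)
  have hQi := QS_iter L ((p : ℚ) * tp p) (ap p)
  rw [tp_ap h3, ← hL] at hPi hQi
  have hP' : Cg p 3 (PS (p * M) ((p : ℚ) * tp p)) (PS M (-1 / 3)) := by
    rw [← PS_tp (p := p)]; exact hP
  have hQ' : Cg p 3 (QS (p * M) ((p : ℚ) * tp p)) (chi p * QS M (-1 / 3)) := by
    rw [← QS_tp h3]; exact hQ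
  have hS1 : Cg p 3 (∑ i ∈ range (ap p), (-1 : ℚ) ^ (ap p + i + 1) * (2 * PP L ((p : ℚ) * tp p + (i + 1))))
      (∑ i ∈ range (ap p), (-1 : ℚ) ^ (ap p + i + 1) *
        (-2 * (p : ℚ) ^ 2 * (M ^ 2 * ww M (tp p)) * (1 / ((i : ℚ) + 1) ^ 2))) := by
    apply Cg.sum
    intro i hi
    rw [Finset.mem_range] at hi
    have := ap_lt h3
    exact Cg.smul (pow_mem (neg_mem (one_mem _)) _) (PP_far h3 ht hM hMp hL (by omega))
  have hS2 : Cg p 3 (∑ i ∈ range (ap p), (2 * PP L ((p : ℚ) * tp p + (i + 1))))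
      (∑ i ∈ range (ap p),
        (-2 * (p : ℚ) ^ 2 * (M ^ 2 * ww M (tp p)) * (1 / ((i : ℚ) + 1) ^ 2))) := by
    apply Cg.sum
    intro i hi
    rw [Finset.mem_range] at hi
    have := ap_lt h3
    exact (PP_far h3 ht hM hMp hL (by omega))
  rw [VV_eq, hPi, hQi, ap_sign h3]
  have h32 : (3 / 2 : ℚ) ∈ ZP p := const_mem h3 1 0 3 (by norm_num)
  have htot := Cg.smul h32 (((Cg.smul (chi_mem (p := p)) hP').add hS1).add (hQ'.add hS2))
  refine htot.trans (Cg.of_eq ?_)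
  rw [VV_eq, ww_tp, ← Finset.mul_sum]
  have e : ∑ i ∈ range (ap p), (-1 : ℚ) ^ (ap p + i + 1) *
        (-2 * (p : ℚ) ^ 2 * (M ^ 2 * cp M) * (1 / ((i : ℚ) + 1) ^ 2)) =
        -2 * (p : ℚ) ^ 2 * (M ^ 2 * cp M) *
          ∑ i ∈ range (ap p), (-1 : ℚ) ^ (ap p + i + 1) * (1 / ((i : ℚ) + 1) ^ 2) := by
    rw [Finset.mul_sum]
    apply Finset.sum_congr rfl
    intro i _
    ring
  rw [e]
  unfold sig H2
  ring

end MP18afd0
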