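import Mathlib
import Pool.Agent.Work.MP_18afd0_nt.ZeroC

/-!
# The Bernoulli polynomial at `1/3` modulo `p`
-/

namespace MP18afd0

open Finset

variable {p : ℕ} [hp : Fact p.Prime]

theorem bernoulli_mem (h3 : 3 < p) : ∀ k : ℕ, k + 1 < p → bernoulli k ∈ ZP p := by
  intro k
  induction k using Nat.strong_induction_on with
  | _ k ih =>
    intro hk
    have h1 := sum_bernoulli (k + 1)
    rw [Finset.sum_range_succ] at h1
    have h2 : ((k + 1).choose k : ℚ) = (k : ℚ) + 1 := by
      rw [Nat.choose_succ_self_right]; push_cast; ring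
    rw [h2] at h1
    have hu : Un p ((k : ℚ) + 1) := Un_succ hk
    have h4 : bernoulli k = ((k : ℚ) + 1)⁻¹ * ((if k + 1 = 1 then 1 else 0) -
        ∑ x ∈ range k, ((k + 1).choose x : ℚ) * bernoulli x) := by
      have := hu.ne_zero
      rw [← h1]
      field_simp
      ring
    rw [h4]
    apply mul_mem hu.inv.mem
    apply sub_mem
    · split
      · exact one_mem _
      · exact zero_mem _
    · apply sum_mem
      intro x hx
      rw [Finset.mem_range] at hx
      exact mul_mem (nat_mem _) (ih x hx (by omega))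

/-- evaluation of the Bernoulli polynomial -/
theorem bern_eval (n : ℕ) (x : ℚ) : (Polynomial.bernoulli n).eval x =
    ∑ i ∈ range (n + 1), bernoulli i * (n.choose i : ℚ) * x ^ (n - i) := by
  rw [Polynomial.bernoulli, Polynomial.eval_finset_sum]
  apply Finset.sum_congr rfl
  intro i _
  rw [Polynomial.eval_monomial]

theorem bern_congr (h3 : 3 < p) {x y : ℚ} (hx : x ∈ ZP p) (hy : y ∈ ZP p) (h : Dv p 1 (x - y)) :
    Cg p 1 ((Polynomial.bernoulli (p - 2)).eval x) ((Polynomial.bernoulli (p - 2)).eval y) := by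
  rw [bern_eval, bern_eval]
  apply Cg.sum
  intro i hi
  rw [Finset.mem_range] at hi
  apply Cg.smul
  · exact mul_mem (bernoulli_mem h3 i (by omega)) (nat_mem _)
  · exact Cg.pow h hy _

theorem bern_neg (h3 : 3 < p) (a : ℕ) : (Polynomial.bernoulli (p - 2)).eval (-(a : ℚ)) =
    -((p : ℚ) - 2) * ∑ i ∈ range a, ((i : ℚ) + 1) ^ (p - 3) := by
  have hodd : p % 2 = 1 := Nat.odd_iff.1 (hp.out.odd_of_ne_two (by omega))
  induction a with
  | zero =>
    simp only [Finset.range_zero, Finset.sum_empty, mul_zero]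
    rw [show -((0 : ℕ) : ℚ) = 0 by simp, Polynomial.bernoulli_eval_zero]
    apply bernoulli_eq_zero_of_odd
    · rw [Nat.odd_iff]; omega
    · omega
  | succ a ih =>
    have h1 := Polynomial.bernoulli_eval_one_add (p - 2) (-((a + 1 : ℕ) : ℚ))
    have h2 : (1 : ℚ) + -((a + 1 : ℕ) : ℚ) = -(a : ℚ) := by push_cast; ring
    rw [h2, ih] at h1
    rw [Finset.sum_range_succ]
    have h4 : ((p - 2 : ℕ) : ℚ) = (p : ℚ) - 2 := by
      rw [Nat.cast_sub (by omega)]; push_cast; ring
    have h5 : p - 2 - 1 = p - 3 := by omega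
    have h6 : (-((a + 1 : ℕ) : ℚ)) ^ (p - 3) = ((a : ℚ) + 1) ^ (p - 3) := by
      have : Even (p - 3) := by rw [Nat.even_iff]; omega
      rw [this.neg_pow]
      push_cast
      ring
    rw [h4, h5, h6] at h1
    linear_combination -h1

theorem bern_third (h3 : 3 < p) :
    Cg p 1 ((Polynomial.bernoulli (p - 2)).eval (1 / 3)) (2 * H2 (ap p)) := by
  have h1 : Cg p 1 ((Polynomial.bernoulli (p - 2)).eval (1 / 3))
      ((Polynomial.bernoulli (p - 2)).eval (-(ap p : ℚ))) := by
    apply bern_congr h3 (third_mem h3) (neg_mem (nat_mem _))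
    have h2 := (Dv_pmul (p := p) (tp_mem h3)).neg
    refine h2.congr ?_
    have := tp_ap (p := p) h3
    linear_combination -this
  refine h1.trans ?_
  rw [bern_neg h3]
  have h2 : Cg p 1 (∑ i ∈ range (ap p), ((i : ℚ) + 1) ^ (p - 3)) (H2 (ap p)) := by
    unfold H2
    apply Cg.sum
    intro i hi
    rw [Finset.mem_range] at hi
    have hlt := ap_lt (p := p) h3
    have := (inv_sq_congr_pow h3 (i := i + 1) (by omega) (by omega)).symm
    push_cast at this
    exact this
  have hc : -((p : ℚ) - 2) ∈ ZP p := neg_mem (sub_mem p_mem (Un_two h3).mem)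
  refine (Cg.smul hc h2).trans ?_
  have hH := H2_mem (ap_lt (p := p) h3)
  have h4 := ((Dv_p (p := p)).smul hH).neg
  refine h4.congr ?_
  ring

end MP18afd0
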