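import Mathlib
import Pool.Agent.Work.MP_18afd0_nt.WZBlock
import Pool.Agent.Work.MP_18afd0_nt.Basic

/-!
# Integrality of the normalised hypergeometric term
-/

namespace MP18afd0

open Finset

theorem div_facts (L q : ℕ) (hq : 0 < q) : q * (L / q) ≤ L ∧ L < q * (L / q) + q := by
  constructor
  · exact Nat.mul_div_le L q
  · have := Nat.lt_mul_div_succ L hq
    rw [mul_add, mul_one] at this
    exact this

theorem floor_core (a b q : ℕ) (hq : 4 ≤ q) (ha : a < q) (hb : b < q) (hab : 0 < a + b) :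
    2 * ((a + b) / q) + (3 * a) / q + (2 * a + b - 1) / q + (a + 2 * b) / q ≤
      (3 * a + 3 * b) / q + (4 * a + 2 * b - 2) / q + (2 * b) / q := by
  have hq0 : 0 < q := by omega
  obtain ⟨s1, s2⟩ := div_facts (a + b) q hq0
  obtain ⟨u1, u2⟩ := div_facts (3 * a) q hq0
  obtain ⟨v1, v2⟩ := div_facts (2 * a + b - 1) q hq0
  obtain ⟨w1, w2⟩ := div_facts (a + 2 * b) q hq0
  obtain ⟨f1, f1'⟩ := div_facts (3 * a + 3 * b) q hq0
  obtain ⟨g1, g1'⟩ := div_facts (4 * a + 2 * b - 2) q hq0
  obtain ⟨h1, h1'⟩ := div_facts (2 * b) q hq0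
  have bs : (a + b) / q < 2 := by rw [Nat.div_lt_iff_lt_mul hq0]; omega
  have bu : (3 * a) / q < 3 := by rw [Nat.div_lt_iff_lt_mul hq0]; omega
  have bv : (2 * a + b - 1) / q < 3 := by rw [Nat.div_lt_iff_lt_mul hq0]; omega
  have bw : (a + 2 * b) / q < 3 := by rw [Nat.div_lt_iff_lt_mul hq0]; omega
  have bf : (3 * a + 3 * b) / q < 6 := by rw [Nat.div_lt_iff_lt_mul hq0]; omega
  have bg : (4 * a + 2 * b - 2) / q < 6 := by rw [Nat.div_lt_iff_lt_mul hq0]; omega
  have bh : (2 * b) / q < 2 := by rw [Nat.div_lt_iff_lt_mul hq0]; omega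
  generalize (a + b) / q = s at *
  generalize (3 * a) / q = u at *
  generalize (2 * a + b - 1) / q = v at *
  generalize (a + 2 * b) / q = w at *
  generalize (3 * a + 3 * b) / q = f at *
  generalize (4 * a + 2 * b - 2) / q = g at *
  generalize (2 * b) / q = h at *
  interval_cases s <;> interval_cases u <;> interval_cases h <;>
    interval_cases v <;> try omega
  all_goals (interval_cases w <;> try omega)
  all_goals (interval_cases f <;> try omega)
  all_goals (interval_cases g <;> omega)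

theorem floor_ineq (i d q : ℕ) (hq : 4 ≤ q) :
    2 * ((i + d + 1) / q) + (3 * i + 3) / q + (2 * i + d + 1) / q + 2 * (d / q) +
      (i + 2 * d + 1) / q ≤
    (3 * i + 3 * d + 3) / q + (i + 1) / q + (4 * i + 2 * d + 2) / q + (2 * d) / q := by
  have hq0 : 0 < q := by omega
  obtain ⟨A, a, ha, hI⟩ : ∃ A a, a < q ∧ i + 1 = q * A + a :=
    ⟨(i + 1) / q, (i + 1) % q, Nat.mod_lt _ hq0, (Nat.div_add_mod _ _).symm⟩
  obtain ⟨B, b, hb, hd⟩ : ∃ B b, b < q ∧ d = q * B + b :=
    ⟨d / q, d % q, Nat.mod_lt _ hq0, (Nat.div_add_mod _ _).symm⟩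
  have e1 : (i + d + 1) / q = (A + B) + (a + b) / q := by
    have : i + d + 1 = q * (A + B) + (a + b) := by rw [mul_add]; omega
    rw [this, Nat.mul_add_div hq0]
  have e2 : (3 * i + 3) / q = 3 * A + (3 * a) / q := by
    have : 3 * i + 3 = q * (3 * A) + 3 * a := by
      have : 3 * i + 3 = 3 * (i + 1) := by ring
      rw [this, hI]; ring
    rw [this, Nat.mul_add_div hq0]
  have e4 : d / q = B := by
    rw [hd, Nat.mul_add_div hq0, Nat.div_eq_of_lt hb, add_zero]
  have e5 : (i + 2 * d + 1) / q = (A + 2 * B) + (a + 2 * b) / q := by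
    have : i + 2 * d + 1 = q * (A + 2 * B) + (a + 2 * b) := by
      have : i + 2 * d + 1 = (i + 1) + 2 * d := by ring
      rw [this, hI, hd]; ring
    rw [this, Nat.mul_add_div hq0]
  have e6 : (3 * i + 3 * d + 3) / q = (3 * A + 3 * B) + (3 * a + 3 * b) / q := by
    have : 3 * i + 3 * d + 3 = q * (3 * A + 3 * B) + (3 * a + 3 * b) := by
      have : 3 * i + 3 * d + 3 = 3 * (i + 1) + 3 * d := by ring
      rw [this, hI, hd]; ring
    rw [this, Nat.mul_add_div hq0]
  have e7 : (i + 1) / q = A := by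
    rw [hI, Nat.mul_add_div hq0, Nat.div_eq_of_lt ha, add_zero]
  have e9 : (2 * d) / q = 2 * B + (2 * b) / q := by
    have : 2 * d = q * (2 * B) + 2 * b := by rw [hd]; ring
    rw [this, Nat.mul_add_div hq0]
  rcases Nat.eq_zero_or_pos (a + b) with hab | hab
  · have ha0 : a = 0 := by omega
    have hb0 : b = 0 := by omega
    subst ha0 hb0
    have hA : 0 < A := by
      rcases Nat.eq_zero_or_pos A with h | h
      · subst h; omega
      · exact h
    have e3 : (2 * i + d + 1) / q = 2 * A + B - 1 := by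
      have h1 : 2 * i + d + 1 + 1 = q * (2 * A + B) := by
        have : 2 * i + d + 1 + 1 = 2 * (i + 1) + d := by ring
        rw [this, hI, hd]; ring
      have h2 : 2 * i + d + 1 = q * (2 * A + B - 1) + (q - 1) := by
        obtain ⟨c, hc⟩ : ∃ c, 2 * A + B = c + 1 := ⟨2 * A + B - 1, by omega⟩
        rw [hc, mul_add, mul_one] at h1
        rw [hc, Nat.add_sub_cancel]
        omega
      rw [h2, Nat.mul_add_div hq0, Nat.div_eq_of_lt (by omega), add_zero]
    have e8 : (4 * i + 2 * d + 2) / q = 4 * A + 2 * B - 1 := by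
      have h1 : 4 * i + 2 * d + 2 + 2 = q * (4 * A + 2 * B) := by
        have : 4 * i + 2 * d + 2 + 2 = 4 * (i + 1) + 2 * d := by ring
        rw [this, hI, hd]; ring
      have h2 : 4 * i + 2 * d + 2 = q * (4 * A + 2 * B - 1) + (q - 2) := by
        obtain ⟨c, hc⟩ : ∃ c, 4 * A + 2 * B = c + 1 := ⟨4 * A + 2 * B - 1, by omega⟩
        rw [hc, mul_add, mul_one] at h1
        rw [hc, Nat.add_sub_cancel]
        omega
      rw [h2, Nat.mul_add_div hq0, Nat.div_eq_of_lt (by omega), add_zero]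
    rw [e1, e2, e3, e4, e5, e6, e7, e8, e9]
    simp
    omega
  · have hc := floor_core a b q hq ha hb hab
    have e3 : (2 * i + d + 1) / q = (2 * A + B) + (2 * a + b - 1) / q := by
      have : 2 * i + d + 1 = q * (2 * A + B) + (2 * a + b - 1) := by
        have h1 : 2 * i + d + 1 + 1 = 2 * (i + 1) + d := by ring
        have h2 : 2 * (i + 1) + d = q * (2 * A + B) + (2 * a + b) := by
          rw [hI, hd]; ring
        omega
      rw [this, Nat.mul_add_div hq0]
    have e8 : (4 * i + 2 * d + 2) / q = (4 * A + 2 * B) + (4 * a + 2 * b - 2) / q := by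
      have : 4 * i + 2 * d + 2 = q * (4 * A + 2 * B) + (4 * a + 2 * b - 2) := by
        have h1 : 4 * i + 2 * d + 2 + 2 = 4 * (i + 1) + 2 * d := by ring
        have h2 : 4 * (i + 1) + 2 * d = q * (4 * A + 2 * B) + (4 * a + 2 * b) := by
          rw [hI, hd]; ring
        omega
      rw [this, Nat.mul_add_div hq0]
    rw [e1, e2, e3, e4, e5, e6, e7, e8, e9]
    omega

variable {p : ℕ} [hp : Fact p.Prime]

theorem div_mem_of_val {a b : ℕ} (ha : a ≠ 0) (hb : b ≠ 0)
    (h : padicValNat p b ≤ padicValNat p a) : (a : ℚ) / (b : ℚ) ∈ ZP p := by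
  rw [mem_ZP, padicNorm.div]
  have ha' : (a : ℚ) ≠ 0 := by exact_mod_cast ha
  have hb' : (b : ℚ) ≠ 0 := by exact_mod_cast hb
  rw [padicNorm.eq_zpow_of_nonzero ha', padicNorm.eq_zpow_of_nonzero hb', padicValRat.of_nat,
    padicValRat.of_nat]
  have hp0 : (p : ℚ) ≠ 0 := p_ne
  have hp1 : (1 : ℚ) ≤ (p : ℚ) := by exact_mod_cast hp.out.one_lt.le
  rw [← zpow_sub₀ hp0]
  apply zpow_le_one_of_nonpos₀ hp1
  omega

theorem W_integral_nat (h3 : 3 < p) (i d : ℕ) :
    padicValNat p ((i + d + 1).factorial ^ 2 * (3 * i + 3).factorial * (2 * i + d + 1).factorial *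
      d.factorial ^ 2 * (i + 2 * d + 1).factorial) ≤
    padicValNat p ((3 * i + 3 * d + 3).factorial * (i + 1).factorial * (4 * i + 2 * d + 2).factorial *
      (2 * d).factorial) := by
  have nf : ∀ n : ℕ, n.factorial ≠ 0 := Nat.factorial_ne_zero
  rw [padicValNat.mul (by simp [nf]) (nf _), padicValNat.mul (by simp [nf]) (by simp [nf]),
    padicValNat.mul (by simp [nf]) (nf _), padicValNat.mul (by simp [nf]) (nf _),
    padicValNat.pow, padicValNat.pow,
    padicValNat.mul (by simp [nf]) (nf _), padicValNat.mul (by simp [nf]) (nf _),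
    padicValNat.mul (by simp [nf]) (nf _)]
  have key : ∀ n : ℕ, n ≤ 10 * i + 10 * d + 10 →
      padicValNat p n.factorial = ∑ e ∈ Finset.Ico 1 (10 * i + 10 * d + 11), n / p ^ e := by
    intro n hn
    apply padicValNat_factorial
    have := Nat.log_le_self p n
    omega
  rw [key (i + d + 1) (by omega), key (3 * i + 3) (by omega), key (2 * i + d + 1) (by omega),
    key d (by omega), key (i + 2 * d + 1) (by omega), key (3 * i + 3 * d + 3) (by omega),
    key (i + 1) (by omega), key (4 * i + 2 * d + 2) (by omega), key (2 * d) (by omega)]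
  rw [Finset.mul_sum, Finset.mul_sum, ← Finset.sum_add_distrib, ← Finset.sum_add_distrib,
    ← Finset.sum_add_distrib, ← Finset.sum_add_distrib, ← Finset.sum_add_distrib,
    ← Finset.sum_add_distrib, ← Finset.sum_add_distrib]
  apply Finset.sum_le_sum
  intro e he
  rw [Finset.mem_Ico] at he
  have hq : 4 ≤ p ^ e := by
    calc 4 ≤ p := h3
      _ = p ^ 1 := (pow_one p).symm
      _ ≤ p ^ e := Nat.pow_le_pow_right hp.out.pos he.1
  exact floor_ineq i d (p ^ e) hq

theorem W_mem (h3 : 3 < p) (i d : ℕ) : W (i + 1) d ∈ ZP p := by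
  have h1 := div_mem_of_val (p := p) (by
    have nf : ∀ n : ℕ, n.factorial ≠ 0 := Nat.factorial_ne_zero
    simp [nf]) (by
    have nf : ∀ n : ℕ, n.factorial ≠ 0 := Nat.factorial_ne_zero
    simp [nf]) (W_integral_nat h3 i d)
  have e : W (i + 1) d = (-1) ^ d * (2 / (64 ^ (i + 1 + d) * 27 ^ d)) *
      ((((3 * i + 3 * d + 3).factorial * (i + 1).factorial * (4 * i + 2 * d + 2).factorial *
      (2 * d).factorial : ℕ) : ℚ) / (((i + d + 1).factorial ^ 2 * (3 * i + 3).factorial *
      (2 * i + d + 1).factorial * d.factorial ^ 2 * (i + 2 * d + 1).factorial : ℕ) : ℚ)) := by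
    unfold W V
    rw [show 3 * (i + 1) + 3 * d = 3 * i + 3 * d + 3 by ring,
      show 4 * (i + 1) + 2 * d = (4 * i + 2 * d + 2) + 2 by ring,
      show 3 * (i + 1) = 3 * i + 3 by ring,
      show 2 * (i + 1) + d = (2 * i + d + 1) + 1 by ring,
      show (i + 1) + 2 * d = i + 2 * d + 1 by ring,
      show i + 1 + d = i + d + 1 by ring, f2 (4 * i + 2 * d + 2), f1 (2 * i + d + 1)]
    have g1 := fne (3 * i + 3 * d + 3)
    have g2 := fne (i + 1)
    have g3 := fne (4 * i + 2 * d + 2)
    have g4 := fne (2 * d)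
    have g5 := fne (i + d + 1)
    have g6 := fne (3 * i + 3)
    have g7 := fne (2 * i + d + 1)
    have g8 := fne d
    have g9 := fne (i + 2 * d + 1)
    push_cast
    have e1 : (4 * ((i : ℚ) + 1) + 2 * d - 1) = 4 * i + 2 * d + 3 := by ring
    rw [e1]
    have n1 : (4 * (i : ℚ) + 2 * d + 3) ≠ 0 := by positivity
    have n2 : (2 * (i : ℚ) + d + 1 + 1) ≠ 0 := by positivity
    generalize ((3 * i + 3 * d + 3).factorial : ℚ) = x1 at *
    generalize ((i + 1).factorial : ℚ) = x2 at *
    generalize ((4 * i + 2 * d + 2).factorial : ℚ) = x3 at *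
    generalize ((2 * d).factorial : ℚ) = x4 at *
    generalize ((i + d + 1).factorial : ℚ) = x5 at *
    generalize ((3 * i + 3).factorial : ℚ) = x6 at *
    generalize ((2 * i + d + 1).factorial : ℚ) = x7 at *
    generalize (d.factorial : ℚ) = x8 at *
    generalize ((i + 2 * d + 1).factorial : ℚ) = x9 at *
    have hc1 : (64 : ℚ) ^ (i + d + 1) ≠ 0 := by positivity
    have hc2 : (27 : ℚ) ^ d ≠ 0 := by positivity
    field_simp
    ring
  rw [e]
  have h2 : (2 : ℚ) / (64 ^ (i + 1 + d) * 27 ^ d) ∈ ZP p := by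
    have u64 : Un p (64 : ℚ) := Un_const h3 0 0 6 0 (by norm_num)
    have u27 : Un p (27 : ℚ) := Un_const h3 0 0 0 3 (by norm_num)
    exact mem_div_of_Un (Un_two h3).mem ((u64.pow _).mul (u27.pow _))
  exact mul_mem (mul_mem (pow_mem (neg_mem (one_mem _)) _) h2) h1

end MP18afd0
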