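import Mathlib
import Pool.Agent.Work.MP_18afd0_nt.WZBlock

/-!
# Two families of exact evaluations of the block sum
-/

namespace MP18afd0

open Finset

/-! ### the line `Y = -2 X` -/

theorem ttII (r : ℕ) (y : ℚ) : tt r y (-2 * y) =
    ∏ i ∈ range r, ((1 / 3 - 2 * y + i) * (2 / 3 - 2 * y + i) * (1 / 2 - y + i) /
    ((1 - y + i) * (1 + i) * (3 / 2 - 3 * y + i))) := by
  unfold tt
  apply Finset.prod_congr rfl
  intro i _
  congr 1
  · ring
  · ring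

theorem ttII_succ (r : ℕ) (y : ℚ) : tt (r + 1) y (-2 * y) = tt r y (-2 * y) *
    ((1 / 3 - 2 * y + r) * (2 / 3 - 2 * y + r) * (1 / 2 - y + r) /
    ((1 - y + r) * (1 + r) * (3 / 2 - 3 * y + r))) := by
  rw [ttII, ttII, Finset.prod_range_succ]

theorem ttII_rel (y : ℚ) (R : ℕ) (hy : 0 < y) (h1 : ∀ i : ℕ, 1 - y + i ≠ 0)
    (h2 : ∀ i : ℕ, i + 1 < R → 3 / 2 - 3 * y + i ≠ 0)
    (h3 : ∀ i : ℕ, i + 1 < R → 1 / 2 - 3 * y + i ≠ 0) (h4 : 1 / 2 - 3 * y ≠ 0) :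
    ∀ r < R, tt (r + 2) (y + 1) (-2 * (y + 1)) = tt r y (-2 * y) *
      ((5 / 3 + 2 * y) * (2 / 3 + 2 * y) * (4 / 3 + 2 * y) * (1 / 3 + 2 * y) * (1 / 2 + y) /
        (y * (3 / 2 + 3 * y) * (1 / 2 + 3 * y) * (1 / 2 - 3 * y))) *
      ((1 / 2 - y + r) * (1 / 2 - 3 * y + r) / ((1 - y + r) * (r + 1) * (r + 2))) := by
  intro r
  have n1 : y ≠ 0 := hy.ne'
  have n2 : (3 / 2 + 3 * y) ≠ 0 := by positivity
  have n3 : (1 / 2 + 3 * y) ≠ 0 := by positivity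
  induction r with
  | zero =>
    intro _
    have n4 := h1 0
    rw [ttII, ttII, Finset.prod_range_succ, Finset.prod_range_succ, Finset.prod_range_zero,
      Finset.prod_range_zero]
    push_cast at n4 ⊢
    have a1 : (1 - (y + 1) + 0) = -y := by ring
    have a2 : (1 - (y + 1) + 1) = 1 - y + 0 := by ring
    have a3 : (3 / 2 - 3 * (y + 1) + 0) = -(3 / 2 + 3 * y) := by ring
    have a4 : (3 / 2 - 3 * (y + 1) + 1) = -(1 / 2 + 3 * y) := by ring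
    rw [a1, a2, a3, a4]
    generalize hD : (1 - y + 0) = D at *
    generalize hE : (3 / 2 + 3 * y) = E at *
    generalize hF : (1 / 2 + 3 * y) = F at *
    generalize hG : (1 / 2 - 3 * y) = G at *
    field_simp
    ring
  | succ r ih =>
    intro hr
    have ih' := ih (by omega)
    have n4 := h1 r
    have n5 := h1 (r + 1)
    have n6 := h2 r hr
    have n7 := h3 r hr
    rw [show r + 1 + 2 = (r + 2) + 1 by ring, ttII_succ, ih', ttII_succ]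
    push_cast at n4 n5 n6 n7 ⊢
    have b1 : ((1 : ℚ) - (y + 1) + (r + 2)) = 1 - y + (r + 1) := by ring
    have b2 : (3 / 2 - 3 * (y + 1) + ((r : ℚ) + 2)) = 1 / 2 - 3 * y + r := by ring
    have b3 : (1 / 2 - 3 * y + ((r : ℚ) + 1)) = 3 / 2 - 3 * y + r := by ring
    rw [b1, b2, b3]
    generalize hD : (1 - y + (r : ℚ)) = D at *
    generalize hE : (1 - y + ((r : ℚ) + 1)) = E at *
    generalize hF : (3 / 2 - 3 * y + (r : ℚ)) = F at *
    generalize hG : (1 / 2 - 3 * y + (r : ℚ)) = G at *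
    generalize tt r y (-2 * y) = t
    generalize hK : ((5 / 3 + 2 * y) * (2 / 3 + 2 * y) * (4 / 3 + 2 * y) * (1 / 3 + 2 * y) * (1 / 2 + y) /
        (y * (3 / 2 + 3 * y) * (1 / 2 + 3 * y) * (1 / 2 - 3 * y))) = K
    have hr1 : ((r : ℚ) + 1) ≠ 0 := by positivity
    have hr2 : ((r : ℚ) + 2) ≠ 0 := by positivity
    have hr3 : ((r : ℚ) + 3) ≠ 0 := by positivity
    have c1 : ((1 : ℚ) + (r + 2)) = r + 3 := by ring
    have c2 : ((r : ℚ) + 1 + 1) = r + 2 := by ring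
    have c3 : ((r : ℚ) + 1 + 2) = r + 3 := by ring
    have c4 : ((1 : ℚ) + r) = r + 1 := by ring
    rw [c1, c2, c3, c4]
    field_simp
    ring

/-- the polynomial in the first component of the WZ pair on this line -/
def QII (y r : ℚ) : ℚ := 18 * y ^ 2 - 6 * y * r + 24 * r ^ 2 + 9 * y + 28 * r + 7

/-- certificate -/
def PhiII (y : ℚ) : ℕ → ℚ
  | 0 => QII y 0
  | (r + 1) => tt r y (-2 * y) * ((1 / 3 - 2 * y + r) * (2 / 3 - 2 * y + r) * (1 / 2 - y + r)) /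
      ((1 - y + r) * (1 + r)) * (QII y (r + 1) / ((1 / 2 - 3 * y) * (r + 2)))

theorem PhiII_eq (y : ℚ) (R : ℕ) (h2 : ∀ i : ℕ, i + 1 < R → 3 / 2 - 3 * y + i ≠ 0)
    (h4 : 1 / 2 - 3 * y ≠ 0) : ∀ r < R,
    PhiII y r = tt r y (-2 * y) * (1 / 2 - 3 * y + r) * QII y r / ((1 / 2 - 3 * y) * (r + 1)) := by
  intro r hr
  cases r with
  | zero =>
    simp only [PhiII, tt, Finset.range_zero, Finset.prod_empty, Nat.cast_zero, add_zero, zero_add]
    generalize hG : (1 / 2 - 3 * y) = G at *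
    field_simp
  | succ r =>
    have n1 := h2 r hr
    simp only [PhiII]
    rw [ttII_succ]
    push_cast
    have b3 : (1 / 2 - 3 * y + ((r : ℚ) + 1)) = 3 / 2 - 3 * y + r := by ring
    rw [b3]
    generalize tt r y (-2 * y) = t
    generalize QII y (r + 1) = q
    generalize hF : (3 / 2 - 3 * y + (r : ℚ)) = F at *
    generalize hG : (1 / 2 - 3 * y) = G at *
    by_cases hD : (1 - y + (r : ℚ)) = 0
    · rw [hD]; simp
    have hr1 : ((r : ℚ) + 1) ≠ 0 := by positivity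
    have c4 : ((1 : ℚ) + r) = r + 1 := by ring
    have c5 : ((r : ℚ) + 1 + 1) = r + 2 := by ring
    have hr2 : ((r : ℚ) + 2) ≠ 0 := by positivity
    rw [c4, c5]
    field_simp

theorem famII_tel (y : ℚ) (R : ℕ) (hy : 0 < y) (h1 : ∀ i : ℕ, 1 - y + i ≠ 0)
    (h2 : ∀ i : ℕ, i + 1 < R → 3 / 2 - 3 * y + i ≠ 0)
    (h3 : ∀ i : ℕ, i + 1 < R → 1 / 2 - 3 * y + i ≠ 0) (h4 : 1 / 2 - 3 * y ≠ 0) :
    ∀ r < R, 27 / 4 * y / (5 + 6 * y) * ((3 * ((r + 2 : ℕ) : ℚ) + 2 + 3 * (-2 * (y + 1)) - 6 * (y + 1)) *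
        tt (r + 2) (y + 1) (-2 * (y + 1))) =
      16 * y / (1 - 6 * y) * ((3 * (r : ℚ) + 2 + 3 * (-2 * y) - 6 * y) * tt r y (-2 * y)) +
        (PhiII y (r + 1) - PhiII y r) := by
  intro r hr
  rw [ttII_rel y R hy h1 h2 h3 h4 r hr, PhiII_eq y R h2 h4 r hr]
  simp only [PhiII, QII]
  have n1 : y ≠ 0 := hy.ne'
  have n2 : (3 / 2 + 3 * y) ≠ 0 := by positivity
  have n3 : (1 / 2 + 3 * y) ≠ 0 := by positivity
  have n4 := h1 r
  have n5 : (5 + 6 * y) ≠ 0 := by positivity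
  have n6 : (1 - 6 * y) ≠ 0 := by
    intro h; apply h4; linarith
  have hr1 : ((r : ℚ) + 1) ≠ 0 := by positivity
  have hr2 : ((r : ℚ) + 2) ≠ 0 := by positivity
  generalize tt r y (-2 * y) = t
  push_cast
  have e1 : (3 / 2 + 3 * y) = 3 * (1 + 2 * y) / 2 := by ring
  have e2 : (1 / 2 + 3 * y) = (1 + 6 * y) / 2 := by ring
  have e3 : (1 / 2 - 3 * y) = (1 - 6 * y) / 2 := by ring
  have n7 : (1 + 2 * y) ≠ 0 := by positivity
  have n8 : (1 + 6 * y) ≠ 0 := by positivity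
  have c4 : ((1 : ℚ) + r) = r + 1 := by ring
  rw [e1, e2, e3, c4]
  field_simp
  ring

theorem famII_step (y : ℚ) (R : ℕ) (hy : 0 < y) (h1 : ∀ i : ℕ, 1 - y + i ≠ 0)
    (h2 : ∀ i : ℕ, i + 1 < R + 1 → 3 / 2 - 3 * y + i ≠ 0)
    (h3 : ∀ i : ℕ, i + 1 < R + 1 → 1 / 2 - 3 * y + i ≠ 0) (h4 : 1 / 2 - 3 * y ≠ 0)
    (hz : tt R y (-2 * y) * ((1 / 3 - 2 * y + R) * (2 / 3 - 2 * y + R) * (1 / 2 - y + R)) = 0) :
    SG (R + 1 + 2) (y + 1) (-2 * (y + 1)) = 64 / 27 * ((5 + 6 * y) / (1 - 6 * y)) *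
      SG (R + 1) y (-2 * y) := by
  have n5 : (5 + 6 * y) ≠ 0 := by positivity
  have n6 : (1 - 6 * y) ≠ 0 := by
    intro h; apply h4; linarith
  have n1 : y ≠ 0 := hy.ne'
  have hsum := Finset.sum_congr (rfl : range (R + 1) = range (R + 1))
    (fun r hr => famII_tel y (R + 1) hy h1 h2 h3 h4 r (Finset.mem_range.1 hr))
  rw [← Finset.mul_sum, Finset.sum_add_distrib, ← Finset.mul_sum, Finset.sum_range_sub] at hsum
  have hPhi : PhiII y (R + 1) = 0 := by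
    simp only [PhiII]
    rw [hz]; simp
  rw [hPhi] at hsum
  unfold SG
  rw [Finset.sum_range_succ', Finset.sum_range_succ']
  have t0 : tt 0 (y + 1) (-2 * (y + 1)) = 1 := by simp [tt]
  have t1 : tt (0 + 1) (y + 1) (-2 * (y + 1)) = -((6 * y + 5) * (6 * y + 4)) / (27 * y) := by
    rw [ttII_succ, t0]
    have a1 : (1 - (y + 1) + ((0 : ℕ) : ℚ)) = -y := by push_cast; ring
    have a3 : (3 / 2 - 3 * (y + 1) + ((0 : ℕ) : ℚ)) = -(3 * (1 + 2 * y) / 2) := by push_cast; ring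
    rw [a1, a3]
    have n7 : (1 + 2 * y) ≠ 0 := by positivity
    push_cast
    field_simp
    ring
  rw [t0, t1]
  have e : ∀ r ∈ range (R + 1), (3 * ((r + 1 + 1 : ℕ) : ℚ) + 2 + 3 * (-2 * (y + 1)) - 6 * (y + 1)) *
      tt (r + 1 + 1) (y + 1) (-2 * (y + 1)) =
      (3 * ((r + 2 : ℕ) : ℚ) + 2 + 3 * (-2 * (y + 1)) - 6 * (y + 1)) *
      tt (r + 2) (y + 1) (-2 * (y + 1)) := fun r _ => rfl
  rw [Finset.sum_congr rfl e]
  set A := ∑ i ∈ range (R + 1), (3 * ((i + 2 : ℕ) : ℚ) + 2 + 3 * (-2 * (y + 1)) - 6 * (y + 1)) *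
      tt (i + 2) (y + 1) (-2 * (y + 1)) with hA
  set B := ∑ i ∈ range (R + 1), (3 * (i : ℚ) + 2 + 3 * (-2 * y) - 6 * y) * tt i y (-2 * y) with hB
  have hA2 : A = (4 * (5 + 6 * y) / (27 * y)) * (16 * y / (1 - 6 * y) * B - PhiII y 0) := by
    have : (4 * (5 + 6 * y) / (27 * y)) * (27 / 4 * y / (5 + 6 * y) * A) = A := by
      field_simp
    rw [← this, hsum]
    ring
  rw [hA2]
  simp only [PhiII, QII]
  push_cast
  field_simp
  ring

/-- if a factor of the numerator vanishes at an index `< r`, the term vanishes -/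
theorem tt_vanish {r i : ℕ} (hi : i < r) {X Y : ℚ}
    (h : (1 / 3 + Y + i) * (2 / 3 + Y + i) * (1 / 2 + X + Y + i) = 0) : tt r X Y = 0 := by
  unfold tt
  apply Finset.prod_eq_zero (Finset.mem_range.2 hi)
  rw [h]; simp

theorem SG_extend {R L i : ℕ} (hRL : R ≤ L) (hi : i < R) {X Y : ℚ}
    (h : (1 / 3 + Y + i) * (2 / 3 + Y + i) * (1 / 2 + X + Y + i) = 0) : SG L X Y = SG R X Y := by
  unfold SG
  rw [← Finset.sum_range_add_sum_Ico _ hRL]
  have : ∑ r ∈ Finset.Ico R L, (3 * (r : ℚ) + 2 + 3 * Y - 6 * X) * tt r X Y = 0 := by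
    apply Finset.sum_eq_zero
    intro r hr
    rw [Finset.mem_Ico] at hr
    rw [tt_vanish (by omega : i < r) h]
    ring
  rw [this, add_zero]

end MP18afd0
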