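import Mathlib
import Pool.Agent.Work.MP_18afd0_nt.Blocks

/-!
# Functions of two `p`-integral variables that are polynomial modulo `p ^ 3`

`InA`: value is congruent to a quadratic polynomial in `p n`, `p m`.
`InC`: value is congruent to a cubic polynomial in `n`, `m` whose coefficients of degree `d` are
divisible by `p ^ (d - 1)`.
-/

namespace MP18afd0

open Finset

variable {p : ℕ} [hp : Fact p.Prime]

/-- quadratic polynomial in `p n`, `p m` -/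
def ev (p : ℕ) (a b c d e g n m : ℚ) : ℚ :=
  a + p * (b * n + c * m) + p ^ 2 * (d * n ^ 2 + e * (n * m) + g * m ^ 2)

def InA (p : ℕ) [hp : Fact p.Prime] (f : ℚ → ℚ → ℚ) : Prop :=
  ∃ a ∈ ZP p, ∃ b ∈ ZP p, ∃ c ∈ ZP p, ∃ d ∈ ZP p, ∃ e ∈ ZP p, ∃ g ∈ ZP p,
    ∀ n ∈ ZP p, ∀ m ∈ ZP p, Cg p 3 (f n m) (ev p a b c d e g n m)

theorem ev_mem {a b c d e g n m : ℚ} (ha : a ∈ ZP p) (hb : b ∈ ZP p) (hc : c ∈ ZP p)
    (hd : d ∈ ZP p) (he : e ∈ ZP p) (hg : g ∈ ZP p) (hn : n ∈ ZP p) (hm : m ∈ ZP p) :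
    ev p a b c d e g n m ∈ ZP p := by
  unfold ev
  have hpm : (p : ℚ) ∈ ZP p := p_mem
  exact add_mem (add_mem ha (mul_mem hpm (add_mem (mul_mem hb hn) (mul_mem hc hm))))
    (mul_mem (pow_mem hpm _) (add_mem (add_mem (mul_mem hd (pow_mem hn _))
      (mul_mem he (mul_mem hn hm))) (mul_mem hg (pow_mem hm _))))

theorem InA.mem {f : ℚ → ℚ → ℚ} (h : InA p f) {n m : ℚ} (hn : n ∈ ZP p) (hm : m ∈ ZP p) :
    f n m ∈ ZP p := by
  obtain ⟨a, ha, b, hb, c, hc, d, hd, e, he, g, hg, h⟩ := h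
  exact (h n hn m hm).mem (ev_mem ha hb hc hd he hg hn hm)

theorem InA.congr {f g : ℚ → ℚ → ℚ} (h : InA p f)
    (e : ∀ n ∈ ZP p, ∀ m ∈ ZP p, g n m = f n m) : InA p g := by
  obtain ⟨a, ha, b, hb, c, hc, d, hd, e', he, g', hg, h⟩ := h
  refine ⟨a, ha, b, hb, c, hc, d, hd, e', he, g', hg, fun n hn m hm => ?_⟩
  rw [e n hn m hm]
  exact h n hn m hm

theorem InA_lin {s α β : ℚ} (hs : s ∈ ZP p) (hα : α ∈ ZP p) (hβ : β ∈ ZP p) :
    InA p (fun n m => s + p * (α * n + β * m)) :=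
  ⟨s, hs, α, hα, β, hβ, 0, zero_mem _, 0, zero_mem _, 0, zero_mem _,
    fun n _ m _ => Cg.of_eq (by unfold ev; ring)⟩

theorem InA_const {s : ℚ} (hs : s ∈ ZP p) : InA p (fun _ _ => s) :=
  ⟨s, hs, 0, zero_mem _, 0, zero_mem _, 0, zero_mem _, 0, zero_mem _, 0, zero_mem _,
    fun n _ m _ => Cg.of_eq (by unfold ev; ring)⟩

theorem InA.add {f f' : ℚ → ℚ → ℚ} (h : InA p f) (h' : InA p f') :
    InA p (fun n m => f n m + f' n m) := by
  obtain ⟨a, ha, b, hb, c, hc, d, hd, e, he, g, hg, h⟩ := h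
  obtain ⟨a', ha', b', hb', c', hc', d', hd', e', he', g', hg', h'⟩ := h'
  refine ⟨a + a', add_mem ha ha', b + b', add_mem hb hb', c + c', add_mem hc hc',
    d + d', add_mem hd hd', e + e', add_mem he he', g + g', add_mem hg hg', ?_⟩
  intro n hn m hm
  refine ((h n hn m hm).add (h' n hn m hm)).trans (Cg.of_eq ?_)
  unfold ev; ring

theorem InA.mul {f f' : ℚ → ℚ → ℚ} (h : InA p f) (h' : InA p f') :
    InA p (fun n m => f n m * f' n m) := by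
  have hf' := @InA.mem p _ f' h'
  obtain ⟨a, ha, b, hb, c, hc, d, hd, e, he, g, hg, h⟩ := h
  obtain ⟨a', ha', b', hb', c', hc', d', hd', e', he', g', hg', h'⟩ := h'
  refine ⟨a * a', mul_mem ha ha', a * b' + a' * b, add_mem (mul_mem ha hb') (mul_mem ha' hb),
    a * c' + a' * c, add_mem (mul_mem ha hc') (mul_mem ha' hc),
    a * d' + a' * d + b * b', add_mem (add_mem (mul_mem ha hd') (mul_mem ha' hd)) (mul_mem hb hb'),
    a * e' + a' * e + (b * c' + b' * c), add_mem (add_mem (mul_mem ha he') (mul_mem ha' he))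
      (add_mem (mul_mem hb hc') (mul_mem hb' hc)),
    a * g' + a' * g + c * c', add_mem (add_mem (mul_mem ha hg') (mul_mem ha' hg)) (mul_mem hc hc'),
    ?_⟩
  intro n hn m hm
  have h1 := Cg.mul (h n hn m hm) (h' n hn m hm) (ev_mem ha hb hc hd he hg hn hm) (hf' hn hm)
  refine h1.trans ?_
  have hpm : (p : ℚ) ∈ ZP p := p_mem
  have hL : b * n + c * m ∈ ZP p := add_mem (mul_mem hb hn) (mul_mem hc hm)
  have hL' : b' * n + c' * m ∈ ZP p := add_mem (mul_mem hb' hn) (mul_mem hc' hm)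
  have hS : d * n ^ 2 + e * (n * m) + g * m ^ 2 ∈ ZP p := add_mem (add_mem (mul_mem hd (pow_mem hn _))
      (mul_mem he (mul_mem hn hm))) (mul_mem hg (pow_mem hm _))
  have hS' : d' * n ^ 2 + e' * (n * m) + g' * m ^ 2 ∈ ZP p :=
    add_mem (add_mem (mul_mem hd' (pow_mem hn _))
      (mul_mem he' (mul_mem hn hm))) (mul_mem hg' (pow_mem hm _))
  refine ⟨(b * n + c * m) * (d' * n ^ 2 + e' * (n * m) + g' * m ^ 2) +
    (d * n ^ 2 + e * (n * m) + g * m ^ 2) * (b' * n + c' * m) +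
    p * ((d * n ^ 2 + e * (n * m) + g * m ^ 2) * (d' * n ^ 2 + e' * (n * m) + g' * m ^ 2)),
    add_mem (add_mem (mul_mem hL hS') (mul_mem hS hL')) (mul_mem hpm (mul_mem hS hS')), ?_⟩
  unfold ev
  ring

theorem InA.smul {f : ℚ → ℚ → ℚ} {s : ℚ} (hs : s ∈ ZP p) (h : InA p f) :
    InA p (fun n m => s * f n m) := (InA_const hs).mul h

theorem InA.neg {f : ℚ → ℚ → ℚ} (h : InA p f) :
    InA p (fun n m => - f n m) :=
  (h.smul (neg_mem (one_mem (ZP p)))).congr (fun n _ m _ => by ring)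

theorem InA.sub {f f' : ℚ → ℚ → ℚ} (h : InA p f) (h' : InA p f') :
    InA p (fun n m => f n m - f' n m) :=
  (h.add h'.neg).congr (fun n _ m _ => by ring)

theorem InA.sum {ι : Type*} (s : Finset ι) (f : ι → ℚ → ℚ → ℚ)
    (h : ∀ i ∈ s, InA p (f i)) : InA p (fun n m => ∑ i ∈ s, f i n m) := by
  classical
  induction s using Finset.induction_on with
  | empty => exact (InA_const (zero_mem _)).congr (fun n _ m _ => by simp)
  | insert a s ha ih =>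
    refine ((h a (Finset.mem_insert_self a s)).add
      (ih (fun i hi => h i (Finset.mem_insert_of_mem hi)))).congr (fun n _ m _ => ?_)
    rw [Finset.sum_insert ha]

theorem InA.prod {ι : Type*} (s : Finset ι) (f : ι → ℚ → ℚ → ℚ)
    (h : ∀ i ∈ s, InA p (f i)) : InA p (fun n m => ∏ i ∈ s, f i n m) := by
  classical
  induction s using Finset.induction_on with
  | empty => exact (InA_const (one_mem _)).congr (fun n _ m _ => by simp)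
  | insert a s ha ih =>
    refine ((h a (Finset.mem_insert_self a s)).mul
      (ih (fun i hi => h i (Finset.mem_insert_of_mem hi)))).congr (fun n _ m _ => ?_)
    rw [Finset.prod_insert ha]

theorem InA_inv_lin {s α β : ℚ} (hs : Un p s) (hα : α ∈ ZP p) (hβ : β ∈ ZP p) :
    InA p (fun n m => (s + p * (α * n + β * m))⁻¹) := by
  have hsi : s⁻¹ ∈ ZP p := hs.inv.mem
  refine ⟨s⁻¹, hsi, -(s⁻¹ ^ 2 * α), neg_mem (mul_mem (pow_mem hsi _) hα),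
    -(s⁻¹ ^ 2 * β), neg_mem (mul_mem (pow_mem hsi _) hβ),
    s⁻¹ ^ 3 * α ^ 2, mul_mem (pow_mem hsi _) (pow_mem hα _),
    s⁻¹ ^ 3 * (2 * α * β), mul_mem (pow_mem hsi _) ?_,
    s⁻¹ ^ 3 * β ^ 2, mul_mem (pow_mem hsi _) (pow_mem hβ _), ?_⟩
  · have h2 : ((2 : ℕ) : ℚ) ∈ ZP p := nat_mem 2
    push_cast at h2
    exact mul_mem (mul_mem h2 hα) hβ
  · intro n hn m hm
    have hw : α * n + β * m ∈ ZP p := add_mem (mul_mem hα hn) (mul_mem hβ hm)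
    have hu : Un p (s + p * (α * n + β * m)) := Un_add hs (Dv_pmul hw)
    refine ⟨-((α * n + β * m) ^ 3 * (s⁻¹ ^ 3 * (s + p * (α * n + β * m))⁻¹)),
      neg_mem (mul_mem (pow_mem hw _) (mul_mem (pow_mem hsi _) hu.inv.mem)), ?_⟩
    have h1 := hs.ne_zero
    have h2 := hu.ne_zero
    unfold ev
    field_simp
    ring

/-- cubic polynomial -/
def evC (p : ℕ) (c : ℕ → ℚ) (n m : ℚ) : ℚ :=
  c 0 + c 1 * n + c 2 * m + p * (c 3 * n ^ 2 + c 4 * (n * m) + c 5 * m ^ 2) +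
    p ^ 2 * (c 6 * n ^ 3 + c 7 * (n ^ 2 * m) + c 8 * (n * m ^ 2) + c 9 * m ^ 3)

def InC (p : ℕ) [hp : Fact p.Prime] (f : ℚ → ℚ → ℚ) : Prop :=
  ∃ c : ℕ → ℚ, (∀ i, c i ∈ ZP p) ∧ ∀ n ∈ ZP p, ∀ m ∈ ZP p, Cg p 3 (f n m) (evC p c n m)

theorem InC.congr {f g : ℚ → ℚ → ℚ} (h : InC p f)
    (e : ∀ n ∈ ZP p, ∀ m ∈ ZP p, g n m = f n m) : InC p g := by
  obtain ⟨c, hc, h⟩ := h
  refine ⟨c, hc, fun n hn m hm => ?_⟩
  rw [e n hn m hm]
  exact h n hn m hm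

theorem InC.add {f f' : ℚ → ℚ → ℚ} (h : InC p f) (h' : InC p f') :
    InC p (fun n m => f n m + f' n m) := by
  obtain ⟨c, hc, h⟩ := h
  obtain ⟨c', hc', h'⟩ := h'
  refine ⟨fun i => c i + c' i, fun i => add_mem (hc i) (hc' i), fun n hn m hm => ?_⟩
  refine ((h n hn m hm).add (h' n hn m hm)).trans (Cg.of_eq ?_)
  unfold evC; ring

theorem InC.sub {f f' : ℚ → ℚ → ℚ} (h : InC p f) (h' : InC p f') :
    InC p (fun n m => f n m - f' n m) := by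
  obtain ⟨c, hc, h⟩ := h
  obtain ⟨c', hc', h'⟩ := h'
  refine ⟨fun i => c i - c' i, fun i => sub_mem (hc i) (hc' i), fun n hn m hm => ?_⟩
  refine ((h n hn m hm).sub (h' n hn m hm)).trans (Cg.of_eq ?_)
  unfold evC; ring

/-- a finitely supported coefficient vector -/
def cv (c0 c1 c2 c3 c4 c5 c6 c7 c8 c9 : ℚ) : ℕ → ℚ
  | 0 => c0
  | 1 => c1
  | 2 => c2
  | 3 => c3
  | 4 => c4
  | 5 => c5
  | 6 => c6
  | 7 => c7
  | 8 => c8
  | 9 => c9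
  | _ => 0

theorem cv_mem {c0 c1 c2 c3 c4 c5 c6 c7 c8 c9 : ℚ} (h0 : c0 ∈ ZP p) (h1 : c1 ∈ ZP p)
    (h2 : c2 ∈ ZP p) (h3 : c3 ∈ ZP p) (h4 : c4 ∈ ZP p) (h5 : c5 ∈ ZP p) (h6 : c6 ∈ ZP p)
    (h7 : c7 ∈ ZP p) (h8 : c8 ∈ ZP p) (h9 : c9 ∈ ZP p) (i : ℕ) :
    cv c0 c1 c2 c3 c4 c5 c6 c7 c8 c9 i ∈ ZP p := by
  unfold cv
  split <;> first | assumption | exact zero_mem _

theorem evC_cv (c0 c1 c2 c3 c4 c5 c6 c7 c8 c9 n m : ℚ) :
    evC p (cv c0 c1 c2 c3 c4 c5 c6 c7 c8 c9) n m =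
      c0 + c1 * n + c2 * m + p * (c3 * n ^ 2 + c4 * (n * m) + c5 * m ^ 2) +
        p ^ 2 * (c6 * n ^ 3 + c7 * (n ^ 2 * m) + c8 * (n * m ^ 2) + c9 * m ^ 3) := rfl

/-- linear times `InA` -/
theorem InC_lin_mul {f : ℚ → ℚ → ℚ} {l0 l1 l2 : ℚ} (h0 : l0 ∈ ZP p) (h1 : l1 ∈ ZP p)
    (h2 : l2 ∈ ZP p) (h : InA p f) : InC p (fun n m => (l0 + l1 * n + l2 * m) * f n m) := by
  obtain ⟨a, ha, b, hb, c, hc, d, hd, e, he, g, hg, h⟩ := h
  have hpm : (p : ℚ) ∈ ZP p := p_mem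
  refine ⟨cv (l0 * a) (l1 * a + p * (l0 * b)) (l2 * a + p * (l0 * c))
    (l1 * b + p * (l0 * d)) (l1 * c + l2 * b + p * (l0 * e)) (l2 * c + p * (l0 * g))
    (l1 * d) (l1 * e + l2 * d) (l1 * g + l2 * e) (l2 * g),
    cv_mem (mul_mem h0 ha) (add_mem (mul_mem h1 ha) (mul_mem hpm (mul_mem h0 hb)))
      (add_mem (mul_mem h2 ha) (mul_mem hpm (mul_mem h0 hc)))
      (add_mem (mul_mem h1 hb) (mul_mem hpm (mul_mem h0 hd)))
      (add_mem (add_mem (mul_mem h1 hc) (mul_mem h2 hb)) (mul_mem hpm (mul_mem h0 he)))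
      (add_mem (mul_mem h2 hc) (mul_mem hpm (mul_mem h0 hg)))
      (mul_mem h1 hd) (add_mem (mul_mem h1 he) (mul_mem h2 hd))
      (add_mem (mul_mem h1 hg) (mul_mem h2 he)) (mul_mem h2 hg), ?_⟩
  intro n hn m hm
  have hl : l0 + l1 * n + l2 * m ∈ ZP p := add_mem (add_mem h0 (mul_mem h1 hn)) (mul_mem h2 hm)
  refine (Cg.smul hl (h n hn m hm)).trans (Cg.of_eq ?_)
  rw [evC_cv]
  unfold ev
  ring

/-- `p` times two linear forms times `InA` -/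
theorem InC_plin_mul {f : ℚ → ℚ → ℚ} {l0 l1 l2 k0 k1 k2 : ℚ} (h0 : l0 ∈ ZP p) (h1 : l1 ∈ ZP p)
    (h2 : l2 ∈ ZP p) (h0' : k0 ∈ ZP p) (h1' : k1 ∈ ZP p) (h2' : k2 ∈ ZP p) (h : InA p f) :
    InC p (fun n m => (l0 + l1 * n + l2 * m) * (p * (k0 + k1 * n + k2 * m) * f n m)) := by
  have hpm : (p : ℚ) ∈ ZP p := p_mem
  have hl : InA p (fun n m => p * k0 + p * (k1 * n + k2 * m)) := InA_lin (mul_mem hpm h0') h1' h2'
  refine (InC_lin_mul h0 h1 h2 (hl.mul h)).congr (fun n _ m _ => ?_)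
  ring

/-- `p ^ 2` times a cubic times `InA` -/
theorem InC_cubic_mul {f : ℚ → ℚ → ℚ} {q : ℕ → ℚ} (hq : ∀ i, q i ∈ ZP p) (h : InA p f) :
    InC p (fun n m => p ^ 2 * ((q 0 + q 1 * n + q 2 * m + (q 3 * n ^ 2 + q 4 * (n * m) + q 5 * m ^ 2) +
      (q 6 * n ^ 3 + q 7 * (n ^ 2 * m) + q 8 * (n * m ^ 2) + q 9 * m ^ 3)) * f n m)) := by
  obtain ⟨a, ha, b, hb, c, hc, d, hd, e, he, g, hg, h⟩ := h
  have hpm : (p : ℚ) ∈ ZP p := p_mem
  refine ⟨cv (p ^ 2 * (a * q 0)) (p ^ 2 * (a * q 1)) (p ^ 2 * (a * q 2))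
    (p * (a * q 3)) (p * (a * q 4)) (p * (a * q 5)) (a * q 6) (a * q 7) (a * q 8) (a * q 9),
    cv_mem (mul_mem (pow_mem hpm _) (mul_mem ha (hq 0))) (mul_mem (pow_mem hpm _) (mul_mem ha (hq 1)))
      (mul_mem (pow_mem hpm _) (mul_mem ha (hq 2))) (mul_mem hpm (mul_mem ha (hq 3)))
      (mul_mem hpm (mul_mem ha (hq 4))) (mul_mem hpm (mul_mem ha (hq 5)))
      (mul_mem ha (hq 6)) (mul_mem ha (hq 7)) (mul_mem ha (hq 8)) (mul_mem ha (hq 9)), ?_⟩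
  intro n hn m hm
  have hQ : (q 0 + q 1 * n + q 2 * m + (q 3 * n ^ 2 + q 4 * (n * m) + q 5 * m ^ 2) +
      (q 6 * n ^ 3 + q 7 * (n ^ 2 * m) + q 8 * (n * m ^ 2) + q 9 * m ^ 3)) ∈ ZP p :=
    add_mem (add_mem (add_mem (add_mem (hq 0) (mul_mem (hq 1) hn)) (mul_mem (hq 2) hm))
      (add_mem (add_mem (mul_mem (hq 3) (pow_mem hn _)) (mul_mem (hq 4) (mul_mem hn hm)))
        (mul_mem (hq 5) (pow_mem hm _))))
      (add_mem (add_mem (add_mem (mul_mem (hq 6) (pow_mem hn _))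
        (mul_mem (hq 7) (mul_mem (pow_mem hn _) hm))) (mul_mem (hq 8) (mul_mem hn (pow_mem hm _))))
        (mul_mem (hq 9) (pow_mem hm _)))
  have h1 := Cg.smul (pow_mem hpm 2) (Cg.smul hQ (h n hn m hm))
  refine h1.trans ?_
  have hL : b * n + c * m ∈ ZP p := add_mem (mul_mem hb hn) (mul_mem hc hm)
  have hS : d * n ^ 2 + e * (n * m) + g * m ^ 2 ∈ ZP p := add_mem (add_mem (mul_mem hd (pow_mem hn _))
      (mul_mem he (mul_mem hn hm))) (mul_mem hg (pow_mem hm _))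
  refine ⟨(q 0 + q 1 * n + q 2 * m + (q 3 * n ^ 2 + q 4 * (n * m) + q 5 * m ^ 2) +
      (q 6 * n ^ 3 + q 7 * (n ^ 2 * m) + q 8 * (n * m ^ 2) + q 9 * m ^ 3)) *
      ((b * n + c * m) + p * (d * n ^ 2 + e * (n * m) + g * m ^ 2)),
      mul_mem hQ (add_mem hL (mul_mem hpm hS)), ?_⟩
  rw [evC_cv]
  unfold ev
  ring

end MP18afd0
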