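import Mathlib
import Pool.Agent.Work.MP_18afd0_nt.Alg

/-!
# Interpolation: a function of class `InC` vanishing modulo `p ^ 3` at certain nodes vanishes
-/

namespace MP18afd0

open Finset

variable {p : ℕ} [hp : Fact p.Prime]

theorem Cg.dv {k : ℕ} {x y : ℚ} (h : Cg p k x y) (hx : Dv p k x) : Dv p k y := by
  have := hx.sub h
  exact this.congr (by ring)

theorem Cg.dv' {k : ℕ} {x y : ℚ} (h : Cg p k x y) (hy : Dv p k y) : Dv p k x := by
  have := Dv.add h hy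
  exact this.congr (by ring)

theorem Dv_unit_mul {k : ℕ} {x u : ℚ} (hu : Un p u) (h : Dv p k (u * x)) : Dv p k x := h.cancel hu

/-- one-variable vanishing -/
theorem InA_line (h3 : 3 < p) {W : ℚ → ℚ → ℚ} (hW : InA p W)
    (h0 : Dv p 3 (W 0 (-1 / 3))) (h1 : Dv p 3 (W (1 / 6) (-1 / 3)))
    (h2 : Dv p 3 (W (1 / 3) (-1 / 3))) : ∀ n ∈ ZP p, Dv p 3 (W n (-1 / 3)) := by
  obtain ⟨a, ha, b, hb, c, hc, d, hd, e, he, g, hg, h⟩ := hW
  have m0 : (0 : ℚ) ∈ ZP p := zero_mem _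
  have m1 : (1 / 6 : ℚ) ∈ ZP p := const_mem h3 1 1 1 (by norm_num)
  have m2 : (1 / 3 : ℚ) ∈ ZP p := third_mem h3
  have mm : (-1 / 3 : ℚ) ∈ ZP p := const_mem h3 0 1 (-1) (by norm_num)
  have e0 := (h 0 m0 _ mm).dv h0
  have e1 := (h _ m1 _ mm).dv h1
  have e2 := (h _ m2 _ mm).dv h2
  intro n hn
  apply (h n hn _ mm).dv'
  -- quadratic Lagrange interpolation
  have i0 : (18 : ℚ) * (n - 1 / 6) * (n - 1 / 3) ∈ ZP p := by
    have h18 : ((18 : ℕ) : ℚ) ∈ ZP p := nat_mem 18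
    push_cast at h18
    exact mul_mem (mul_mem h18 (sub_mem hn m1)) (sub_mem hn m2)
  have i1 : (-36 : ℚ) * n * (n - 1 / 3) ∈ ZP p := by
    have h18 : ((-36 : ℤ) : ℚ) ∈ ZP p := int_mem (-36)
    push_cast at h18
    exact mul_mem (mul_mem h18 hn) (sub_mem hn m2)
  have i2 : (18 : ℚ) * n * (n - 1 / 6) ∈ ZP p := by
    have h18 : ((18 : ℕ) : ℚ) ∈ ZP p := nat_mem 18
    push_cast at h18
    exact mul_mem (mul_mem h18 hn) (sub_mem hn m1)
  refine Dv.lin3 e0 e1 e2 i0 i1 i2 ?_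
  unfold ev
  ring

theorem InC_vanish (h3 : 3 < p) {f W : ℚ → ℚ → ℚ} (hf : InC p f) (hW : InA p W)
    (hfW : ∀ n ∈ ZP p, f n (-1 / 3) = (1 / 3 - 2 * n) * W n (-1 / 3))
    (a0 : Dv p 3 (f 0 0)) (a1 : Dv p 3 (f 0 1)) (a2 : Dv p 3 (f 0 2)) (a3 : Dv p 3 (f 0 3))
    (b1 : Dv p 3 (f (1 / 3) (-1 / 3))) (b2 : Dv p 3 (f (2 / 3) (-2 / 3)))
    (c1 : Dv p 3 (f (1 / 3) (-2 / 3))) (c2 : Dv p 3 (f (1 / 2) (-1)))
    (hW6 : Dv p 3 (W (1 / 6) (-1 / 3))) :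
    ∀ n ∈ ZP p, ∀ m ∈ ZP p, Dv p 3 (f n m) := by
  obtain ⟨c, hc, h⟩ := hf
  have hpm : (p : ℚ) ∈ ZP p := p_mem
  have k0 : (0 : ℚ) ∈ ZP p := zero_mem _
  have k1 : (1 : ℚ) ∈ ZP p := one_mem _
  have k2 : (2 : ℚ) ∈ ZP p := by exact_mod_cast nat_mem (p := p) 2
  have k3 : (3 : ℚ) ∈ ZP p := by exact_mod_cast nat_mem (p := p) 3
  have k13 : (1 / 3 : ℚ) ∈ ZP p := third_mem h3
  have k23 : (2 / 3 : ℚ) ∈ ZP p := twothird_mem h3
  have k12 : (1 / 2 : ℚ) ∈ ZP p := half_mem h3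
  have km13 : (-1 / 3 : ℚ) ∈ ZP p := const_mem h3 0 1 (-1) (by norm_num)
  have km23 : (-2 / 3 : ℚ) ∈ ZP p := const_mem h3 0 1 (-2) (by norm_num)
  have km1 : (-1 : ℚ) ∈ ZP p := neg_mem k1
  -- the line `n = 0`
  have d0 := (h 0 k0 0 k0).dv a0
  have d1 := (h 0 k0 1 k1).dv a1
  have d2 := (h 0 k0 2 k2).dv a2
  have d3 := (h 0 k0 3 k3).dv a3
  have x0 : Dv p 3 (c 0) := d0.congr (by unfold evC; ring)
  have x9 : Dv p 3 ((p : ℚ) ^ 2 * c 9) := by
    have := Dv.lin4 d0 d1 d2 d3 (const_mem h3 1 1 (-1) (x := -1 / 6) (by norm_num))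
      (const_mem h3 1 0 1 (x := 1 / 2) (by norm_num))
      (const_mem h3 1 0 (-1) (x := -1 / 2) (by norm_num))
      (const_mem h3 1 1 1 (x := 1 / 6) (by norm_num)) rfl
    refine this.congr ?_
    unfold evC; ring
  have x5 : Dv p 3 ((p : ℚ) * c 5) := by
    have := Dv.lin4 d0 d1 d2 x9 (const_mem h3 1 0 1 (x := 1 / 2) (by norm_num))
      (const_mem h3 0 0 (-1) (x := -1) (by norm_num))
      (const_mem h3 1 0 1 (x := 1 / 2) (by norm_num))
      (const_mem h3 0 0 (-3) (x := -3) (by norm_num)) rfl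
    refine this.congr ?_
    unfold evC; ring
  have x2 : Dv p 3 (c 2) := by
    have := Dv.lin4 d0 d1 x5 x9 (const_mem h3 0 0 (-1) (x := -1) (by norm_num))
      (const_mem h3 0 0 (1) (x := 1) (by norm_num))
      (const_mem h3 0 0 (-1) (x := -1) (by norm_num))
      (const_mem h3 0 0 (-1) (x := -1) (by norm_num)) rfl
    refine this.congr ?_
    unfold evC; ring
  -- value on the line `n = 0` everywhere
  have z0 : ∀ m ∈ ZP p, Dv p 3 (f 0 m) := by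
    intro m hm
    apply (h 0 k0 m hm).dv'
    have := Dv.lin4 x0 x2 x5 x9 k1 hm (pow_mem hm 2) (pow_mem hm 3) rfl
    refine this.congr ?_
    unfold evC; ring
  -- the line `m = -1/3`
  have w0 : Dv p 3 (W 0 (-1 / 3)) := by
    have h1 := z0 _ km13
    rw [hfW 0 k0] at h1
    have h2 := h1.smul k3
    exact h2.congr (by ring)
  have w3 : Dv p 3 (W (1 / 3) (-1 / 3)) := by
    rw [hfW _ k13] at b1
    have h2 := b1.smul (neg_mem k3)
    exact h2.congr (by ring)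
  have hWz := InA_line h3 hW w0 hW6 w3
  have zl : ∀ n ∈ ZP p, Dv p 3 (f n (-1 / 3)) := by
    intro n hn
    rw [hfW n hn]
    exact (hWz n hn).smul (sub_mem k13 (mul_mem k2 hn))
  have l0 := (h 0 k0 _ km13).dv (zl 0 k0)
  have l1 := (h 1 k1 _ km13).dv (zl 1 k1)
  have lm := (h _ km1 _ km13).dv (zl _ km1)
  have l2 := (h 2 k2 _ km13).dv (zl 2 k2)
  -- e3 = p^2 c6, e2, e1
  have x6 : Dv p 3 ((p : ℚ) ^ 2 * c 6) := by
    have := Dv.lin4 l0 l1 lm l2 (const_mem h3 1 0 (1) (x := 1 / 2) (by norm_num))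
      (const_mem h3 1 0 (-1) (x := -1 / 2) (by norm_num))
      (const_mem h3 1 1 (-1) (x := -1 / 6) (by norm_num))
      (const_mem h3 1 1 1 (x := 1 / 6) (by norm_num)) rfl
    refine this.congr ?_
    unfold evC; ring
  have y2 : Dv p 3 ((p : ℚ) * c 3 - (p : ℚ) ^ 2 * c 7 / 3) := by
    have := Dv.lin3 l0 l1 lm (const_mem h3 0 0 (-1) (x := -1) (by norm_num))
      (const_mem h3 1 0 1 (x := 1 / 2) (by norm_num))
      (const_mem h3 1 0 1 (x := 1 / 2) (by norm_num)) rfl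
    refine this.congr ?_
    unfold evC; ring
  have y1 : Dv p 3 (c 1 - (p : ℚ) * c 4 / 3 + (p : ℚ) ^ 2 * c 8 / 9) := by
    have := Dv.lin3 l1 lm x6 (const_mem h3 1 0 1 (x := 1 / 2) (by norm_num))
      (const_mem h3 1 0 (-1) (x := -1 / 2) (by norm_num))
      (const_mem h3 0 0 (-1) (x := -1) (by norm_num)) rfl
    refine this.congr ?_
    unfold evC; ring
  -- the line `m = -2/3`
  have r0 := (h 0 k0 _ km23).dv (z0 _ km23)
  have r1 := (h _ k13 _ km23).dv c1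
  have r2 := (h _ k23 _ km23).dv b2
  have v2 : Dv p 3 ((p : ℚ) * c 3 - 2 * (p : ℚ) ^ 2 * c 7 / 3) := by
    have := Dv.lin4 r0 r1 r2 x6 (const_mem h3 1 0 9 (x := 9 / 2) (by norm_num))
      (const_mem h3 0 0 (-9) (x := -9) (by norm_num))
      (const_mem h3 1 0 9 (x := 9 / 2) (by norm_num))
      (const_mem h3 0 0 (-1) (x := -1) (by norm_num)) rfl
    refine this.congr ?_
    unfold evC; ring
  have x7 : Dv p 3 ((p : ℚ) ^ 2 * c 7) := by
    have := Dv.lin2 y2 v2 k3 (neg_mem k3) rfl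
    refine this.congr ?_
    ring
  have x3 : Dv p 3 ((p : ℚ) * c 3) := by
    have := Dv.lin2 y2 x7 k1 k13 rfl
    refine this.congr ?_
    ring
  have v1 : Dv p 3 (c 1 - 2 * (p : ℚ) * c 4 / 3 + 4 * (p : ℚ) ^ 2 * c 8 / 9) := by
    have := Dv.lin4 r0 r1 v2 x6 (const_mem h3 0 0 (-3) (x := -3) (by norm_num))
      (const_mem h3 0 0 (3) (x := 3) (by norm_num))
      (const_mem h3 0 1 (-1) (x := -1 / 3) (by norm_num))
      (const_mem h3 0 2 (-1) (x := -1 / 9) (by norm_num)) rfl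
    refine this.congr ?_
    unfold evC; ring
  -- the node `(1/2, -1)`
  have s0 := (h 0 k0 _ km1).dv (z0 _ km1)
  have s1 := (h _ k12 _ km1).dv c2
  have u1 : Dv p 3 (c 1 - (p : ℚ) * c 4 + (p : ℚ) ^ 2 * c 8) := by
    have t1 := Dv.lin2 s0 s1 (const_mem h3 0 0 (-2) (x := -2) (by norm_num)) k2 rfl
    have t2 := Dv.lin4 t1 x3 x7 x6 k1 (const_mem h3 1 0 (-1) (x := -1 / 2) (by norm_num)) k12
      (const_mem h3 2 0 (-1) (x := -1 / 4) (by norm_num)) rfl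
    refine t2.congr ?_
    unfold evC; ring
  have x8 : Dv p 3 ((p : ℚ) ^ 2 * c 8) := by
    have := Dv.lin3 y1 v1 u1 (const_mem h3 1 0 9 (x := 9 / 2) (by norm_num))
      (const_mem h3 0 0 (-9) (x := -9) (by norm_num))
      (const_mem h3 1 0 9 (x := 9 / 2) (by norm_num)) rfl
    refine this.congr ?_
    ring
  have x4 : Dv p 3 ((p : ℚ) * c 4) := by
    have := Dv.lin3 y1 v1 x8 k3 (neg_mem k3) k1 rfl
    refine this.congr ?_
    ring
  have x1 : Dv p 3 (c 1) := by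
    have := Dv.lin3 u1 x4 x8 k1 k1 (neg_mem k1) rfl
    refine this.congr ?_
    ring
  intro n hn m hm
  apply (h n hn m hm).dv'
  have t1 := Dv.lin4 x0 x1 x2 x3 k1 hn hm (pow_mem hn 2) rfl
  have t2 := Dv.lin4 x4 x5 x6 x7 (mul_mem hn hm) (pow_mem hm 2) (pow_mem hn 3)
    (mul_mem (pow_mem hn 2) hm) rfl
  have t3 := Dv.lin4 t1 t2 x8 x9 k1 k1 (mul_mem hn (pow_mem hm 2)) (pow_mem hm 3) rfl
  refine t3.congr ?_
  unfold evC; ring

end MP18afd0
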