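import Mathlib
import Pool.Agent.Work.MP_18afd0_nt.Interp
import Pool.Agent.Work.MP_18afd0_nt.WZBlock
import Pool.Agent.Work.MP_18afd0_nt.Lam

/-!
# The block sum as a function of class `InC`
-/

namespace MP18afd0

open Finset

variable {p : ℕ} [hp : Fact p.Prime]

/-- product of the factors of the numerator depending only on `Y` -/
def numY (r : ℕ) (Y : ℚ) : ℚ := (∏ i ∈ range r, (1 / 3 + Y + i)) * ∏ i ∈ range r, (2 / 3 + Y + i)

/-- the same, with the factor `p (1/3 + m)` removed -/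
def numY' (p r : ℕ) (Y : ℚ) : ℚ :=
  if p % 3 = 1 then (∏ i ∈ (range r).erase (p / 3), (1 / 3 + Y + i)) * ∏ i ∈ range r, (2 / 3 + Y + i)
  else (∏ i ∈ range r, (1 / 3 + Y + i)) * ∏ i ∈ (range r).erase (p / 3), (2 / 3 + Y + i)

def numX (r : ℕ) (X Y : ℚ) : ℚ := ∏ i ∈ range r, (1 / 2 + X + Y + i)

def numX' (h r : ℕ) (X Y : ℚ) : ℚ := ∏ i ∈ (range r).erase h, (1 / 2 + X + Y + i)

def den1 (r : ℕ) (X Y : ℚ) : ℚ := ∏ i ∈ range r, ((1 + X + Y + i) * (1 + 2 * X + Y + i))

def den2 (r : ℕ) (X Y : ℚ) : ℚ := ∏ i ∈ range r, (3 / 2 + Y - X + i)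

def den2' (h r : ℕ) (X Y : ℚ) : ℚ := ∏ i ∈ (range r).erase (h - 1), (3 / 2 + Y - X + i)

theorem tt_eq (r : ℕ) (X Y : ℚ) :
    tt r X Y = numY r Y * numX r X Y / (den1 r X Y * den2 r X Y) := by
  unfold tt numY numX den1 den2
  rw [← Finset.prod_mul_distrib, ← Finset.prod_mul_distrib, ← Finset.prod_mul_distrib,
    ← Finset.prod_div_distrib]

theorem numY_eq (h3 : 3 < p) {r : ℕ} (hr : p / 3 < r) (m : ℚ) :
    numY r (p * m) = p * (1 / 3 + m) * numY' p r (p * m) := by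
  have hk : p / 3 ∈ range r := Finset.mem_range.2 hr
  unfold numY numY'
  rcases p_mod_three h3 with h | h
  · rw [if_pos h]
    have e : (p : ℚ) = 3 * ((p / 3 : ℕ) : ℚ) + 1 := by
      have : p = 3 * (p / 3) + 1 := by omega
      exact_mod_cast this
    rw [← Finset.mul_prod_erase (range r) (fun i : ℕ => (1 / 3 + (p : ℚ) * m + i)) hk]
    have e2 : (1 / 3 + (p : ℚ) * m + ((p / 3 : ℕ) : ℚ)) = p * (1 / 3 + m) := by
      linear_combination (-1 / 3 : ℚ) * e
    rw [e2]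
    ring
  · have hne : ¬ (p % 3 = 1) := by omega
    rw [if_neg hne]
    have e : (p : ℚ) = 3 * ((p / 3 : ℕ) : ℚ) + 2 := by
      have : p = 3 * (p / 3) + 2 := by omega
      exact_mod_cast this
    rw [← Finset.mul_prod_erase (range r) (fun i : ℕ => (2 / 3 + (p : ℚ) * m + i)) hk]
    have e2 : (2 / 3 + (p : ℚ) * m + ((p / 3 : ℕ) : ℚ)) = p * (1 / 3 + m) := by
      linear_combination (-1 / 3 : ℚ) * e
    rw [e2]
    ring

theorem numX_eq {h : ℕ} (hh : p = 2 * h + 1) {r : ℕ} (hr : h < r) (n m : ℚ) :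
    numX r (p * n) (p * m) = p * (1 / 2 + n + m) * numX' h r (p * n) (p * m) := by
  have hk : h ∈ range r := Finset.mem_range.2 hr
  unfold numX numX'
  rw [← Finset.mul_prod_erase (range r) (fun i : ℕ => (1 / 2 + (p : ℚ) * n + p * m + i)) hk]
  have e : (p : ℚ) = 2 * (h : ℚ) + 1 := by exact_mod_cast hh
  have e2 : (1 / 2 + (p : ℚ) * n + p * m + (h : ℚ)) = p * (1 / 2 + n + m) := by
    linear_combination (-1 / 2 : ℚ) * e
  rw [e2]

theorem den2_eq {h : ℕ} (hh : p = 2 * h + 1) (h1 : 1 ≤ h) {r : ℕ} (hr : h ≤ r) (n m : ℚ) :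
    den2 r (p * n) (p * m) = (p / 2) * (1 + 2 * m - 2 * n) * den2' h r (p * n) (p * m) := by
  have hk : h - 1 ∈ range r := Finset.mem_range.2 (by omega)
  unfold den2 den2'
  rw [← Finset.mul_prod_erase (range r) (fun i : ℕ => (3 / 2 + (p : ℚ) * m - p * n + i)) hk]
  have e : (p : ℚ) = 2 * (h : ℚ) + 1 := by exact_mod_cast hh
  have e2 : (3 / 2 + (p : ℚ) * m - p * n + ((h - 1 : ℕ) : ℚ)) = (p / 2) * (1 + 2 * m - 2 * n) := by
    rw [Nat.cast_sub h1]
    push_cast
    linear_combination (-1 / 2 : ℚ) * e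
  rw [e2]

/-- the weight -/
def wt (p r : ℕ) (n m : ℚ) : ℚ := 3 * (r : ℚ) + 2 + 3 * (p * m) - 6 * (p * n)

/-- the block sum multiplied by `1 + 2 m - 2 n` -/
def PolG (p h : ℕ) (n m : ℚ) : ℚ :=
  (1 + 2 * m - 2 * n) * (∑ r ∈ range h, wt p r n m * tt r (p * n) (p * m)) +
  (1 / 3 + m) * (2 * (wt p h n m * (numY' p h (p * m) * numX h (p * n) (p * m) *
    ((den1 h (p * n) (p * m))⁻¹ * (den2' h h (p * n) (p * m))⁻¹)))) +
  (1 / 3 + m) * (p * (1 / 2 + n + m) * (∑ r ∈ Finset.Ico (h + 1) p, 2 * (wt p r n m *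
    (numY' p r (p * m) * numX' h r (p * n) (p * m) *
      ((den1 r (p * n) (p * m))⁻¹ * (den2' h r (p * n) (p * m))⁻¹)))))

theorem PolG_eq (h3 : 3 < p) {h : ℕ} (hh : p = 2 * h + 1) {n m : ℚ}
    (hne : 1 + 2 * m - 2 * n ≠ 0) :
    PolG p h n m = (1 + 2 * m - 2 * n) * SG p (p * n) (p * m) := by
  have hpp : (p : ℚ) ≠ 0 := p_ne
  have hk : p / 3 < h := by omega
  have h1 : 1 ≤ h := by omega
  have key : SG p (p * n) (p * m) = ∑ r ∈ range h, wt p r n m * tt r (p * n) (p * m) +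
      (wt p h n m * tt h (p * n) (p * m) +
      ∑ r ∈ Finset.Ico (h + 1) p, wt p r n m * tt r (p * n) (p * m)) := by
    have g1 := Finset.sum_eq_sum_Ico_succ_bot (show h < p by omega)
      (fun r => wt p r n m * tt r (p * n) (p * m))
    have g2 := Finset.sum_range_add_sum_Ico (fun r => wt p r n m * tt r (p * n) (p * m))
      (show h ≤ p by omega)
    rw [← g1, g2]
    rfl
  rw [key]
  unfold PolG
  have main : ∀ r, h ≤ r → (1 + 2 * m - 2 * n) * tt r (p * n) (p * m) =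
      (1 / 3 + m) * (2 * (numY' p r (p * m) * numX r (p * n) (p * m) *
        ((den1 r (p * n) (p * m))⁻¹ * (den2' h r (p * n) (p * m))⁻¹))) := by
    intro r hr
    rw [tt_eq, numY_eq h3 (by omega), den2_eq hh h1 hr]
    generalize den1 r (p * n) (p * m) = u
    generalize den2' h r (p * n) (p * m) = v
    rw [div_eq_mul_inv, mul_inv, mul_inv, mul_inv]
    field_simp
  have e1 := main h le_rfl
  have e2 : (1 + 2 * m - 2 * n) * ∑ r ∈ Finset.Ico (h + 1) p, wt p r n m * tt r (p * n) (p * m) =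
      (1 / 3 + m) * (p * (1 / 2 + n + m) * (∑ r ∈ Finset.Ico (h + 1) p, 2 * (wt p r n m *
    (numY' p r (p * m) * numX' h r (p * n) (p * m) *
      ((den1 r (p * n) (p * m))⁻¹ * (den2' h r (p * n) (p * m))⁻¹))))) := by
    rw [Finset.mul_sum, Finset.mul_sum, Finset.mul_sum]
    apply Finset.sum_congr rfl
    intro r hr
    rw [Finset.mem_Ico] at hr
    have := main r (by omega)
    rw [numX_eq hh (by omega : h < r)] at this
    linear_combination (wt p r n m) * this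
  linear_combination (-(wt p h n m)) * e1 - e2

/-! ### the factors are of class `InA` -/

theorem InA_wt (r : ℕ) : InA p (fun n m => wt p r n m) := by
  have h2 : (3 * (r : ℚ) + 2) ∈ ZP p := by
    have := nat_mem (p := p) (3 * r + 2)
    exact_mod_cast this
  have h6 : (-6 : ℚ) ∈ ZP p := by
    have := int_mem (p := p) (-6)
    exact_mod_cast this
  have h33 : (3 : ℚ) ∈ ZP p := by
    have := int_mem (p := p) 3
    exact_mod_cast this
  refine (InA_lin h2 h6 h33).congr (fun n _ m _ => ?_)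
  unfold wt
  ring

theorem InA_fac {s α β : ℚ} (hs : s ∈ ZP p) (hα : α ∈ ZP p) (hβ : β ∈ ZP p) {F : ℚ → ℚ → ℚ}
    (e : ∀ n m, F n m = s + p * (α * n + β * m)) : InA p F :=
  (InA_lin hs hα hβ).congr (fun n _ m _ => e n m)

theorem InA_invfac {s α β : ℚ} (hs : Un p s) (hα : α ∈ ZP p) (hβ : β ∈ ZP p) {F : ℚ → ℚ → ℚ}
    (e : ∀ n m, F n m = s + p * (α * n + β * m)) : InA p (fun n m => (F n m)⁻¹) :=
  (InA_inv_lin hs hα hβ).congr (fun n _ m _ => by rw [e n m])

theorem third_add_mem (h3 : 3 < p) (i : ℕ) : (1 / 3 + (i : ℚ)) ∈ ZP p :=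
  add_mem (third_mem h3) (nat_mem i)

theorem twothird_add_mem (h3 : 3 < p) (i : ℕ) : (2 / 3 + (i : ℚ)) ∈ ZP p :=
  add_mem (twothird_mem h3) (nat_mem i)

theorem half_add_mem (h3 : 3 < p) (i : ℕ) : (1 / 2 + (i : ℚ)) ∈ ZP p :=
  add_mem (half_mem h3) (nat_mem i)

theorem InA_numY1 (h3 : 3 < p) (s : Finset ℕ) :
    InA p (fun _ m => ∏ i ∈ s, (1 / 3 + (p : ℚ) * m + i)) := by
  apply InA.prod
  intro i _
  exact InA_fac (third_add_mem h3 i) (zero_mem _) (one_mem _) (fun n m => by ring)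

theorem InA_numY2 (h3 : 3 < p) (s : Finset ℕ) :
    InA p (fun _ m => ∏ i ∈ s, (2 / 3 + (p : ℚ) * m + i)) := by
  apply InA.prod
  intro i _
  exact InA_fac (twothird_add_mem h3 i) (zero_mem _) (one_mem _) (fun n m => by ring)

theorem InA_numY (h3 : 3 < p) (r : ℕ) : InA p (fun _ m => numY r (p * m)) :=
  (InA_numY1 h3 (range r)).mul (InA_numY2 h3 (range r))

theorem InA_numY' (h3 : 3 < p) (r : ℕ) : InA p (fun _ m => numY' p r (p * m)) := by
  unfold numY'
  split
  · exact (InA_numY1 h3 _).mul (InA_numY2 h3 _)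
  · exact (InA_numY1 h3 _).mul (InA_numY2 h3 _)

theorem InA_numXs (h3 : 3 < p) (s : Finset ℕ) :
    InA p (fun n m => ∏ i ∈ s, (1 / 2 + (p : ℚ) * n + p * m + i)) := by
  apply InA.prod
  intro i _
  exact InA_fac (half_add_mem h3 i) (one_mem _) (one_mem _) (fun n m => by ring)

theorem InA_den1 {r : ℕ} (hr : r < p) :
    InA p (fun n m => (den1 r (p * n) (p * m))⁻¹) := by
  have : InA p (fun n m => ∏ i ∈ range r, ((1 + (p : ℚ) * n + p * m + i)⁻¹ *
      (1 + 2 * ((p : ℚ) * n) + p * m + i)⁻¹)) := by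
    apply InA.prod
    intro i hi
    rw [Finset.mem_range] at hi
    have hu : Un p ((i : ℚ) + 1) := Un_succ (by omega)
    have h2 : (2 : ℚ) ∈ ZP p := by
      have := int_mem (p := p) 2
      exact_mod_cast this
    exact (InA_invfac hu (one_mem _) (one_mem _) (fun n m => by ring)).mul
      (InA_invfac hu h2 (one_mem _) (fun n m => by ring))
  refine this.congr (fun n _ m _ => ?_)
  unfold den1
  rw [← Finset.prod_inv_distrib]
  apply Finset.prod_congr rfl
  intro i _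
  rw [mul_inv]

theorem Un_odd (h3 : 3 < p) {h i : ℕ} (hh : p = 2 * h + 1) (h1 : i + 1 ≠ h) (h2 : i + 1 < p) :
    Un p (3 / 2 + (i : ℚ)) := by
  have hnd : ¬ p ∣ (2 * i + 3) := by
    rintro ⟨c, hc⟩
    have hc0 : c ≠ 0 := by rintro rfl; omega
    have hc1 : c ≠ 1 := by rintro rfl; omega
    have hc2 : 2 ≤ c := by omega
    have : p * 2 ≤ p * c := Nat.mul_le_mul_left p hc2
    omega
  have hu := (Un_nat (p := p) hnd).div (Un_two h3)
  have e : (((2 * i + 3 : ℕ) : ℚ) / 2) = 3 / 2 + (i : ℚ) := by push_cast; ring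
  rwa [e] at hu

theorem InA_den2 (h3 : 3 < p) {h : ℕ} (hh : p = 2 * h + 1) (s : Finset ℕ)
    (hs : ∀ i ∈ s, i + 1 ≠ h ∧ i + 1 < p) :
    InA p (fun n m => (∏ i ∈ s, (3 / 2 + (p : ℚ) * m - p * n + i))⁻¹) := by
  have : InA p (fun n m => ∏ i ∈ s, (3 / 2 + (p : ℚ) * m - p * n + i)⁻¹) := by
    apply InA.prod
    intro i hi
    have hu : Un p (3 / 2 + (i : ℚ)) := Un_odd h3 hh (hs i hi).1 (hs i hi).2
    exact InA_invfac hu (neg_mem (one_mem _)) (one_mem _) (fun n m => by ring)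
  refine this.congr (fun n _ m _ => ?_)
  rw [Finset.prod_inv_distrib]

theorem InA_tt (h3 : 3 < p) {h : ℕ} (hh : p = 2 * h + 1) {r : ℕ} (hr : r < h) :
    InA p (fun n m => tt r (p * n) (p * m)) := by
  have h1 := InA_numY h3 (p := p) r
  have h2 := InA_numXs h3 (p := p) (range r)
  have h3' := InA_den1 (p := p) (r := r) (by omega)
  have h4 := InA_den2 h3 hh (range r) (fun i hi => by
    rw [Finset.mem_range] at hi
    constructor <;> omega)
  refine ((h1.mul h2).mul (h3'.mul h4)).congr (fun n _ m _ => ?_)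
  rw [tt_eq, div_eq_mul_inv, mul_inv]
  rfl

/-- the first sum -/
theorem InA_sum1 (h3 : 3 < p) {h : ℕ} (hh : p = 2 * h + 1) :
    InA p (fun n m => ∑ r ∈ range h, wt p r n m * tt r (p * n) (p * m)) := by
  apply InA.sum
  intro r hr
  rw [Finset.mem_range] at hr
  exact (InA_wt r).mul (InA_tt h3 hh hr)

theorem InC_PolG (h3 : 3 < p) {h : ℕ} (hh : p = 2 * h + 1) : InC p (PolG p h) := by
  have h2m : (2 : ℚ) ∈ ZP p := by
    have := int_mem (p := p) 2
    exact_mod_cast this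
  have hm2 : (-2 : ℚ) ∈ ZP p := neg_mem h2m
  have c1 := InC_lin_mul (one_mem _) hm2 h2m (InA_sum1 h3 hh)
  have a2 : InA p (fun n m => 2 * (wt p h n m * (numY' p h (p * m) * numX h (p * n) (p * m) *
    ((den1 h (p * n) (p * m))⁻¹ * (den2' h h (p * n) (p * m))⁻¹)))) := by
    apply InA.smul h2m
    apply (InA_wt h).mul
    apply ((InA_numY' h3 h).mul (InA_numXs h3 (range h))).mul
    apply (InA_den1 (by omega)).mul
    exact InA_den2 h3 hh _ (fun i hi => by
      rw [Finset.mem_erase, Finset.mem_range] at hi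
      constructor <;> omega)
  have c2 := InC_lin_mul (third_mem h3) (zero_mem _) (one_mem _) a2
  have a3 : InA p (fun n m => ∑ r ∈ Finset.Ico (h + 1) p, 2 * (wt p r n m *
    (numY' p r (p * m) * numX' h r (p * n) (p * m) *
      ((den1 r (p * n) (p * m))⁻¹ * (den2' h r (p * n) (p * m))⁻¹)))) := by
    apply InA.sum
    intro r hr
    rw [Finset.mem_Ico] at hr
    apply InA.smul h2m
    apply (InA_wt r).mul
    apply ((InA_numY' h3 r).mul (InA_numXs h3 _)).mul
    apply (InA_den1 (by omega)).mul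
    exact InA_den2 h3 hh _ (fun i hi => by
      rw [Finset.mem_erase, Finset.mem_range] at hi
      constructor <;> omega)
  have c3 := InC_plin_mul (third_mem h3) (zero_mem _) (one_mem _) (half_mem h3) (one_mem _)
    (one_mem _) a3
  refine ((c1.add c2).add c3).congr (fun n _ m _ => ?_)
  unfold PolG
  ring

end MP18afd0
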