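import Mathlib
import Pool.Agent.Work.MP_18afd0_nt.ZeroC
import Pool.Agent.Work.MP_18afd0_nt.Pol

/-!
# The line `n = 0`
-/

namespace MP18afd0

open Finset

variable {p : ℕ} [hp : Fact p.Prime]

theorem H2_add (a b : ℕ) :
    H2 (a + b) = H2 a + ∑ j ∈ range b, 1 / ((a : ℚ) + b - j) ^ 2 := by
  unfold H2
  rw [Finset.sum_range_add]
  congr 1
  rw [← Finset.sum_range_reflect]
  apply Finset.sum_congr rfl
  intro j hj
  rw [Finset.mem_range] at hj
  have e : (b - 1 - j) + 1 + j = b := by omega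
  have e2 : (((b - 1 - j) + 1 + j : ℕ) : ℚ) = (b : ℚ) := by rw [e]
  push_cast at e2 ⊢
  have e3 : ((a : ℚ) + ((b - 1 - j : ℕ) : ℚ) + 1) = (a : ℚ) + b - j := by linarith
  rw [e3]

theorem sum_range_two_mul (f : ℕ → ℚ) (b : ℕ) :
    ∑ i ∈ range (2 * b), f i = ∑ j ∈ range b, (f (2 * j) + f (2 * j + 1)) := by
  induction b with
  | zero => simp
  | succ b ih =>
    rw [show 2 * (b + 1) = 2 * b + 1 + 1 by ring, Finset.sum_range_succ, Finset.sum_range_succ, ih,
      Finset.sum_range_succ]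
    ring

theorem H2_refl (h3 : 3 < p) {a b : ℕ} (h : a + b = p - 1) : Dv p 1 (H2 a + H2 b) := by
  have h1 := H2_add a b
  rw [h] at h1
  have h2 : Cg p 1 (∑ j ∈ range b, 1 / ((a : ℚ) + b - j) ^ 2) (H2 b) := by
    conv_rhs => unfold H2
    apply Cg.sum
    intro j hj
    rw [Finset.mem_range] at hj
    have e : (a : ℚ) + b = (p : ℚ) - 1 := by
      have : a + b + 1 = p := by omega
      have : ((a + b + 1 : ℕ) : ℚ) = (p : ℚ) := by rw [this]
      push_cast at this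
      linarith
    have hu : Un p ((j : ℚ) + 1) := Un_succ (by omega)
    have hv : Un p ((a : ℚ) + b - j) := by
      have := Un_add hu.neg Dv_p
      rw [e]
      convert this using 1; ring
    apply inv_sq_congr' hv hu
    rw [e]
    exact Dv_p.congr (by ring)
  have h4 := H2_top h3
  rw [h1] at h4
  exact (h4.sub h2).congr (by ring)

theorem H2_half_two (b : ℕ) : ∑ j ∈ range b, 1 / (2 * ((j : ℚ) + 1)) ^ 2 = 1 / 4 * H2 b := by
  unfold H2
  rw [Finset.mul_sum]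
  apply Finset.sum_congr rfl
  intro j _
  have : ((j : ℚ) + 1) ≠ 0 := by positivity
  field_simp
  norm_num

theorem sig_congr (h3 : 3 < p) : Cg p 1 (sig (ap p)) (5 / 2 * H2 (ap p)) := by
  have hodd : p % 2 = 1 := Nat.odd_iff.1 (hp.out.odd_of_ne_two (by omega))
  rcases p_mod_three h3 with h | h
  · obtain ⟨b, hb⟩ : ∃ b, p = 6 * b + 1 := ⟨p / 6, by omega⟩
    have ha : ap p = 2 * b := by unfold ap; rw [if_pos h]; omega
    rw [ha]
    have e1 : sig (2 * b) = 1 / 2 * H2 b := by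
      unfold sig
      have : H2 (2 * b) = ∑ i ∈ range (2 * b), 1 / ((i : ℚ) + 1) ^ 2 := rfl
      rw [this, ← Finset.sum_add_distrib, sum_range_two_mul]
      have e2 : 1 / 2 * H2 b = 2 * ∑ j ∈ range b, 1 / (2 * ((j : ℚ) + 1)) ^ 2 := by
        rw [H2_half_two]; ring
      rw [e2, Finset.mul_sum]
      apply Finset.sum_congr rfl
      intro j _
      have s1 : (-1 : ℚ) ^ (2 * b + 2 * j + 1) = -1 := by
        rw [show 2 * b + 2 * j + 1 = 2 * (b + j) + 1 by ring, pow_succ, pow_mul]; norm_num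
      have s2 : (-1 : ℚ) ^ (2 * b + (2 * j + 1) + 1) = 1 := by
        rw [show 2 * b + (2 * j + 1) + 1 = 2 * (b + j + 1) by ring, pow_mul]; norm_num
      rw [s1, s2]
      push_cast
      ring
    have e3 : H2 (2 * b) = ∑ j ∈ range b, 1 / (2 * (j : ℚ) + 1) ^ 2 + 1 / 4 * H2 b := by
      have : H2 (2 * b) = ∑ i ∈ range (2 * b), 1 / ((i : ℚ) + 1) ^ 2 := rfl
      rw [this, sum_range_two_mul, ← H2_half_two, ← Finset.sum_add_distrib]
      apply Finset.sum_congr rfl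
      intro j _
      push_cast
      ring
    have hh : p = 2 * (2 * b + b) + 1 := by omega
    have h4 := H2_half h3 hh
    rw [H2_add] at h4
    have h5 : Cg p 1 (∑ j ∈ range b, 1 / (2 * (j : ℚ) + 1) ^ 2)
        (∑ j ∈ range b, 1 / 4 * (1 / (((2 * b : ℕ) : ℚ) + b - j) ^ 2)) := by
      apply Cg.sum
      intro j hj
      rw [Finset.mem_range] at hj
      have hu : Un p (2 * (j : ℚ) + 1) := by
        have := Un_small (p := p) (n := 2 * j + 1) (by omega) (by omega)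
        push_cast at this
        exact this
      have hv0 : Un p (((2 * b : ℕ) : ℚ) + b - j) := by
        have := Un_small (p := p) (n := 2 * b + b - j) (by omega) (by omega)
        rw [Nat.cast_sub (by omega)] at this
        push_cast at this ⊢
        exact this
      have hv : Un p (2 * (((2 * b : ℕ) : ℚ) + b - j)) := (Un_two h3).mul hv0
      have hpq : (p : ℚ) = 2 * (2 * b + b) + 1 := by exact_mod_cast hh
      have h6 : Dv p 1 ((2 * (j : ℚ) + 1) + 2 * (((2 * b : ℕ) : ℚ) + b - j)) := by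
        refine Dv_p.congr ?_
        rw [hpq]; push_cast; ring
      refine (inv_sq_congr' hu hv h6).trans (Cg.of_eq ?_)
      have := hv0.ne_zero
      field_simp
      norm_num
    rw [← Finset.mul_sum] at h5
    have h7 : Dv p 1 (1 / 4 * (H2 (2 * b) + ∑ j ∈ range b, 1 / (((2 * b : ℕ) : ℚ) + b - j) ^ 2)) :=
      h4.smul (const_mem h3 2 0 1 (by norm_num))
    have h8 := (Dv.add h5 h7).smul (const_mem h3 0 0 (-2) (x := -2) (by norm_num))
    unfold Cg
    rw [e1]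
    refine h8.congr ?_
    linear_combination (2 : ℚ) * e3
  · obtain ⟨q, hq⟩ : ∃ q, p = 6 * q + 5 := ⟨p / 6, by omega⟩
    obtain ⟨b, hb⟩ : ∃ b, b = 2 * q + 1 := ⟨_, rfl⟩
    have ha : ap p = 2 * b + 1 := by unfold ap; rw [if_neg (by omega)]; omega
    rw [ha]
    have hodd1 : ∑ j ∈ range (b + 1), 1 / (2 * (j : ℚ) + 1) ^ 2 = H2 (2 * b + 1) - 1 / 4 * H2 b := by
      have : H2 (2 * b + 1) = ∑ i ∈ range (2 * b), 1 / ((i : ℚ) + 1) ^ 2 +
          1 / (2 * (b : ℚ) + 1) ^ 2 := by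
        unfold H2
        rw [Finset.sum_range_succ]; push_cast; ring
      rw [this, sum_range_two_mul, ← H2_half_two, Finset.sum_range_succ]
      have e4 : ∑ j ∈ range b, (1 / (((2 * j : ℕ) : ℚ) + 1) ^ 2 + 1 / (((2 * j + 1 : ℕ) : ℚ) + 1) ^ 2) =
          ∑ j ∈ range b, 1 / (2 * (j : ℚ) + 1) ^ 2 + ∑ j ∈ range b, 1 / (2 * ((j : ℚ) + 1)) ^ 2 := by
        rw [← Finset.sum_add_distrib]
        apply Finset.sum_congr rfl
        intro j _
        push_cast
        ring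
      rw [e4]
      ring
    have e1 : sig (2 * b + 1) = 2 * ∑ j ∈ range (b + 1), 1 / (2 * (j : ℚ) + 1) ^ 2 := by
      unfold sig
      have : H2 (2 * b + 1) = ∑ i ∈ range (2 * b + 1), 1 / ((i : ℚ) + 1) ^ 2 := rfl
      rw [this, ← Finset.sum_add_distrib, Finset.sum_range_succ, sum_range_two_mul,
        Finset.sum_range_succ, mul_add, Finset.mul_sum]
      congr 1
      · apply Finset.sum_congr rfl
        intro j _
        have s1 : (-1 : ℚ) ^ (2 * b + 1 + 2 * j + 1) = 1 := by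
          rw [show 2 * b + 1 + 2 * j + 1 = 2 * (b + j + 1) by ring, pow_mul]; norm_num
        have s2 : (-1 : ℚ) ^ (2 * b + 1 + (2 * j + 1) + 1) = -1 := by
          rw [show 2 * b + 1 + (2 * j + 1) + 1 = 2 * (b + j + 1) + 1 by ring, pow_succ, pow_mul]
          norm_num
        rw [s1, s2]
        push_cast
        ring
      · have s1 : (-1 : ℚ) ^ (2 * b + 1 + 2 * b + 1) = 1 := by
          rw [show 2 * b + 1 + 2 * b + 1 = 2 * (b + b + 1) by ring, pow_mul]; norm_num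
        rw [s1]
        push_cast
        ring
    have h4 := H2_refl h3 (a := 2 * b + 1) (b := b) (by omega)
    rw [e1, hodd1]
    have h5 := h4.smul (const_mem h3 1 0 (-1) (x := -1 / 2) (by norm_num))
    refine h5.congr ?_
    ring

/-! ### The predicted value -/

def gPsi (n m : ℚ) : ℚ :=
  1 / 16 * ((m + 1 / 3) * (m + 2 / 3) * (2 * n + 2 * m + 1) - (n + m) * (2 * n + m) * (1 + 2 * m - 2 * n))

def kap (p : ℕ) : ℚ := -120 * H2 (ap p)

def LL (p : ℕ) (n m : ℚ) : ℚ := Lx (AA p - 1) (6 * n) * Lx (RR p - 1) (6 * (n + m))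

def pred (p : ℕ) (n m : ℚ) : ℚ :=
  (chi p * (2 + 3 * m - 6 * n) + kap p * (p : ℚ) ^ 2 * gPsi n m) *
    ((1 + 2 * (p * m) - 2 * (p * n)) * LL p n m)

theorem kap_mem (h3 : 3 < p) : kap p ∈ ZP p := by
  unfold kap
  have h120 : (-120 : ℚ) ∈ ZP p := by
    have := int_mem (p := p) (-120)
    exact_mod_cast this
  exact mul_mem h120 (H2_mem (ap_lt h3))

theorem InA_LL (h3 : 3 < p) : InA p (LL p) := by
  obtain ⟨α, hα, hα'⟩ := AA_congr h3
  obtain ⟨β, hβ, hβ'⟩ := RR_congr h3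
  have c3 : (3 : ℚ) ∈ ZP p := by
    have := int_mem (p := p) 3
    exact_mod_cast this
  have c6 : (6 : ℚ) ∈ ZP p := by
    have := int_mem (p := p) 6
    exact_mod_cast this
  have c18 : (18 : ℚ) ∈ ZP p := by
    have := int_mem (p := p) 18
    exact_mod_cast this
  have c36 : (36 : ℚ) ∈ ZP p := by
    have := int_mem (p := p) 36
    exact_mod_cast this
  have hpm : (p : ℚ) ∈ ZP p := p_mem
  have h1 : InA p (fun n _ => Lx (AA p - 1) (6 * n)) := by
    refine ⟨1, one_mem _, 6 * α - 3 * (p * α ^ 2),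
      sub_mem (mul_mem c6 hα) (mul_mem c3 (mul_mem hpm (pow_mem hα 2))), 0, zero_mem _,
      18 * α ^ 2, mul_mem c18 (pow_mem hα 2), 0, zero_mem _, 0, zero_mem _, ?_⟩
    intro n _ m _
    refine Cg.of_eq ?_
    rw [hα']
    unfold Lx ev
    ring
  have h2 : InA p (fun n m => Lx (RR p - 1) (6 * (n + m))) := by
    refine ⟨1, one_mem _, 6 * β - 3 * (p * β ^ 2),
      sub_mem (mul_mem c6 hβ) (mul_mem c3 (mul_mem hpm (pow_mem hβ 2))), 6 * β - 3 * (p * β ^ 2),
      sub_mem (mul_mem c6 hβ) (mul_mem c3 (mul_mem hpm (pow_mem hβ 2))),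
      18 * β ^ 2, mul_mem c18 (pow_mem hβ 2), 36 * β ^ 2, mul_mem c36 (pow_mem hβ 2),
      18 * β ^ 2, mul_mem c18 (pow_mem hβ 2), ?_⟩
    intro n _ m _
    refine Cg.of_eq ?_
    rw [hβ']
    unfold Lx ev
    ring
  exact h1.mul h2

theorem InA_fLL (h3 : 3 < p) : InA p (fun n m => (1 + 2 * (p * m) - 2 * (p * n)) * LL p n m) := by
  have c2 : (2 : ℚ) ∈ ZP p := (Un_two h3).mem
  have h1 : InA p (fun n m => (1 + 2 * (p * m) - 2 * (p * n))) :=
    (InA_lin (one_mem _) (neg_mem c2) c2).congr (fun n _ m _ => by ring)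
  exact h1.mul (InA_LL h3)

theorem InC_pred (h3 : 3 < p) : InC p (pred p) := by
  have c2 : (2 : ℚ) ∈ ZP p := (Un_two h3).mem
  have c3 : (3 : ℚ) ∈ ZP p := (Un_three h3).mem
  have c6 : (-6 : ℚ) ∈ ZP p := by
    have := int_mem (p := p) (-6)
    exact_mod_cast this
  have hchi := chi_mem (p := p)
  have h1 := InC_lin_mul (mul_mem hchi c2) (mul_mem hchi c6) (mul_mem hchi c3) (InA_fLL h3)
  have hk := kap_mem h3
  have hq : ∀ i, (fun i => kap p / 16 * cv (2 / 9) (4 / 9) (13 / 9) (-2) (-1) 2 4 2 (-2) 0 i) i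
      ∈ ZP p := by
    intro i
    refine mul_mem ?_ ?_
    · rw [div_eq_mul_inv]
      exact mul_mem hk (const_mem h3 4 0 1 (by norm_num))
    · exact cv_mem (const_mem h3 0 2 2 (by norm_num)) (const_mem h3 0 2 4 (by norm_num))
        (const_mem h3 0 2 13 (by norm_num)) (const_mem h3 0 0 (-2) (by norm_num))
        (const_mem h3 0 0 (-1) (by norm_num)) (const_mem h3 0 0 2 (by norm_num))
        (const_mem h3 0 0 4 (by norm_num)) (const_mem h3 0 0 2 (by norm_num))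
        (const_mem h3 0 0 (-2) (by norm_num)) (zero_mem _) i
  have h2 := InC_cubic_mul hq (InA_fLL h3)
  refine (h1.add h2).congr (fun n _ m _ => ?_)
  unfold pred gPsi
  simp only [cv]
  ring

/-! ### Values on the line `n = 0` -/

theorem cp_ne (r : ℕ) : cp r ≠ 0 := by
  unfold cp
  have h1 := fne (3 * r)
  have h2 := fne r
  positivity

theorem tt_zero (r M : ℕ) :
    tt r 0 (M : ℚ) = cp (M + r) / cp M * ((2 * M + 1) / (2 * ((M + r : ℕ) : ℚ) + 1)) := by
  induction r with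
  | zero =>
    have h1 := cp_ne M
    have h2 : (2 * (M : ℚ) + 1) ≠ 0 := by positivity
    simp only [tt, Finset.range_zero, Finset.prod_empty, add_zero]
    field_simp
  | succ r ih =>
    rw [tt_succ, ih, ← add_assoc, cp_succ]
    have h1 := cp_ne M
    have h2 : (2 * ((M + r : ℕ) : ℚ) + 1) ≠ 0 := by positivity
    have h4 : (2 * ((M + r + 1 : ℕ) : ℚ) + 1) ≠ 0 := by positivity
    push_cast at h2 h4 ⊢
    have a1 : (1 / 3 + (M : ℚ) + r) = (3 * (M + r) + 1) / 3 := by ring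
    have a2 : (2 / 3 + (M : ℚ) + r) = (3 * (M + r) + 2) / 3 := by ring
    have a3 : (1 / 2 + (0 : ℚ) + M + r) = (2 * (M + r) + 1) / 2 := by ring
    have a4 : (1 + (0 : ℚ) + M + r) = (M + r) + 1 := by ring
    have a5 : (1 + 2 * (0 : ℚ) + M + r) = (M + r) + 1 := by ring
    have a6 : (3 / 2 + (M : ℚ) - 0 + r) = (2 * ((M : ℚ) + r + 1) + 1) / 2 := by ring
    rw [a1, a2, a3, a4, a5, a6]
    have h5 : ((M : ℚ) + r + 1) ≠ 0 := by positivity
    field_simp
    ring

theorem SG_zero (L M : ℕ) :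
    SG L 0 (M : ℚ) = (1 + 2 * M) / cp M * (VV (M + L) - VV M) := by
  induction L with
  | zero => simp [SG]
  | succ L ih =>
    unfold SG at *
    rw [Finset.sum_range_succ, ih, tt_zero, ← add_assoc]
    have e : VV (M + L + 1) = VV (M + L) + (3 * ((M + L : ℕ) : ℚ) + 2) / (2 * ((M + L : ℕ) : ℚ) + 1) *
        cp (M + L) := by
      unfold VV; rw [Finset.sum_range_succ]
    rw [e]
    have h1 := cp_ne M
    have h2 : (2 * ((M + L : ℕ) : ℚ) + 1) ≠ 0 := by positivity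
    push_cast at h2 ⊢
    field_simp
    ring

theorem RR_pow (h3 : 3 < p) (m : ℕ) : RR p ^ (6 * m) = 27 ^ ((p - 1) * m) := by
  rw [show 6 * m = 2 * (3 * m) by ring, pow_mul, RR_sq h3, ← pow_mul,
    show (27 : ℚ) = 3 ^ 3 by norm_num, ← pow_mul]
  congr 1
  ring

theorem VV_step (m : ℕ) : VV (m + 1) = VV m + (3 * (m : ℚ) + 2) / (2 * m + 1) * cp m := by
  unfold VV; rw [Finset.sum_range_succ]

theorem R_zero_gen (h3 : 3 < p) {h : ℕ} (hh : p = 2 * h + 1) {m : ℕ} (hm : m + 1 < p)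
    (hu : ∀ l < m + 1, Un p (2 * (l : ℚ) + 1)) (hcp : Un p (cp m)) :
    Dv p 3 (PolG p h 0 m - pred p 0 m) := by
  have hne : (1 + 2 * (m : ℚ) - 2 * 0) ≠ 0 := by
    have : (1 + 2 * (m : ℚ) - 2 * 0) = 2 * m + 1 := by ring
    rw [this]; positivity
  have e0 : (p : ℚ) * (m : ℚ) = ((p * m : ℕ) : ℚ) := by push_cast; ring
  have e1 : PolG p h 0 m = (1 + 2 * (m : ℚ)) * ((1 + 2 * (p * m)) * ((cp (p * m))⁻¹ *
      (VV (p * (m + 1)) - VV (p * m)))) := by
    rw [PolG_eq h3 hh hne, show (p : ℚ) * 0 = 0 by ring, e0, SG_zero]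
    rw [show p * m + p = p * (m + 1) by ring]
    push_cast
    rw [div_eq_mul_inv]
    ring
  have hmm : (m : ℚ) ∈ ZP p := nat_mem m
  have hpm : (p : ℚ) ∈ ZP p := p_mem
  have c2 : (2 : ℚ) ∈ ZP p := (Un_two h3).mem
  have hum : Un p (2 * (m : ℚ) + 1) := hu m (by omega)
  -- congruence for the difference
  have hD : Cg p 3 (VV (p * (m + 1)) - VV (p * m))
      (cp m * (chi p * ((3 * m + 2) / (2 * m + 1)) - 3 * (p : ℚ) ^ 2 * ((m + 2 / 9) * sig (ap p)))) := by
    have g1 := VV_congr h3 hh (M := m + 1) (by omega) hu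
    have g2 := VV_congr h3 hh (M := m) (by omega) (fun l hl => hu l (by omega))
    refine (g1.sub g2).trans (Cg.of_eq ?_)
    rw [VV_step, cp_succ]
    have h0 : ((m : ℚ) + 1) ≠ 0 := by positivity
    have h1 := hum.ne_zero
    push_cast
    field_simp
    ring
  -- replace sig
  have hsig : Cg p 3 (3 * (p : ℚ) ^ 2 * ((m + 2 / 9) * sig (ap p)))
      (3 * (p : ℚ) ^ 2 * ((m + 2 / 9) * (5 / 2 * H2 (ap p)))) := by
    have h29 : ((m : ℚ) + 2 / 9) ∈ ZP p := add_mem hmm (const_mem h3 0 2 2 (by norm_num))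
    have := Dv.mul (Dv_pow (p := p) 2) (Dv.smul (mul_mem (Un_three h3).mem h29) (sig_congr h3))
    exact this.congr (by ring)
  have hD2 : Cg p 3 (VV (p * (m + 1)) - VV (p * m))
      (cp m * (chi p * ((3 * m + 2) / (2 * m + 1)) -
        3 * (p : ℚ) ^ 2 * ((m + 2 / 9) * (5 / 2 * H2 (ap p))))) :=
    hD.trans (Cg.smul hcp.mem ((Cg.refl _).sub hsig))
  -- the factor cp (p m)
  obtain ⟨w, hw, hwe⟩ := (cp_block h3 m).inv (by norm_num)
  have hRR := RR_pow h3 (p := p) m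
  have hRu := (Un_RR (p := p) h3).pow (6 * m)
  have hci : Cg p 3 ((cp (p * m))⁻¹) ((cp m)⁻¹ * RR p ^ (6 * m)) := by
    refine ⟨(cp m)⁻¹ * RR p ^ (6 * m) * w, mul_mem (mul_mem hcp.inv.mem hRu.mem) hw, ?_⟩
    rw [hwe, hRR, inv_div, div_eq_mul_inv]
    ring
  have hciu : (cp (p * m))⁻¹ ∈ ZP p := hci.mem (mul_mem hcp.inv.mem hRu.mem)
  have hLx := Lx_zpow h3 (RR_congr (p := p) h3) (6 * (m : ℤ))
  have hLx' : Cg p 3 (RR p ^ (6 * m)) (Lx (RR p - 1) (6 * ((0 : ℚ) + m))) := by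
    refine (Cg.trans hLx (Cg.of_eq ?_)).symm.trans (Cg.of_eq ?_)
    · rw [add_sub_cancel]
      have : (6 * (m : ℤ)) = ((6 * m : ℕ) : ℤ) := by push_cast; ring
      rw [this, zpow_natCast]
    · congr 1
      push_cast
      ring
  -- combine
  have hval : (chi p * ((3 * m + 2) / (2 * m + 1)) -
        3 * (p : ℚ) ^ 2 * ((m + 2 / 9) * (5 / 2 * H2 (ap p)))) ∈ ZP p := by
    have c3 : (3 : ℚ) ∈ ZP p := (Un_three h3).mem
    refine sub_mem (mul_mem chi_mem (mem_div_of_Un (add_mem (mul_mem c3 hmm) c2) hum)) ?_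
    exact mul_mem (mul_mem c3 (pow_mem hpm 2)) (mul_mem (add_mem hmm (const_mem h3 0 2 2 (by norm_num)))
      (mul_mem (const_mem h3 1 0 5 (by norm_num)) (H2_mem (ap_lt h3))))
  have k1 := Cg.mul hci hD2 (mul_mem hcp.inv.mem hRu.mem) (hD2.mem (mul_mem hcp.mem hval))
  have k2 : Cg p 3 ((cp (p * m))⁻¹ * (VV (p * (m + 1)) - VV (p * m)))
      ((chi p * ((3 * m + 2) / (2 * m + 1)) -
        3 * (p : ℚ) ^ 2 * ((m + 2 / 9) * (5 / 2 * H2 (ap p)))) * Lx (RR p - 1) (6 * ((0 : ℚ) + m))) := by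
    refine k1.trans ((Cg.of_eq ?_).trans (Cg.smul hval hLx'))
    have := hcp.ne_zero
    field_simp
  have hw2 : (1 + 2 * (m : ℚ)) * (1 + 2 * (p * m)) ∈ ZP p :=
    mul_mem (add_mem (one_mem _) (mul_mem c2 hmm)) (add_mem (one_mem _) (mul_mem c2 (mul_mem hpm hmm)))
  have k3 := Cg.smul hw2 k2
  rw [e1]
  refine Dv.congr k3 ?_
  unfold pred kap LL gPsi
  have h1 := hum.ne_zero
  have e5 : Lx (AA p - 1) (6 * 0) = 1 := by unfold Lx; ring
  rw [e5]
  generalize Lx (RR p - 1) (6 * ((0 : ℚ) + m)) = Z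
  field_simp
  ring

end MP18afd0
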