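import Mathlib
import Pool.Agent.Work.MP_18afd0_nt.Fam
import Pool.Agent.Work.MP_18afd0_nt.ZeroD

/-!
# Closed forms on the line `Y = -2 X`, and the corresponding nodes
-/

namespace MP18afd0

open Finset

theorem nz (a : ℤ) (ha : a ≠ 0) (c : ℚ) {x : ℚ} (hx : c * x = a) : x ≠ 0 := by
  rintro rfl
  rw [mul_zero] at hx
  exact ha (by exact_mod_cast hx.symm)

theorem IIa (k : ℕ) : SG (2 * k + 1) (1 / 3 + k) (-2 * (1 / 3 + k)) =
    -2 * (6 * k + 1) * (-64 / 27) ^ k := by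
  induction k with
  | zero => norm_num [SG, tt, Finset.sum_range_succ, Finset.prod_range_succ]
  | succ k ih =>
    have h := famII_step (1 / 3 + k) (2 * k) (by positivity)
      (fun i => nz (3 * (i : ℤ) - 3 * k + 2) (by omega) 3 (by push_cast; ring))
      (fun i _ => nz (2 * (i : ℤ) - 6 * k + 1) (by omega) 2 (by push_cast; ring))
      (fun i _ => nz (2 * (i : ℤ) - 6 * k - 1) (by omega) 2 (by push_cast; ring))
      (nz (- 6 * (k : ℤ) - 1) (by omega) 2 (by push_cast; ring))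
      (by
        have : (2 / 3 - 2 * (1 / 3 + (k : ℚ)) + ((2 * k : ℕ) : ℚ)) = 0 := by push_cast; ring
        rw [this]; ring)
    have e1 : 2 * (k + 1) + 1 = 2 * k + 1 + 2 := by ring
    have e2 : (1 / 3 + ((k + 1 : ℕ) : ℚ)) = 1 / 3 + (k : ℚ) + 1 := by push_cast; ring
    rw [e1, e2, h, ih]
    have n1 : (1 - 6 * (1 / 3 + (k : ℚ))) = -(6 * (k : ℚ) + 1) := by ring
    have n2 : (6 * (k : ℚ) + 1) ≠ 0 := by positivity
    rw [n1]
    rw [pow_succ]
    push_cast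
    field_simp
    ring

theorem IIb (k : ℕ) : SG (2 * k + 2) (2 / 3 + k) (-2 * (2 / 3 + k)) =
    -8 / 3 * (6 * k + 3) * (-64 / 27) ^ k := by
  induction k with
  | zero => norm_num [SG, tt, Finset.sum_range_succ, Finset.prod_range_succ]
  | succ k ih =>
    have h := famII_step (2 / 3 + k) (2 * k + 1) (by positivity)
      (fun i => nz (3 * (i : ℤ) - 3 * k + 1) (by omega) 3 (by push_cast; ring))
      (fun i _ => nz (2 * (i : ℤ) - 6 * k - 1) (by omega) 2 (by push_cast; ring))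
      (fun i _ => nz (2 * (i : ℤ) - 6 * k - 3) (by omega) 2 (by push_cast; ring))
      (nz (- 6 * (k : ℤ) - 3) (by omega) 2 (by push_cast; ring))
      (by
        have : (1 / 3 - 2 * (2 / 3 + (k : ℚ)) + ((2 * k + 1 : ℕ) : ℚ)) = 0 := by push_cast; ring
        rw [this]; ring)
    have e1 : 2 * (k + 1) + 2 = 2 * k + 1 + 1 + 2 := by ring
    have e2 : (2 / 3 + ((k + 1 : ℕ) : ℚ)) = 2 / 3 + (k : ℚ) + 1 := by push_cast; ring
    rw [e1, e2, h, show 2 * k + 1 + 1 = 2 * k + 2 by ring, ih]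
    have n1 : (1 - 6 * (2 / 3 + (k : ℚ))) = -(6 * (k : ℚ) + 3) := by ring
    have n2 : (6 * (k : ℚ) + 3) ≠ 0 := by positivity
    rw [n1]
    rw [pow_succ]
    push_cast
    field_simp
    ring

theorem IIc (k : ℕ) : SG (2 * k + 1) (1 / 2 + k) (-2 * (1 / 2 + k)) =
    -2 * (6 * k + 2) * (-64 / 27) ^ k := by
  induction k with
  | zero => norm_num [SG, tt, Finset.sum_range_succ, Finset.prod_range_succ]
  | succ k ih =>
    have h := famII_step (1 / 2 + k) (2 * k) (by positivity)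
      (fun i => nz (2 * (i : ℤ) - 2 * k + 1) (by omega) 2 (by push_cast; ring))
      (fun i hi => nz ((i : ℤ) - 3 * k) (by omega) 1 (by push_cast; ring))
      (fun i hi => nz ((i : ℤ) - 3 * k - 1) (by omega) 1 (by push_cast; ring))
      (nz (- 3 * (k : ℤ) - 1) (by omega) 1 (by push_cast; ring))
      (by
        rcases Nat.eq_zero_or_pos k with rfl | hk
        · norm_num
        · have : tt (2 * k) (1 / 2 + (k : ℚ)) (-2 * (1 / 2 + (k : ℚ))) = 0 := by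
            apply tt_vanish (i := k) (by omega)
            have : (1 / 2 + (1 / 2 + (k : ℚ)) + (-2 * (1 / 2 + (k : ℚ))) + (k : ℚ)) = 0 := by ring
            rw [this]; ring
          rw [this]; ring)
    have e1 : 2 * (k + 1) + 1 = 2 * k + 1 + 2 := by ring
    have e2 : (1 / 2 + ((k + 1 : ℕ) : ℚ)) = 1 / 2 + (k : ℚ) + 1 := by push_cast; ring
    rw [e1, e2, h, ih]
    have n1 : (1 - 6 * (1 / 2 + (k : ℚ))) = -(6 * (k : ℚ) + 2) := by ring
    have n2 : (6 * (k : ℚ) + 2) ≠ 0 := by positivity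
    rw [n1]
    rw [pow_succ]
    push_cast
    field_simp
    ring

theorem IId (k : ℕ) : SG (2 * k + 3) (7 / 6 + k) (-2 * (7 / 6 + k)) =
    64 / 9 * (6 * k + 6) * (-64 / 27) ^ k := by
  induction k with
  | zero => norm_num [SG, tt, Finset.sum_range_succ, Finset.prod_range_succ]
  | succ k ih =>
    have h := famII_step (7 / 6 + k) (2 * k + 2) (by positivity)
      (fun i => nz (6 * (i : ℤ) - 6 * k - 1) (by omega) 6 (by push_cast; ring))
      (fun i hi => nz ((i : ℤ) - 3 * k - 2) (by omega) 1 (by push_cast; ring))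
      (fun i hi => nz ((i : ℤ) - 3 * k - 3) (by omega) 1 (by push_cast; ring))
      (nz (- 3 * (k : ℤ) - 3) (by omega) 1 (by push_cast; ring))
      (by
        have : (1 / 3 - 2 * (7 / 6 + (k : ℚ)) + ((2 * k + 2 : ℕ) : ℚ)) = 0 := by push_cast; ring
        rw [this]; ring)
    have e1 : 2 * (k + 1) + 3 = 2 * k + 2 + 1 + 2 := by ring
    have e2 : (7 / 6 + ((k + 1 : ℕ) : ℚ)) = 7 / 6 + (k : ℚ) + 1 := by push_cast; ring
    rw [e1, e2, h, show 2 * k + 2 + 1 = 2 * k + 3 by ring, ih]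
    have n1 : (1 - 6 * (7 / 6 + (k : ℚ))) = -(6 * (k : ℚ) + 6) := by ring
    have n2 : (6 * (k : ℚ) + 6) ≠ 0 := by positivity
    rw [n1]
    rw [pow_succ]
    push_cast
    field_simp
    ring

theorem IIe (k : ℕ) : SG (2 * k + 2) (5 / 6 + k) (-2 * (5 / 6 + k)) =
    -16 / 3 * (6 * k + 4) * (-64 / 27) ^ k := by
  induction k with
  | zero => norm_num [SG, tt, Finset.sum_range_succ, Finset.prod_range_succ]
  | succ k ih =>
    have h := famII_step (5 / 6 + k) (2 * k + 1) (by positivity)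
      (fun i => nz (6 * (i : ℤ) - 6 * k + 1) (by omega) 6 (by push_cast; ring))
      (fun i hi => nz ((i : ℤ) - 3 * k - 1) (by omega) 1 (by push_cast; ring))
      (fun i hi => nz ((i : ℤ) - 3 * k - 2) (by omega) 1 (by push_cast; ring))
      (nz (- 3 * (k : ℤ) - 2) (by omega) 1 (by push_cast; ring))
      (by
        have : (2 / 3 - 2 * (5 / 6 + (k : ℚ)) + ((2 * k + 1 : ℕ) : ℚ)) = 0 := by push_cast; ring
        rw [this]; ring)
    have e1 : 2 * (k + 1) + 2 = 2 * k + 1 + 1 + 2 := by ring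
    have e2 : (5 / 6 + ((k + 1 : ℕ) : ℚ)) = 5 / 6 + (k : ℚ) + 1 := by push_cast; ring
    rw [e1, e2, h, show 2 * k + 1 + 1 = 2 * k + 2 by ring, ih]
    have n1 : (1 - 6 * (5 / 6 + (k : ℚ))) = -(6 * (k : ℚ) + 4) := by ring
    have n2 : (6 * (k : ℚ) + 4) ≠ 0 := by positivity
    rw [n1]
    rw [pow_succ]
    push_cast
    field_simp
    ring

variable {p : ℕ} [hp : Fact p.Prime]

/-- node `(1/3, -2/3)` -/
theorem SG_n1 (h3 : 3 < p) : SG p (p * (1 / 3)) (p * (-2 / 3)) =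
    -2 * chi p * (2 * p - 1) * (4 / 3) ^ (p - 1) := by
  have hodd : p % 2 = 1 := Nat.odd_iff.1 (hp.out.odd_of_ne_two (by omega))
  rcases p_mod_three h3 with h | h
  · obtain ⟨k, hk⟩ : ∃ k, p = 3 * (2 * k) + 1 := ⟨p / 6, by omega⟩
    have hq : (p : ℚ) = 3 * (2 * k) + 1 := by exact_mod_cast hk
    have e1 : (p : ℚ) * (1 / 3) = 1 / 3 + ((2 * k : ℕ) : ℚ) := by rw [hq]; push_cast; ring
    have e2 : (p : ℚ) * (-2 / 3) = -2 * (1 / 3 + ((2 * k : ℕ) : ℚ)) := by rw [hq]; push_cast; ring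
    rw [e1, e2, SG_extend (R := 2 * (2 * k) + 1) (i := 2 * (2 * k)) (by omega) (by omega) (by
      have : (2 / 3 + -2 * (1 / 3 + ((2 * k : ℕ) : ℚ)) + ((2 * (2 * k) : ℕ) : ℚ)) = 0 := by
        push_cast; ring
      rw [this]; ring), IIa, chi_one h]
    have e3 : p - 1 = 3 * (2 * k) := by omega
    have e4 : ((-64 / 27 : ℚ)) ^ (2 * k) = ((4 / 3 : ℚ) ^ 3) ^ (2 * k) := by
      rw [pow_mul, pow_mul]; norm_num
    rw [e4, hq, e3, pow_mul (4 / 3 : ℚ) 3 (2 * k)]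
    push_cast
    ring
  · obtain ⟨k, hk⟩ : ∃ k, p = 3 * (2 * k + 1) + 2 := ⟨p / 6, by omega⟩
    have hq : (p : ℚ) = 3 * (2 * k + 1) + 2 := by exact_mod_cast hk
    have e1 : (p : ℚ) * (1 / 3) = 2 / 3 + ((2 * k + 1 : ℕ) : ℚ) := by rw [hq]; push_cast; ring
    have e2 : (p : ℚ) * (-2 / 3) = -2 * (2 / 3 + ((2 * k + 1 : ℕ) : ℚ)) := by
      rw [hq]; push_cast; ring
    rw [e1, e2, SG_extend (R := 2 * (2 * k + 1) + 2) (i := 2 * (2 * k + 1) + 1) (by omega)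
      (by omega) (by
      have : (1 / 3 + -2 * (2 / 3 + ((2 * k + 1 : ℕ) : ℚ)) + ((2 * (2 * k + 1) + 1 : ℕ) : ℚ)) = 0 := by
        push_cast; ring
      rw [this]; ring), IIb, chi_two h]
    have e3 : p - 1 = 3 * (2 * k + 1) + 1 := by omega
    have e4 : ((-64 / 27 : ℚ)) ^ (2 * k + 1) = -((4 / 3 : ℚ) ^ 3) ^ (2 * k + 1) := by
      rw [pow_succ, pow_succ, pow_mul, pow_mul]; norm_num
    rw [e4, hq, e3, pow_succ (4 / 3 : ℚ) (3 * (2 * k + 1)), pow_mul (4 / 3 : ℚ) 3 (2 * k + 1)]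
    push_cast
    ring

/-- node `(1/2, -1)` -/
theorem SG_n2 {h : ℕ} (hh : p = 2 * h + 1) : SG p (p * (1 / 2)) (p * (-1)) =
    -2 * (3 * p - 1) * (-64 / 27) ^ h := by
  have hq : (p : ℚ) = 2 * h + 1 := by exact_mod_cast hh
  have e1 : (p : ℚ) * (1 / 2) = 1 / 2 + (h : ℚ) := by rw [hq]; ring
  have e2 : (p : ℚ) * (-1) = -2 * (1 / 2 + (h : ℚ)) := by rw [hq]; ring
  have e3 := IIc h
  rw [e1, e2]
  conv_lhs => rw [hh]
  rw [e3, hq]
  ring

/-- node `(1/6, -1/3)` -/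
theorem SG_n3 (h3 : 3 < p) {h : ℕ} (hh : p = 2 * h + 1) : SG h (p * (1 / 6)) (p * (-1 / 3)) =
    3 * (1 - p) * (-4 / 3) ^ h := by
  rcases p_mod_three h3 with h' | h'
  · obtain ⟨k, hk⟩ : ∃ k, p = 6 * (k + 1) + 1 := ⟨p / 6 - 1, by omega⟩
    have hq : (p : ℚ) = 6 * (k + 1) + 1 := by exact_mod_cast hk
    have e1 : (p : ℚ) * (1 / 6) = 7 / 6 + (k : ℚ) := by rw [hq]; ring
    have e2 : (p : ℚ) * (-1 / 3) = -2 * (7 / 6 + (k : ℚ)) := by rw [hq]; ring
    rw [e1, e2, SG_extend (R := 2 * k + 3) (i := 2 * k + 2) (by omega) (by omega) (by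
      have : (1 / 3 + -2 * (7 / 6 + (k : ℚ)) + ((2 * k + 2 : ℕ) : ℚ)) = 0 := by
        push_cast; ring
      rw [this]; ring), IId]
    have e3 : h = 3 * k + 3 := by omega
    rw [e3, pow_add, pow_mul, hq]
    norm_num
    ring
  · obtain ⟨k, hk⟩ : ∃ k, p = 6 * k + 5 := ⟨p / 6, by omega⟩
    have hq : (p : ℚ) = 6 * k + 5 := by exact_mod_cast hk
    have e1 : (p : ℚ) * (1 / 6) = 5 / 6 + (k : ℚ) := by rw [hq]; ring
    have e2 : (p : ℚ) * (-1 / 3) = -2 * (5 / 6 + (k : ℚ)) := by rw [hq]; ring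
    rw [e1, e2, SG_extend (R := 2 * k + 2) (i := 2 * k + 1) (by omega) (by omega) (by
      have : (2 / 3 + -2 * (5 / 6 + (k : ℚ)) + ((2 * k + 1 : ℕ) : ℚ)) = 0 := by
        push_cast; ring
      rw [this]; ring), IIe]
    have e3 : h = 3 * k + 2 := by omega
    rw [e3, pow_add, pow_mul, hq]
    norm_num
    ring

theorem LL_cg (h3 : 3 < p) {n m : ℚ} (a b : ℤ) (ha : 6 * n = a) (hb : 6 * (n + m) = b) :
    Cg p 3 (LL p n m) (AA p ^ a * RR p ^ b) := by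
  have h1 := Lx_zpow h3 (AA_congr (p := p) h3) a
  have h2 := Lx_zpow h3 (RR_congr (p := p) h3) b
  rw [add_sub_cancel] at h1 h2
  unfold LL
  rw [ha, hb]
  apply Cg.mul h1 h2
  · exact h1.mem' (Lx_mem h3 (AA_congr (p := p) h3).mem (int_mem a))
  · exact Lx_mem h3 (RR_congr (p := p) h3).mem (int_mem b)

theorem pred_cg (h3 : 3 < p) {n m : ℚ} (a b : ℤ) (ha : 6 * n = a) (hb : 6 * (n + m) = b)
    (hg : gPsi n m = 0) (hn : n ∈ ZP p) (hm : m ∈ ZP p) :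
    Cg p 3 (pred p n m) (chi p * (2 + 3 * m - 6 * n) * ((1 + 2 * (p * m) - 2 * (p * n)) *
      (AA p ^ a * RR p ^ b))) := by
  have h1 := LL_cg h3 a b ha hb
  have c2 : (2 : ℚ) ∈ ZP p := (Un_two h3).mem
  have c3 : (3 : ℚ) ∈ ZP p := (Un_three h3).mem
  have c6 : (6 : ℚ) ∈ ZP p := by
    have := int_mem (p := p) 6
    exact_mod_cast this
  have hpm : (p : ℚ) ∈ ZP p := p_mem
  have hA : chi p * (2 + 3 * m - 6 * n) ∈ ZP p :=
    mul_mem chi_mem (sub_mem (add_mem c2 (mul_mem c3 hm)) (mul_mem c6 hn))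
  have hB : (1 + 2 * (p * m) - 2 * (p * n)) ∈ ZP p :=
    sub_mem (add_mem (one_mem _) (mul_mem c2 (mul_mem hpm hm))) (mul_mem c2 (mul_mem hpm hn))
  have h2 := Cg.smul hA (Cg.smul hB h1)
  refine (Cg.of_eq ?_).trans h2
  unfold pred
  rw [hg]
  ring

theorem AA_eq {h : ℕ} (hh : p = 2 * h + 1) : AA p = 4 ^ h := by
  unfold AA
  have : p - 1 = 2 * h := by omega
  rw [this, pow_mul]
  norm_num

theorem RR_eq {h : ℕ} (hh : p = 2 * h + 1) : RR p = chi p * (-3) ^ h := by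
  unfold RR
  have : p / 2 = h := by omega
  rw [this]

theorem chi_inv (h3 : 3 < p) : (chi p)⁻¹ = chi p := by
  have := chi_sq h3
  have h0 : chi p ≠ 0 := by
    intro h; rw [h] at this; norm_num at this
  field_simp
  rw [sq]
  exact this.symm

theorem R_n1 (h3 : 3 < p) {h : ℕ} (hh : p = 2 * h + 1) :
    Dv p 3 (PolG p h (1 / 3) (-2 / 3) - pred p (1 / 3) (-2 / 3)) := by
  have h1 := pred_cg h3 (n := 1 / 3) (m := -2 / 3) 2 (-2) (by norm_num) (by norm_num)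
    (by unfold gPsi; norm_num) (third_mem h3) (const_mem h3 0 1 (-2) (by norm_num))
  have h2 : PolG p h (1 / 3) (-2 / 3) = chi p * (2 + 3 * (-2 / 3) - 6 * (1 / 3)) *
      ((1 + 2 * (p * (-2 / 3)) - 2 * (p * (1 / 3))) * (AA p ^ (2 : ℤ) * RR p ^ (-2 : ℤ))) := by
    rw [PolG_eq h3 hh (by norm_num), SG_n1 h3]
    have e1 : RR p ^ (-2 : ℤ) = ((3 : ℚ) ^ (p - 1))⁻¹ := by
      rw [← RR_sq h3, zpow_neg]; norm_cast
    have e2 : AA p ^ (2 : ℤ) = 4 ^ (p - 1) := by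
      have : AA p ^ (2 : ℤ) = AA p ^ (2 : ℕ) := by norm_cast
      rw [this]
      unfold AA
      rw [← pow_mul, mul_comm, pow_mul]
      norm_num
    rw [e1, e2, div_pow]
    have : ((3 : ℚ) ^ (p - 1)) ≠ 0 := by positivity
    field_simp
    ring
  rw [h2]
  exact h1.symm

theorem R_n2 (h3 : 3 < p) {h : ℕ} (hh : p = 2 * h + 1) :
    Dv p 3 (PolG p h (1 / 2) (-1) - pred p (1 / 2) (-1)) := by
  have h1 := pred_cg h3 (n := 1 / 2) (m := -1) 3 (-3) (by norm_num) (by norm_num)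
    (by unfold gPsi; norm_num) (half_mem h3) (const_mem h3 0 0 (-1) (by norm_num))
  have h2 : PolG p h (1 / 2) (-1) = chi p * (2 + 3 * (-1) - 6 * (1 / 2)) *
      ((1 + 2 * (p * (-1)) - 2 * (p * (1 / 2))) * (AA p ^ (3 : ℤ) * RR p ^ (-3 : ℤ))) := by
    rw [PolG_eq h3 hh (by norm_num), SG_n2 hh]
    have e1 : RR p ^ (-3 : ℤ) = chi p * ((-27 : ℚ) ^ h)⁻¹ := by
      rw [zpow_neg]
      have : RR p ^ (3 : ℤ) = RR p ^ (3 : ℕ) := by norm_cast
      rw [this, RR_eq hh, mul_pow, ← pow_mul, mul_comm h 3, pow_mul, mul_inv]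
      have e3 : (chi p) ^ 3 = chi p := by
        rw [pow_succ, sq, chi_sq h3, one_mul]
      rw [e3, chi_inv h3]
      norm_num
    have e2 : AA p ^ (3 : ℤ) = 64 ^ h := by
      have : AA p ^ (3 : ℤ) = AA p ^ (3 : ℕ) := by norm_cast
      rw [this, AA_eq hh, ← pow_mul, mul_comm, pow_mul]
      norm_num
    rw [e1, e2]
    have e4 : ((-64 / 27 : ℚ)) ^ h = 64 ^ h * ((-27 : ℚ) ^ h)⁻¹ := by
      rw [← div_eq_mul_inv, ← div_pow]; norm_num
    rw [e4]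
    have e5 := chi_sq h3
    linear_combination (-4 : ℚ) * (3 * (p : ℚ) - 1) * (64 ^ h * ((-27 : ℚ) ^ h)⁻¹) * e5
  rw [h2]
  exact h1.symm

/-! ### The function `W` on the line `m = -1/3` -/

def TT (p : ℕ) (n m : ℚ) : ℚ :=
  (3 * chi p - kap p * (p : ℚ) ^ 2 / 16 * ((n - 1 / 3) * (2 * n - 1 / 3))) *
    ((1 + 2 * (p * m) - 2 * (p * n)) * LL p n m)

def Wf (p h : ℕ) (n m : ℚ) : ℚ :=
  (∑ r ∈ range h, wt p r n m * tt r (p * n) (p * m)) - TT p n m

theorem InA_TT (h3 : 3 < p) : InA p (TT p) := by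
  have hk := kap_mem h3
  have hpm : (p : ℚ) ∈ ZP p := p_mem
  have c3 : (3 : ℚ) ∈ ZP p := (Un_three h3).mem
  have h16 : kap p / 16 ∈ ZP p := by
    rw [div_eq_mul_inv]
    exact mul_mem hk (const_mem h3 4 0 1 (by norm_num))
  have h8 : kap p / 8 ∈ ZP p := by
    rw [div_eq_mul_inv]
    exact mul_mem hk (const_mem h3 3 0 1 (by norm_num))
  have h144 : kap p / 144 ∈ ZP p := by
    rw [div_eq_mul_inv]
    exact mul_mem hk (const_mem h3 4 2 1 (by norm_num))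
  have h1 : InA p (fun n _ => (3 * chi p - kap p * (p : ℚ) ^ 2 / 16 *
      ((n - 1 / 3) * (2 * n - 1 / 3)))) := by
    refine ⟨3 * chi p - p ^ 2 * (kap p / 144), sub_mem (mul_mem c3 chi_mem)
      (mul_mem (pow_mem hpm 2) h144), p * (kap p / 16), mul_mem hpm h16, 0, zero_mem _,
      -(kap p / 8), neg_mem h8, 0, zero_mem _, 0, zero_mem _, ?_⟩
    intro n _ m _
    refine Cg.of_eq ?_
    unfold ev
    ring
  exact h1.mul (InA_fLL h3)

theorem InA_Wf (h3 : 3 < p) {h : ℕ} (hh : p = 2 * h + 1) : InA p (Wf p h) :=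
  (InA_sum1 h3 hh).sub (InA_TT h3)

theorem R_line (h : ℕ) (n : ℚ) : PolG p h n (-1 / 3) - pred p n (-1 / 3) =
    (1 / 3 - 2 * n) * Wf p h n (-1 / 3) := by
  unfold PolG pred Wf TT gPsi
  have e : (1 / 3 + (-1 / 3 : ℚ)) = 0 := by norm_num
  rw [e]
  ring

theorem W_node (h3 : 3 < p) {h : ℕ} (hh : p = 2 * h + 1) : Dv p 3 (Wf p h (1 / 6) (-1 / 3)) := by
  have h1 := LL_cg h3 (n := 1 / 6) (m := -1 / 3) 1 (-1) (by norm_num) (by norm_num)
  have e1 : ∑ r ∈ range h, wt p r (1 / 6) (-1 / 3) * tt r (p * (1 / 6)) (p * (-1 / 3)) =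
      SG h (p * (1 / 6)) (p * (-1 / 3)) := rfl
  unfold Wf
  rw [e1, SG_n3 h3 hh]
  have hpm : (p : ℚ) ∈ ZP p := p_mem
  have c3 : (3 : ℚ) ∈ ZP p := (Un_three h3).mem
  have hA : 3 * chi p * (1 - (p : ℚ)) ∈ ZP p :=
    mul_mem (mul_mem c3 chi_mem) (sub_mem (one_mem _) hpm)
  have h2 := (Cg.smul hA h1).symm
  refine Dv.congr h2 ?_
  unfold TT
  have e2 : RR p ^ (-1 : ℤ) = chi p * ((-3 : ℚ) ^ h)⁻¹ := by
    rw [zpow_neg, zpow_one, RR_eq hh, mul_inv, chi_inv h3]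
  have e3 : AA p ^ (1 : ℤ) = 4 ^ h := by rw [zpow_one, AA_eq hh]
  have e4 : ((-4 / 3 : ℚ)) ^ h = 4 ^ h * ((-3 : ℚ) ^ h)⁻¹ := by
    rw [← div_eq_mul_inv, ← div_pow]; norm_num
  rw [e2, e3, e4]
  have e5 := chi_sq h3
  linear_combination (3 * (1 - (p : ℚ)) * (4 ^ h * ((-3 : ℚ) ^ h)⁻¹)) * e5

end MP18afd0
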