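import Mathlib
import Pool.Agent.Work.MP_18afd0_nt.FamII

/-!
# Closed forms on the line `Y = - X`, and the corresponding nodes
-/

namespace MP18afd0

open Finset

theorem ttI (r : ℕ) (y : ℚ) : tt r y (-y) =
    ∏ i ∈ range r, ((1 / 3 - y + i) * (2 / 3 - y + i) * (1 / 2 + i) /
    ((1 + i) * (1 + y + i) * (3 / 2 - 2 * y + i))) := by
  unfold tt
  apply Finset.prod_congr rfl
  intro i _
  congr 1
  · ring
  · ring

theorem ttI_succ (r : ℕ) (y : ℚ) : tt (r + 1) y (-y) = tt r y (-y) *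
    ((1 / 3 - y + r) * (2 / 3 - y + r) * (1 / 2 + r) /
    ((1 + r) * (1 + y + r) * (3 / 2 - 2 * y + r))) := by
  rw [ttI, ttI, Finset.prod_range_succ]

theorem ttI_rel (y : ℚ) (hy : 0 < y) (h2 : ∀ i : ℕ, 3 / 2 - 2 * y + i ≠ 0)
    (h4 : 1 / 2 - 2 * y ≠ 0) (r : ℕ) :
    tt (r + 1) (y + 1) (-(y + 1)) = tt r y (-y) *
      (-((2 / 3 + y) * (1 / 3 + y) * (1 + y)) / ((1 / 2 + 2 * y) * (1 / 2 - 2 * y))) *
      ((1 / 2 + r) * (1 / 2 - 2 * y + r) / ((r + 1) * (1 + y + r) * (2 + y + r))) := by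
  have n3 : (1 / 2 + 2 * y) ≠ 0 := by positivity
  have n1 : (1 + y) ≠ 0 := by positivity
  induction r with
  | zero =>
    rw [ttI_succ]
    have t0 : ∀ Y Z : ℚ, tt 0 Y Z = 1 := by intro Y Z; simp [tt]
    rw [t0, t0]
    push_cast
    have a4 : (3 / 2 - 2 * (y + 1) + 0) = -(1 / 2 + 2 * y) := by ring
    have a5 : (1 + (y + 1) + 0) = 2 + y := by ring
    have a6 : (1 / 2 - 2 * y + 0) = 1 / 2 - 2 * y := by ring
    have a7 : (1 + y + 0) = 1 + y := by ring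
    have a8 : (2 + y + 0) = 2 + y := by ring
    rw [a4, a5, a6, a7, a8]
    have n5 : (2 + y) ≠ 0 := by positivity
    generalize hE : (1 / 2 + 2 * y) = E at *
    generalize hG : (1 / 2 - 2 * y) = G at *
    field_simp
    ring
  | succ r ih =>
    rw [ttI_succ, ih, ttI_succ]
    have n6 := h2 r
    have n7 : (1 / 2 - 2 * y + (r : ℚ)) ≠ 0 := by
      rcases Nat.eq_zero_or_pos r with rfl | hr
      · simpa using h4
      · have := h2 (r - 1)
        rw [Nat.cast_sub (by omega)] at this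
        push_cast at this
        intro h
        apply this
        linarith
    push_cast
    have b2 : (3 / 2 - 2 * (y + 1) + ((r : ℚ) + 1)) = 1 / 2 - 2 * y + r := by ring
    have b3 : (1 / 2 - 2 * y + ((r : ℚ) + 1)) = 3 / 2 - 2 * y + r := by ring
    rw [b2, b3]
    generalize hF : (3 / 2 - 2 * y + (r : ℚ)) = F at *
    generalize hG : (1 / 2 - 2 * y + (r : ℚ)) = G at *
    generalize tt r y (-y) = t
    generalize hK : (-((2 / 3 + y) * (1 / 3 + y) * (1 + y)) / ((1 / 2 + 2 * y) * (1 / 2 - 2 * y))) = K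
    have hr1 : ((r : ℚ) + 1) ≠ 0 := by positivity
    have hr2 : ((r : ℚ) + 2) ≠ 0 := by positivity
    have hr3 : ((1 : ℚ) + y + r) ≠ 0 := by positivity
    have hr4 : ((2 : ℚ) + y + r) ≠ 0 := by positivity
    have hr5 : ((3 : ℚ) + y + r) ≠ 0 := by positivity
    have c1 : ((1 : ℚ) + (r + 1)) = r + 2 := by ring
    have c2 : ((r : ℚ) + 1 + 1) = r + 2 := by ring
    have c3 : ((1 : ℚ) + y + (r + 1)) = 2 + y + r := by ring
    have c4 : ((2 : ℚ) + y + (r + 1)) = 3 + y + r := by ring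
    have c5 : ((1 : ℚ) + (y + 1) + (r + 1)) = 3 + y + r := by ring
    have c6 : ((1 : ℚ) + r) = r + 1 := by ring
    rw [c1, c2, c3, c4, c5, c6]
    field_simp
    ring

def QI (y r : ℚ) : ℚ := 36 * y ^ 2 + 42 * y * r + 24 * r ^ 2 + 37 * y + 28 * r + 7

def PhiI (y : ℚ) (r : ℕ) : ℚ :=
  tt r y (-y) * (1 / 2 - 2 * y + r) / (1 / 2 - 2 * y) * (QI y r / (y + r + 1))

theorem famI_tel (y : ℚ) (hy : 0 < y) (h2 : ∀ i : ℕ, 3 / 2 - 2 * y + i ≠ 0)
    (h4 : 1 / 2 - 2 * y ≠ 0) (r : ℕ) :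
    -(4 * y + 1) / (y + 1) * ((3 * ((r + 1 : ℕ) : ℚ) + 2 + 3 * (-(y + 1)) - 6 * (y + 1)) *
        tt (r + 1) (y + 1) (-(y + 1))) =
      16 * y / (1 - 4 * y) * ((3 * (r : ℚ) + 2 + 3 * (-y) - 6 * y) * tt r y (-y)) +
        (PhiI y (r + 1) - PhiI y r) := by
  rw [ttI_rel y hy h2 h4 r]
  unfold PhiI QI
  rw [ttI_succ]
  have n3 : (1 + 4 * y) ≠ 0 := by positivity
  have n1 : (1 + y) ≠ 0 := by positivity
  have n5 : (1 - 4 * y) ≠ 0 := by
    intro h; apply h4; linarith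
  have n6 := h2 r
  have hr1 : ((r : ℚ) + 1) ≠ 0 := by positivity
  have hr3 : ((1 : ℚ) + y + r) ≠ 0 := by positivity
  have hr4 : ((2 : ℚ) + y + r) ≠ 0 := by positivity
  generalize tt r y (-y) = t
  push_cast
  have e1 : (1 / 2 + 2 * y) = (1 + 4 * y) / 2 := by ring
  have e2 : (1 / 2 - 2 * y) = (1 - 4 * y) / 2 := by ring
  have e3 : (1 / 2 - 2 * y + ((r : ℚ) + 1)) = 3 / 2 - 2 * y + r := by ring
  have c3 : (y + ((r : ℚ) + 1) + 1) = 2 + y + r := by ring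
  have c4 : (y + (r : ℚ) + 1) = 1 + y + r := by ring
  have c6 : ((1 : ℚ) + r) = r + 1 := by ring
  have c7 : (4 * y + 1) = 1 + 4 * y := by ring
  have c8 : (y + 1) = 1 + y := by ring
  rw [e3]
  generalize hF : (3 / 2 - 2 * y + (r : ℚ)) = F at *
  rw [e1, e2, c3, c4, c6, c7, c8]
  field_simp
  ring

theorem famI_step (y : ℚ) (R : ℕ) (hy : 0 < y) (h2 : ∀ i : ℕ, 3 / 2 - 2 * y + i ≠ 0)
    (h4 : 1 / 2 - 2 * y ≠ 0) (hz : tt R y (-y) = 0) :
    SG (R + 1) (y + 1) (-(y + 1)) = 16 * y * (y + 1) / ((4 * y - 1) * (4 * y + 1)) *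
      SG R y (-y) := by
  have n3 : (1 + 4 * y) ≠ 0 := by positivity
  have n1 : (1 + y) ≠ 0 := by positivity
  have n5 : (1 - 4 * y) ≠ 0 := by
    intro h; apply h4; linarith
  have hsum := Finset.sum_congr (rfl : range R = range R)
    (fun r _ => famI_tel y hy h2 h4 r)
  rw [← Finset.mul_sum, Finset.sum_add_distrib, ← Finset.mul_sum, Finset.sum_range_sub] at hsum
  have hPhi : PhiI y R = 0 := by
    unfold PhiI
    rw [hz]; simp
  rw [hPhi] at hsum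
  unfold SG
  rw [Finset.sum_range_succ']
  have t0 : ∀ Y Z : ℚ, tt 0 Y Z = 1 := by intro Y Z; simp [tt]
  rw [t0]
  set A := ∑ i ∈ range R, (3 * ((i + 1 : ℕ) : ℚ) + 2 + 3 * (-(y + 1)) - 6 * (y + 1)) *
      tt (i + 1) (y + 1) (-(y + 1)) with hA
  set B := ∑ i ∈ range R, (3 * (i : ℚ) + 2 + 3 * (-y) - 6 * y) * tt i y (-y) with hB
  have hA2 : A = (-(1 + y) / (1 + 4 * y)) * (16 * y / (1 - 4 * y) * B - PhiI y 0) := by
    have : (-(1 + y) / (1 + 4 * y)) * (-(4 * y + 1) / (y + 1) * A) = A := by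
      have c7 : (4 * y + 1) = 1 + 4 * y := by ring
      have c8 : (y + 1) = 1 + y := by ring
      rw [c7, c8]
      field_simp
    rw [← this, hsum]
    ring
  rw [hA2]
  have hP0 : PhiI y 0 = (4 * y + 1) * (9 * y + 7) / (1 + y) := by
    unfold PhiI QI
    rw [t0]
    have e2 : (1 / 2 - 2 * y) = (1 - 4 * y) / 2 := by ring
    push_cast
    have c8 : (y + 0 + 1) = 1 + y := by ring
    rw [c8, add_zero, e2]
    field_simp
    ring
  rw [hP0]
  have c9 : (4 * y - 1) = -(1 - 4 * y) := by ring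
  have c7 : (4 * y + 1) = 1 + 4 * y := by ring
  push_cast
  rw [c9, c7]
  field_simp
  ring

/-- ratio of hypergeometric terms along the line -/
def rho (y0 : ℚ) (k : ℕ) : ℚ :=
  ∏ i ∈ range k, ((4 * (y0 + i) + 1) * (4 * (y0 + i) + 3) / (16 * (y0 + i + 1) ^ 2))

theorem rho_pos {y0 : ℚ} (h : 0 < y0) (k : ℕ) : 0 < rho y0 k := by
  unfold rho
  apply Finset.prod_pos
  intro i _
  positivity

theorem SG_I_third (k : ℕ) : SG (k + 1) (1 / 3 + k) (-(1 / 3 + k)) =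
    (-1) * ((4 * (1 / 3 + k) - 1) / (1 / 3)) * ((1 / 3) / (1 / 3 + k)) / rho (1 / 3) k := by
  induction k with
  | zero => norm_num [SG, tt, rho, Finset.sum_range_succ, Finset.prod_range_succ]
  | succ k ih =>
    have h := famI_step (1 / 3 + k) (k + 1) (by positivity)
      (fun i => nz (6 * (i : ℤ) - 12 * k + 5) (by omega) 6 (by push_cast; ring))
      (nz (- 12 * (k : ℤ) - 1) (by omega) 6 (by push_cast; ring))
      (tt_vanish (i := k) (by omega) (by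
        have : (1 / 3 + (-(1 / 3 + (k : ℚ))) + (k : ℚ)) = 0 := by ring
        rw [this]; ring))
    have e2 : (1 / 3 + ((k + 1 : ℕ) : ℚ)) = 1 / 3 + (k : ℚ) + 1 := by push_cast; ring
    have e3 : rho (1 / 3) (k + 1) = rho (1 / 3) k * ((4 * (1 / 3 + (k : ℚ)) + 1) *
        (4 * (1 / 3 + (k : ℚ)) + 3) / (16 * (1 / 3 + (k : ℚ) + 1) ^ 2)) := by
      unfold rho; rw [Finset.prod_range_succ]
    rw [e2, h, ih, e3]
    have n1 := (rho_pos (y0 := 1 / 3) (by norm_num) k).ne'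
    have n2 : (1 / 3 + (k : ℚ)) ≠ 0 := by positivity
    have n3 : (4 * (1 / 3 + (k : ℚ)) - 1) ≠ 0 :=
      nz (12 * (k : ℤ) + 1) (by omega) 3 (by push_cast; ring)
    generalize rho (1 / 3) k = ρ at *
    generalize hY : (1 / 3 + (k : ℚ)) = Y at *
    have n4 : (4 * Y + 1) ≠ 0 := by rw [← hY]; positivity
    have n5 : (4 * Y + 3) ≠ 0 := by rw [← hY]; positivity
    have n6 : (Y + 1) ≠ 0 := by rw [← hY]; positivity
    have c1 : (4 * (Y + 1) - 1) = 4 * Y + 3 := by ring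
    rw [c1]
    generalize hZ : (4 * Y - 1) = Z at *
    generalize hP : (4 * Y + 1) = P at *
    generalize hQ : (4 * Y + 3) = Q at *
    field_simp

theorem SG_I_twothird (k : ℕ) : SG (k + 1) (2 / 3 + k) (-(2 / 3 + k)) =
    (-4) * ((4 * (2 / 3 + k) - 1) / (5 / 3)) * ((2 / 3) / (2 / 3 + k)) / rho (2 / 3) k := by
  induction k with
  | zero => norm_num [SG, tt, rho, Finset.sum_range_succ, Finset.prod_range_succ]
  | succ k ih =>
    have h := famI_step (2 / 3 + k) (k + 1) (by positivity)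
      (fun i => nz (6 * (i : ℤ) - 12 * k + 1) (by omega) 6 (by push_cast; ring))
      (nz (- 12 * (k : ℤ) - 5) (by omega) 6 (by push_cast; ring))
      (tt_vanish (i := k) (by omega) (by
        have : (2 / 3 + (-(2 / 3 + (k : ℚ))) + (k : ℚ)) = 0 := by ring
        rw [this]; ring))
    have e2 : (2 / 3 + ((k + 1 : ℕ) : ℚ)) = 2 / 3 + (k : ℚ) + 1 := by push_cast; ring
    have e3 : rho (2 / 3) (k + 1) = rho (2 / 3) k * ((4 * (2 / 3 + (k : ℚ)) + 1) *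
        (4 * (2 / 3 + (k : ℚ)) + 3) / (16 * (2 / 3 + (k : ℚ) + 1) ^ 2)) := by
      unfold rho; rw [Finset.prod_range_succ]
    rw [e2, h, ih, e3]
    have n1 := (rho_pos (y0 := 2 / 3) (by norm_num) k).ne'
    have n2 : (2 / 3 + (k : ℚ)) ≠ 0 := by positivity
    have n3 : (4 * (2 / 3 + (k : ℚ)) - 1) ≠ 0 :=
      nz (12 * (k : ℤ) + 5) (by omega) 3 (by push_cast; ring)
    generalize rho (2 / 3) k = ρ at *
    generalize hY : (2 / 3 + (k : ℚ)) = Y at *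
    have n4 : (4 * Y + 1) ≠ 0 := by rw [← hY]; positivity
    have n5 : (4 * Y + 3) ≠ 0 := by rw [← hY]; positivity
    have n6 : (Y + 1) ≠ 0 := by rw [← hY]; positivity
    have c1 : (4 * (Y + 1) - 1) = 4 * Y + 3 := by ring
    rw [c1]
    generalize hZ : (4 * Y - 1) = Z at *
    generalize hP : (4 * Y + 1) = P at *
    generalize hQ : (4 * Y + 3) = Q at *
    field_simp

/-! ### Pochhammer symbols -/

def poch (z : ℚ) (n : ℕ) : ℚ := ∏ i ∈ range n, (z + i)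

theorem poch_succ (z : ℚ) (n : ℕ) : poch z (n + 1) = poch z n * (z + n) := by
  unfold poch; rw [Finset.prod_range_succ]

theorem poch_succ' (z : ℚ) (n : ℕ) : poch z (n + 1) = z * poch (z + 1) n := by
  unfold poch
  rw [Finset.prod_range_succ']
  push_cast
  rw [add_zero, mul_comm]
  congr 1
  apply Finset.prod_congr rfl
  intro i _
  ring

theorem poch_add (z : ℚ) (a b : ℕ) : poch z (a + b) = poch z a * poch (z + a) b := by
  unfold poch
  rw [Finset.prod_range_add]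
  congr 1
  apply Finset.prod_congr rfl
  intro i _
  push_cast
  ring

theorem poch_refl (w : ℚ) (n : ℕ) : poch (1 - w) n = (-1) ^ n * poch (w - n) n := by
  unfold poch
  rw [← Finset.prod_range_reflect (fun i : ℕ => (w - n + (i : ℚ)))]
  have : ((-1 : ℚ)) ^ n = ∏ _i ∈ range n, (-1 : ℚ) := by
    rw [Finset.prod_const, Finset.card_range]
  rw [this, ← Finset.prod_mul_distrib]
  apply Finset.prod_congr rfl
  intro i hi
  rw [Finset.mem_range] at hi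
  have e : (n - 1 - i) + 1 + i = n := by omega
  have e2 : (((n - 1 - i) + 1 + i : ℕ) : ℚ) = (n : ℚ) := by rw [e]
  push_cast at e2
  have e3 : (((n - 1 - i : ℕ)) : ℚ) = (n : ℚ) - 1 - i := by linarith
  rw [e3]
  ring

theorem poch_pos {z : ℚ} (h : 0 < z) (n : ℕ) : 0 < poch z n := by
  unfold poch
  apply Finset.prod_pos
  intro i _
  positivity

theorem rho_eq {y0 : ℚ} (h : 0 < y0) (k : ℕ) : rho y0 k * (64 ^ k * poch (2 * y0 + 1) (2 * k) *
    poch (y0 + 1) k ^ 2) = poch (4 * y0 + 1) (4 * k) := by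
  induction k with
  | zero => simp [rho, poch]
  | succ k ih =>
    have e3 : rho y0 (k + 1) = rho y0 k * ((4 * (y0 + (k : ℚ)) + 1) *
        (4 * (y0 + (k : ℚ)) + 3) / (16 * (y0 + (k : ℚ) + 1) ^ 2)) := by
      unfold rho; rw [Finset.prod_range_succ]
    rw [e3, show 4 * (k + 1) = 4 * k + 1 + 1 + 1 + 1 by ring, show 2 * (k + 1) = 2 * k + 1 + 1 by ring]
    simp only [poch_succ, pow_succ]
    rw [← ih]
    have n6 : (y0 + k + 1) ≠ 0 := by positivity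
    push_cast
    field_simp
    ring

variable {p : ℕ} [hp : Fact p.Prime]

theorem Blk_eq_poch (h3 : 3 < p) (z : ℚ) : Blk p z = poch (p * z + 1) (p - 1) := by
  unfold Blk poch
  apply Finset.prod_congr rfl
  intro i _
  ring

theorem poch_full (h3 : 3 < p) {z x : ℚ} (hx : x = p * z + 1) :
    poch x p = Blk p z * (p * (z + 1)) := by
  have e : p = (p - 1) + 1 := by omega
  conv_lhs => rw [e]
  rw [poch_succ, Blk_eq_poch h3, hx]
  have : ((p - 1 : ℕ) : ℚ) = (p : ℚ) - 1 := by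
    rw [Nat.cast_sub (by omega)]; push_cast; ring
  rw [this]
  ring

/-- `p = 3 k + 1`: basic relations -/
theorem rel1 (h3 : 3 < p) {k : ℕ} (hk : p = 3 * k + 1) :
    poch (7 / 3) (4 * k) = poch (4 / 3) k * Blk p (1 / 3) * p ∧
    poch (5 / 3) (2 * k) = p * poch (2 / 3) (2 * k) ∧
    poch (4 / 3) k = p * poch (1 / 3) k ∧
    Blk p (-1 / 3) = (-1) ^ k * poch (1 / 3) k * poch (2 / 3) (2 * k) := by
  have hq : (p : ℚ) = 3 * k + 1 := by exact_mod_cast hk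
  refine ⟨?_, ?_, ?_, ?_⟩
  · have h1 := poch_succ' (4 / 3) (4 * k)
    have h2 : 4 * k + 1 = k + p := by omega
    rw [h2, poch_add, poch_full h3 (z := 1 / 3) (by rw [hq]; ring)] at h1
    have h4 : (4 / 3 + 1 : ℚ) = 7 / 3 := by norm_num
    rw [h4] at h1
    linear_combination (-3 / 4 : ℚ) * h1
  · have h1 := poch_succ' (2 / 3) (2 * k)
    rw [poch_succ] at h1
    have h4 : (2 / 3 + 1 : ℚ) = 5 / 3 := by norm_num
    rw [h4] at h1
    rw [hq]
    push_cast at h1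
    linear_combination (-3 / 2 : ℚ) * h1
  · have h1 := poch_succ' (1 / 3) k
    rw [poch_succ] at h1
    have h4 : (1 / 3 + 1 : ℚ) = 4 / 3 := by norm_num
    rw [h4] at h1
    rw [hq]
    linear_combination (-3 : ℚ) * h1
  · rw [Blk_eq_poch h3]
    have h2 : p - 1 = k + 2 * k := by omega
    rw [h2, poch_add]
    have h5 : (p : ℚ) * (-1 / 3) + 1 = 1 - p / 3 := by ring
    rw [h5, poch_refl]
    have h6 : (p : ℚ) / 3 - k = 1 / 3 := by rw [hq]; ring
    have h7 : 1 - (p : ℚ) / 3 + k = 2 / 3 := by rw [hq]; ring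
    rw [h6, h7]

/-- `p = 3 k + 2`: basic relations -/
theorem rel2 (h3 : 3 < p) {k : ℕ} (hk : p = 3 * k + 2) :
    poch (5 / 3) (4 * k + 2) = poch (5 / 3) k * (Blk p (1 / 3) * (p * (4 / 3))) ∧
    poch (5 / 3) k = p / 2 * poch (2 / 3) k ∧
    poch (4 / 3) (2 * k + 1) = 2 * p * poch (1 / 3) (2 * k + 1) ∧
    Blk p (-1 / 3) = (-1) ^ k * poch (2 / 3) k * poch (1 / 3) (2 * k + 1) := by
  have hq : (p : ℚ) = 3 * k + 2 := by exact_mod_cast hk
  refine ⟨?_, ?_, ?_, ?_⟩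
  · have h2 : 4 * k + 2 = k + p := by omega
    rw [h2, poch_add, poch_full h3 (z := 1 / 3) (by rw [hq]; ring)]
    norm_num
  · have h1 := poch_succ' (2 / 3) k
    rw [poch_succ] at h1
    have h4 : (2 / 3 + 1 : ℚ) = 5 / 3 := by norm_num
    rw [h4] at h1
    rw [hq]
    linear_combination (-3 / 2 : ℚ) * h1
  · have h1 := poch_succ' (1 / 3) (2 * k + 1)
    rw [poch_succ] at h1
    have h4 : (1 / 3 + 1 : ℚ) = 4 / 3 := by norm_num
    rw [h4] at h1
    rw [hq]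
    push_cast at h1
    linear_combination (-3 : ℚ) * h1
  · rw [Blk_eq_poch h3]
    have h2 : p - 1 = k + (2 * k + 1) := by omega
    rw [h2, poch_add]
    have h5 : (p : ℚ) * (-1 / 3) + 1 = 1 - p / 3 := by ring
    rw [h5, poch_refl]
    have h6 : (p : ℚ) / 3 - k = 2 / 3 := by rw [hq]; ring
    have h7 : 1 - (p : ℚ) / 3 + k = 1 / 3 := by rw [hq]; ring
    rw [h6, h7]

theorem Blk_ne (h3 : 3 < p) {z : ℚ} (hz : z ∈ ZP p) : Blk p z ≠ 0 := by
  obtain ⟨w, hw, hwe⟩ := Blk_congr h3 hz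
  rw [hwe]
  exact mul_ne_zero (fne _) (Un_one_add (by norm_num) hw).ne_zero

theorem rhoA (h3 : 3 < p) {k : ℕ} (hk : p = 3 * (2 * k) + 1) :
    rho (1 / 3) (2 * k) * (p * 64 ^ (2 * k) * Blk p (-1 / 3)) = Blk p (1 / 3) := by
  obtain ⟨r1, r2, r3, r4⟩ := rel1 h3 hk
  have h1 := rho_eq (y0 := 1 / 3) (by norm_num) (2 * k)
  rw [show (4 * (1 / 3) + 1 : ℚ) = 7 / 3 by norm_num, show (2 * (1 / 3) + 1 : ℚ) = 5 / 3 by norm_num,
    show (1 / 3 + 1 : ℚ) = 4 / 3 by norm_num, r1, r2, r3] at h1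
  rw [r4]
  have hs : (-1 : ℚ) ^ (2 * k) = 1 := by rw [pow_mul]; norm_num
  rw [hs]
  have n1 := (poch_pos (z := 1 / 3) (by norm_num) (2 * k)).ne'
  have n2 : (p : ℚ) ≠ 0 := p_ne
  have h5 : (p : ℚ) ^ 2 * poch (1 / 3) (2 * k) * (rho (1 / 3) (2 * k) * (p * 64 ^ (2 * k) *
      (1 * poch (1 / 3) (2 * k) * poch (2 / 3) (2 * (2 * k))))) = (p : ℚ) ^ 2 * poch (1 / 3) (2 * k) *
      Blk p (1 / 3) := by
    linear_combination h1
  exact mul_left_cancel₀ (mul_ne_zero (pow_ne_zero 2 n2) n1) h5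

theorem rhoB (h3 : 3 < p) {k : ℕ} (hk : p = 3 * (2 * k) + 1) :
    rho (2 / 3) (2 * (2 * k)) * (64 ^ (2 * (2 * k)) * (p * (Blk p (1 / 3) * Blk p (-1 / 3)))) =
      Blk p (2 / 3) * Blk p (5 / 3) := by
  have hq : (p : ℚ) = 3 * (2 * k) + 1 := by exact_mod_cast hk
  obtain ⟨r1, r2, r3, r4⟩ := rel1 h3 hk
  have h1 := rho_eq (y0 := 2 / 3) (by norm_num) (2 * (2 * k))
  have h2 : poch (11 / 3) (4 * (2 * (2 * k))) = poch (5 / 3) (2 * (2 * k)) *
      (Blk p (2 / 3) * Blk p (5 / 3)) * p ^ 2 := by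
    have g1 : poch (5 / 3) (4 * (2 * (2 * k)) + 1 + 1) = 5 / 3 * ((5 / 3 + 1) *
        poch (5 / 3 + 1 + 1) (4 * (2 * (2 * k)))) := by rw [poch_succ', poch_succ']
    have g2 : 4 * (2 * (2 * k)) + 1 + 1 = (2 * (2 * k) + p) + p := by omega
    rw [g2, poch_add, poch_add, poch_full h3 (z := 2 / 3) (by rw [hq]; push_cast; ring),
      poch_full h3 (z := 5 / 3) (by rw [hq]; push_cast; rw [hq]; ring)] at g1
    rw [show (5 / 3 + 1 + 1 : ℚ) = 11 / 3 by norm_num] at g1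
    linear_combination (-9 / 40 : ℚ) * g1
  rw [show (4 * (2 / 3) + 1 : ℚ) = 11 / 3 by norm_num, show (2 * (2 / 3) + 1 : ℚ) = 7 / 3 by norm_num,
    show (2 / 3 + 1 : ℚ) = 5 / 3 by norm_num, h2, show 2 * (2 * (2 * k)) = 4 * (2 * k) by ring,
    r1, r2, r3] at h1
  rw [r4]
  have hs : (-1 : ℚ) ^ (2 * k) = 1 := by rw [pow_mul]; norm_num
  rw [hs]
  have n1 := (poch_pos (z := 2 / 3) (by norm_num) (2 * (2 * k))).ne'
  have n2 : (p : ℚ) ≠ 0 := p_ne
  apply mul_left_cancel₀ (mul_ne_zero (pow_ne_zero 3 n2) n1)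
  linear_combination h1

theorem rhoC (h3 : 3 < p) {k : ℕ} (hk : p = 3 * (2 * k + 1) + 2) :
    rho (2 / 3) (2 * k + 1) * (64 ^ (2 * k + 1) * (p * Blk p (-1 / 3))) =
      -(2 / 5) * Blk p (1 / 3) := by
  have hq : (p : ℚ) = 3 * (2 * k + 1) + 2 := by exact_mod_cast hk
  obtain ⟨r1, r2, r3, r4⟩ := rel2 h3 hk
  have h1 := rho_eq (y0 := 2 / 3) (by norm_num) (2 * k + 1)
  have h2 : poch (11 / 3) (4 * (2 * k + 1)) = 9 / 40 * poch (5 / 3) (4 * (2 * k + 1) + 2) := by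
    have g1 : poch (5 / 3) (4 * (2 * k + 1) + 1 + 1) = 5 / 3 * ((5 / 3 + 1) *
        poch (5 / 3 + 1 + 1) (4 * (2 * k + 1))) := by rw [poch_succ', poch_succ']
    rw [show (5 / 3 + 1 + 1 : ℚ) = 11 / 3 by norm_num] at g1
    linear_combination (-9 / 40 : ℚ) * g1
  have h4 : poch (7 / 3) (2 * (2 * k + 1)) = 3 / 4 * poch (4 / 3) (2 * (2 * k + 1) + 1) := by
    have g1 := poch_succ' (4 / 3) (2 * (2 * k + 1))
    rw [show (4 / 3 + 1 : ℚ) = 7 / 3 by norm_num] at g1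
    linear_combination (-3 / 4 : ℚ) * g1
  rw [show (4 * (2 / 3) + 1 : ℚ) = 11 / 3 by norm_num, show (2 * (2 / 3) + 1 : ℚ) = 7 / 3 by norm_num,
    show (2 / 3 + 1 : ℚ) = 5 / 3 by norm_num, h2, h4, r1, r3, r2] at h1
  rw [r4]
  have hs : (-1 : ℚ) ^ (2 * k + 1) = -1 := by rw [pow_succ, pow_mul]; norm_num
  rw [hs]
  have n1 := (poch_pos (z := 2 / 3) (by norm_num) (2 * k + 1)).ne'
  have n2 : (p : ℚ) ≠ 0 := p_ne
  apply mul_left_cancel₀ (mul_ne_zero (pow_ne_zero 2 n2) n1)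
  linear_combination (-8 / 3 : ℚ) * h1

theorem rhoD (h3 : 3 < p) {k : ℕ} (hk : p = 3 * (2 * k + 1) + 2) :
    rho (1 / 3) (2 * (2 * k + 1) + 1) * (64 ^ (2 * (2 * k + 1) + 1) *
      (p * (Blk p (1 / 3) * Blk p (-1 / 3)))) =
      -(5 / 2) * (Blk p (2 / 3) * Blk p (5 / 3)) := by
  have hq : (p : ℚ) = 3 * (2 * k + 1) + 2 := by exact_mod_cast hk
  obtain ⟨r1, r2, r3, r4⟩ := rel2 h3 hk
  have h1 := rho_eq (y0 := 1 / 3) (by norm_num) (2 * (2 * k + 1) + 1)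
  have h2 : poch (7 / 3) (4 * (2 * (2 * k + 1) + 1)) = poch (4 / 3) (2 * (2 * k + 1) + 1) *
      (Blk p (2 / 3) * Blk p (5 / 3)) * (10 / 3 * p ^ 2) := by
    have g1 := poch_succ' (4 / 3) (4 * (2 * (2 * k + 1) + 1))
    have g2 : 4 * (2 * (2 * k + 1) + 1) + 1 = (2 * (2 * k + 1) + 1 + p) + p := by omega
    rw [g2, poch_add, poch_add, poch_full h3 (z := 2 / 3) (by rw [hq]; push_cast; ring),
      poch_full h3 (z := 5 / 3) (by rw [hq]; push_cast; rw [hq]; ring)] at g1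
    rw [show (4 / 3 + 1 : ℚ) = 7 / 3 by norm_num] at g1
    linear_combination (-3 / 4 : ℚ) * g1
  rw [show (4 * (1 / 3) + 1 : ℚ) = 7 / 3 by norm_num, show (2 * (1 / 3) + 1 : ℚ) = 5 / 3 by norm_num,
    show (1 / 3 + 1 : ℚ) = 4 / 3 by norm_num, h2, show 2 * (2 * (2 * k + 1) + 1) =
    4 * (2 * k + 1) + 2 by ring, r1, r2, r3] at h1
  rw [r4]
  have hs : (-1 : ℚ) ^ (2 * k + 1) = -1 := by rw [pow_succ, pow_mul]; norm_num
  rw [hs]
  have n1 := (poch_pos (z := 1 / 3) (by norm_num) (2 * (2 * k + 1) + 1)).ne'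
  have n2 : (p : ℚ) ≠ 0 := p_ne
  apply mul_left_cancel₀ (mul_ne_zero (pow_ne_zero 3 n2) n1)
  linear_combination (-3 / 8 : ℚ) * h1

end MP18afd0
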