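import Mathlib
import Pool.Agent.Work.MP_18afd0_nt.ZeroD

/-!
# The line `n = 0`: the primes 5 and 7, and the general statement
-/

namespace MP18afd0

open Finset

instance fact5 : Fact (Nat.Prime 5) := ⟨by norm_num⟩
instance fact7 : Fact (Nat.Prime 7) := ⟨by norm_num⟩

theorem chi5 : chi 5 = -1 := chi_two (by norm_num)
theorem chi7 : chi 7 = 1 := chi_one (by norm_num)
theorem ap5 : ap 5 = 3 := by unfold ap; norm_num
theorem ap7 : ap 7 = 2 := by unfold ap; norm_num
theorem kap5 : kap 5 = -490 / 3 := by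
  unfold kap; rw [ap5]; unfold H2; norm_num [Finset.sum_range_succ]
theorem kap7 : kap 7 = -150 := by
  unfold kap; rw [ap7]; unfold H2; norm_num [Finset.sum_range_succ]
theorem AA5 : AA 5 = 16 := by unfold AA; norm_num
theorem AA7 : AA 7 = 64 := by unfold AA; norm_num
theorem RR5 : RR 5 = -9 := by unfold RR; rw [chi5]; norm_num
theorem RR7 : RR 7 = -27 := by unfold RR; rw [chi7]; norm_num

theorem SG5_0 : SG 5 ((((5 : ℕ) : ℚ)) * 0) ((((5 : ℕ) : ℚ)) * 0) = 1489868 / 531441 := by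
  norm_num [SG, tt, Finset.sum_range_succ, Finset.prod_range_succ]

theorem R5_0 : Dv 5 3 (PolG 5 2 0 0 - pred 5 0 0) := by
  have h1 : PolG 5 2 0 0 = 1 * (1489868 / 531441) := by
    rw [PolG_eq (by norm_num) (by norm_num) (by norm_num), SG5_0]
    norm_num
  have h2 : pred 5 0 0 = -6341 / 108 := by
    unfold pred gPsi LL Lx
    rw [chi5, kap5, AA5, RR5]
    norm_num
  rw [h1, h2]
  refine ⟨(((1046155 : ℤ) : ℚ)) / (((2125764 : ℕ) : ℚ)),
    mem_div_of_Un (int_mem _) (Un_nat (by norm_num)), by norm_num⟩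

theorem SG5_1 : SG 5 ((((5 : ℕ) : ℚ)) * 0) ((((5 : ℕ) : ℚ)) * 1) = 193810094245 / 3046751253 := by
  norm_num [SG, tt, Finset.sum_range_succ, Finset.prod_range_succ]

theorem R5_1 : Dv 5 3 (PolG 5 2 0 1 - pred 5 0 1) := by
  have h1 : PolG 5 2 0 1 = 3 * (193810094245 / 3046751253) := by
    rw [PolG_eq (by norm_num) (by norm_num) (by norm_num), SG5_1]
    norm_num
  have h2 : pred 5 0 1 = -1073667485 / 72 := by
    unfold pred gPsi LL Lx
    rw [chi5, kap5, AA5, RR5]
    norm_num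
  rw [h1, h2]
  refine ⟨(((969256183173175 : ℤ) : ℚ)) / (((8124670008 : ℕ) : ℚ)),
    mem_div_of_Un (int_mem _) (Un_nat (by norm_num)), by norm_num⟩

theorem SG5_2 : SG 5 ((((5 : ℕ) : ℚ)) * 0) ((((5 : ℕ) : ℚ)) * 2) = 545125726816064 / 4026989158335 := by
  norm_num [SG, tt, Finset.sum_range_succ, Finset.prod_range_succ]

theorem R5_2 : Dv 5 3 (PolG 5 2 0 2 - pred 5 0 2) := by
  have h1 : PolG 5 2 0 2 = 5 * (545125726816064 / 4026989158335) := by
    rw [PolG_eq (by norm_num) (by norm_num) (by norm_num), SG5_2]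
    norm_num
  have h2 : pred 5 0 2 = -6966420419 / 18 := by
    unfold pred gPsi LL Lx
    rw [chi5, kap5, AA5, RR5]
    norm_num
  rw [h1, h2]
  refine ⟨(((4987333077516796709 : ℤ) : ℚ)) / (((1610795663334 : ℕ) : ℚ)),
    mem_div_of_Un (int_mem _) (Un_nat (by norm_num)), by norm_num⟩

theorem SG5_3 : SG 5 ((((5 : ℕ) : ℚ)) * 0) ((((5 : ℕ) : ℚ)) * 3) = 28284608892763451 / 135395977153338 := by
  norm_num [SG, tt, Finset.sum_range_succ, Finset.prod_range_succ]

theorem R5_3 : Dv 5 3 (PolG 5 2 0 3 - pred 5 0 3) := by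
  have h1 : PolG 5 2 0 3 = 7 * (28284608892763451 / 135395977153338) := by
    rw [PolG_eq (by norm_num) (by norm_num) (by norm_num), SG5_3]
    norm_num
  have h2 : pred 5 0 3 = -583947027001 / 216 := by
    unfold pred gPsi LL Lx
    rw [chi5, kap5, AA5, RR5]
    norm_num
  rw [h1, h2]
  refine ⟨(((11713203124876398527647 : ℤ) : ℚ)) / (((541583908613352 : ℕ) : ℚ)),
    mem_div_of_Un (int_mem _) (Un_nat (by norm_num)), by norm_num⟩

theorem SG7_0 : SG 7 ((((7 : ℕ) : ℚ)) * 0) ((((7 : ℕ) : ℚ)) * 0) = 127120064 / 43046721 := by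
  norm_num [SG, tt, Finset.sum_range_succ, Finset.prod_range_succ]

theorem R7_0 : Dv 7 3 (PolG 7 3 0 0 - pred 7 0 0) := by
  have h1 : PolG 7 3 0 0 = 1 * (127120064 / 43046721) := by
    rw [PolG_eq (by norm_num) (by norm_num) (by norm_num), SG7_0]
    norm_num
  have h2 : pred 7 0 0 = -1201 / 12 := by
    unfold pred gPsi LL Lx
    rw [chi7, kap7, AA7, RR7]
    norm_num
  rw [h1, h2]
  refine ⟨(((51724541 : ℤ) : ℚ)) / (((172186884 : ℕ) : ℚ)),
    mem_div_of_Un (int_mem _) (Un_nat (by norm_num)), by norm_num⟩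

theorem SG7_1 : SG 7 ((((7 : ℕ) : ℚ)) * 0) ((((7 : ℕ) : ℚ)) * 1) = 18980766139169719 / 161051084697789 := by
  norm_num [SG, tt, Finset.sum_range_succ, Finset.prod_range_succ]

theorem R7_1 : Dv 7 3 (PolG 7 3 0 1 - pred 7 0 1) := by
  have h1 : PolG 7 3 0 1 = 3 * (18980766139169719 / 161051084697789) := by
    rw [PolG_eq (by norm_num) (by norm_num) (by norm_num), SG7_1]
    norm_num
  have h2 : pred 7 0 1 = -2336279325 / 8 := by
    unfold pred gPsi LL Lx
    rw [chi7, kap7, AA7, RR7]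
    norm_num
  rw [h1, h2]
  refine ⟨(((365656729821822792989 : ℤ) : ℚ)) / (((429469559194104 : ℕ) : ℚ)),
    mem_div_of_Un (int_mem _) (Un_nat (by norm_num)), by norm_num⟩

theorem SG7_2 : SG 7 ((((7 : ℕ) : ℚ)) * 0) ((((7 : ℕ) : ℚ)) * 2) = 97865751619922200151711 / 380158670288544557400 := by
  norm_num [SG, tt, Finset.sum_range_succ, Finset.prod_range_succ]

theorem R7_2 : Dv 7 3 (PolG 7 3 0 2 - pred 7 0 2) := by
  have h1 : PolG 7 3 0 2 = 5 * (97865751619922200151711 / 380158670288544557400) := by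
    rw [PolG_eq (by norm_num) (by norm_num) (by norm_num), SG7_2]
    norm_num
  have h2 : pred 7 0 2 = -45586056797 / 6 := by
    unfold pred gPsi LL Lx
    rw [chi7, kap7, AA7, RR7]
    norm_num
  rw [h1, h2]
  refine ⟨(((1684153320856961824078486997 : ℤ) : ℚ)) / (((76031734057708911480 : ℕ) : ℚ)),
    mem_div_of_Un (int_mem _) (Un_nat (by norm_num)), by norm_num⟩

theorem SG7_3 : SG 7 ((((7 : ℕ) : ℚ)) * 0) ((((7 : ℕ) : ℚ)) * 3) = 507261068402762939111081 / 1264798276934260293225 := by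
  norm_num [SG, tt, Finset.sum_range_succ, Finset.prod_range_succ]

theorem R7_3 : Dv 7 3 (PolG 7 3 0 3 - pred 7 0 3) := by
  have h1 : PolG 7 3 0 3 = 7 * (507261068402762939111081 / 1264798276934260293225) := by
    rw [PolG_eq (by norm_num) (by norm_num) (by norm_num), SG7_3]
    norm_num
  have h2 : pred 7 0 3 = -1275915158177 / 24 := by
    unfold pred gPsi LL Lx
    rw [chi7, kap7, AA7, RR7]
    norm_num
  rw [h1, h2]
  refine ⟨(((224042118394617973667199784411 : ℤ) : ℚ)) / (((1445483745067726049400 : ℕ) : ℚ)),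
    mem_div_of_Un (int_mem _) (Un_nat (by norm_num)), by norm_num⟩

theorem Un_of_factor {p : ℕ} [hp : Fact p.Prime] (h7 : 7 < p) (i j k l : ℕ) :
    Un p ((2 : ℚ) ^ i * 3 ^ j * 5 ^ k * 7 ^ l) := by
  have c2 : Un p (2 : ℚ) := by exact_mod_cast Un_small (p := p) (n := 2) (by norm_num) (by omega)
  have c3 : Un p (3 : ℚ) := by exact_mod_cast Un_small (p := p) (n := 3) (by norm_num) (by omega)
  have c5 : Un p (5 : ℚ) := by exact_mod_cast Un_small (p := p) (n := 5) (by norm_num) (by omega)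
  have c7 : Un p (7 : ℚ) := by exact_mod_cast Un_small (p := p) (n := 7) (by norm_num) (by omega)
  exact (((c2.pow i).mul (c3.pow j)).mul (c5.pow k)).mul (c7.pow l)

variable {p : ℕ} [hp : Fact p.Prime]

theorem Un_cp (h7 : 7 < p) {m : ℕ} (hm : m ≤ 3) : Un p (cp m) := by
  have e0 : cp 0 = 1 := by simp [cp]
  have e1 : cp 1 = 2 / 9 := by rw [cp_succ, e0]; norm_num
  have e2 : cp 2 = 10 / 81 := by rw [cp_succ, e1]; norm_num
  have e3 : cp 3 = 560 / 6561 := by rw [cp_succ, e2]; norm_num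
  interval_cases m
  · rw [e0]; exact Un_one
  · rw [e1]
    have := (Un_of_factor h7 1 0 0 0).div (Un_of_factor h7 0 2 0 0)
    convert this using 1; norm_num
  · rw [e2]
    have := (Un_of_factor h7 1 0 1 0).div (Un_of_factor h7 0 4 0 0)
    convert this using 1; norm_num
  · rw [e3]
    have := (Un_of_factor h7 4 0 1 1).div (Un_of_factor h7 0 8 0 0)
    convert this using 1; norm_num

theorem R_zero (h3 : 3 < p) {h : ℕ} (hh : p = 2 * h + 1) {m : ℕ} (hm : m ≤ 3) :
    Dv p 3 (PolG p h 0 m - pred p 0 m) := by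
  rcases Nat.lt_or_ge 7 p with h7 | h7
  · apply R_zero_gen h3 hh (by omega) _ (Un_cp h7 hm)
    intro l hl
    have := Un_small (p := p) (n := 2 * l + 1) (by omega) (by omega)
    push_cast at this
    exact this
  · have : p = 5 ∨ p = 7 := by
      have hodd : p % 2 = 1 := Nat.odd_iff.1 (hp.out.odd_of_ne_two (by omega))
      omega
    rcases this with rfl | rfl
    · have : h = 2 := by omega
      subst this
      interval_cases m
      · exact_mod_cast R5_0
      · exact_mod_cast R5_1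
      · exact_mod_cast R5_2
      · exact_mod_cast R5_3
    · have : h = 3 := by omega
      subst this
      interval_cases m
      · exact_mod_cast R7_0
      · exact_mod_cast R7_1
      · exact_mod_cast R7_2
      · exact_mod_cast R7_3

end MP18afd0
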