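import Mathlib
import Pool.Agent.Work.MP_18afd0_nt.FamI
import Pool.Agent.Work.MP_18afd0_nt.ZeroE

/-!
# The block sum modulo `p ^ 3`
-/

namespace MP18afd0

open Finset

variable {p : ℕ} [hp : Fact p.Prime]

theorem Blk_unit (h3 : 3 < p) {z : ℚ} (hz : z ∈ ZP p) : Un p (Blk p z) := by
  obtain ⟨w, hw, hwe⟩ := Blk_congr h3 hz
  rw [hwe]
  exact (Un_fact (by omega)).mul (Un_one_add (by norm_num) hw)

theorem ratio1 (h3 : 3 < p) : Rl p 3 (Blk p (-1 / 3) / Blk p (1 / 3)) 1 := by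
  have h1 := Blk_congr h3 (z := -1 / 3) (const_mem h3 0 1 (-1) (by norm_num))
  have h2 := Blk_congr h3 (z := 1 / 3) (third_mem h3)
  have h := h1.div (by norm_num) h2
  rwa [div_self (fne _)] at h

theorem ratio2 (h3 : 3 < p) :
    Rl p 3 (Blk p (1 / 3) * Blk p (-1 / 3) / (Blk p (2 / 3) * Blk p (5 / 3))) 1 := by
  have h1 := Blk_congr h3 (z := -1 / 3) (const_mem h3 0 1 (-1) (by norm_num))
  have h2 := Blk_congr h3 (z := 1 / 3) (third_mem h3)
  have h4 := Blk_congr h3 (z := 2 / 3) (twothird_mem h3)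
  have h5 := Blk_congr h3 (z := 5 / 3) (const_mem h3 0 1 5 (by norm_num))
  have h := (h2.mul h1).div (by norm_num) (h4.mul h5)
  rwa [div_self (mul_ne_zero (fne _) (fne _))] at h

theorem Cg_of_Rl_one {x y : ℚ} {k : ℕ} (h : Rl p k x 1) (hy : y ∈ ZP p) : Cg p k (y * x) y := by
  have := (Rl.refl (p := p) k y).mul h
  rw [mul_one] at this
  exact this.cg hy

theorem R_b1 (h3 : 3 < p) {h : ℕ} (hh : p = 2 * h + 1) :
    Dv p 3 (PolG p h (1 / 3) (-1 / 3) - pred p (1 / 3) (-1 / 3)) := by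
  have h1 := pred_cg h3 (n := 1 / 3) (m := -1 / 3) 2 0 (by norm_num) (by norm_num)
    (by unfold gPsi; norm_num) (third_mem h3) (const_mem h3 0 1 (-1) (by norm_num))
  have hpm : (p : ℚ) ∈ ZP p := p_mem
  have hpn : (p : ℚ) ≠ 0 := p_ne
  have hodd : p % 2 = 1 := Nat.odd_iff.1 (hp.out.odd_of_ne_two (by omega))
  have hB1 := Blk_ne (p := p) h3 (z := 1 / 3) (third_mem h3)
  have hB2 := Blk_ne (p := p) h3 (z := -1 / 3) (const_mem h3 0 1 (-1) (by norm_num))
  have hpred : chi p * (2 + 3 * (-1 / 3) - 6 * (1 / 3)) *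
      ((1 + 2 * (p * (-1 / 3)) - 2 * (p * (1 / 3))) * (AA p ^ (2 : ℤ) * RR p ^ (0 : ℤ))) =
      chi p * (4 / 3 * p - 1) * AA p ^ 2 := by
    rw [zpow_zero]
    have : AA p ^ (2 : ℤ) = AA p ^ (2 : ℕ) := by norm_cast
    rw [this]; ring
  rw [hpred] at h1
  have hval : PolG p h (1 / 3) (-1 / 3) = chi p * (4 / 3 * p - 1) * AA p ^ 2 *
      (Blk p (-1 / 3) / Blk p (1 / 3)) := by
    rw [PolG_eq h3 hh (by norm_num)]
    rcases p_mod_three h3 with hm | hm
    · obtain ⟨k, hk⟩ : ∃ k, p = 3 * (2 * k) + 1 := ⟨p / 6, by omega⟩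
      have hq : (p : ℚ) = 3 * (2 * k) + 1 := by exact_mod_cast hk
      have e1 : (p : ℚ) * (1 / 3) = 1 / 3 + ((2 * k : ℕ) : ℚ) := by rw [hq]; push_cast; ring
      have e2 : (p : ℚ) * (-1 / 3) = -(1 / 3 + ((2 * k : ℕ) : ℚ)) := by rw [hq]; push_cast; ring
      rw [e1, e2, SG_extend (R := 2 * k + 1) (i := 2 * k) (by omega) (by omega) (by
        have : (1 / 3 + -(1 / 3 + ((2 * k : ℕ) : ℚ)) + ((2 * k : ℕ) : ℚ)) = 0 := by
          push_cast; ring
        rw [this]; ring), SG_I_third, chi_one hm]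
      have hr := rhoA h3 hk
      have hr0 := (rho_pos (y0 := 1 / 3) (by norm_num) (2 * k)).ne'
      have e5 : AA p ^ 2 = 64 ^ (2 * k) := by
        unfold AA
        have : p - 1 = 3 * (2 * k) := by omega
        rw [this, ← pow_mul, show 3 * (2 * k) * 2 = 6 * (2 * k) by ring, pow_mul]
        norm_num
      have e6 : (1 / 3 + ((2 * k : ℕ) : ℚ)) = p / 3 := by rw [hq]; push_cast; ring
      rw [e5, e6, ← hr]
      have h64 : ((64 : ℚ) ^ (2 * k)) ≠ 0 := by positivity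
      generalize rho (1 / 3) (2 * k) = ρ at *
      generalize Blk p (-1 / 3) = b1 at *
      generalize Blk p (1 / 3) = b2 at *
      field_simp
      norm_num
    · obtain ⟨k, hk⟩ : ∃ k, p = 3 * (2 * k + 1) + 2 := ⟨p / 6, by omega⟩
      have hq : (p : ℚ) = 3 * (2 * k + 1) + 2 := by exact_mod_cast hk
      have e1 : (p : ℚ) * (1 / 3) = 2 / 3 + ((2 * k + 1 : ℕ) : ℚ) := by rw [hq]; push_cast; ring
      have e2 : (p : ℚ) * (-1 / 3) = -(2 / 3 + ((2 * k + 1 : ℕ) : ℚ)) := by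
        rw [hq]; push_cast; ring
      rw [e1, e2, SG_extend (R := 2 * k + 1 + 1) (i := 2 * k + 1) (by omega) (by omega) (by
        have : (2 / 3 + -(2 / 3 + ((2 * k + 1 : ℕ) : ℚ)) + ((2 * k + 1 : ℕ) : ℚ)) = 0 := by
          push_cast; ring
        rw [this]; ring), SG_I_twothird, chi_two hm]
      have hr := rhoC h3 hk
      have hr0 := (rho_pos (y0 := 2 / 3) (by norm_num) (2 * k + 1)).ne'
      have e5 : AA p ^ 2 = 4 * 64 ^ (2 * k + 1) := by
        unfold AA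
        have : p - 1 = 3 * (2 * k + 1) + 1 := by omega
        rw [this, ← pow_mul, show (3 * (2 * k + 1) + 1) * 2 = 6 * (2 * k + 1) + 2 by ring, pow_add,
          pow_mul]
        norm_num
        ring
      have e6 : (2 / 3 + ((2 * k + 1 : ℕ) : ℚ)) = p / 3 := by rw [hq]; push_cast; ring
      have hr2 : Blk p (1 / 3) = -(5 / 2) * (rho (2 / 3) (2 * k + 1) * (64 ^ (2 * k + 1) *
        (p * Blk p (-1 / 3)))) := by linear_combination (5 / 2 : ℚ) * hr
      rw [e5, e6, hr2]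
      have h64 : ((64 : ℚ) ^ (2 * k + 1)) ≠ 0 := by positivity
      generalize rho (2 / 3) (2 * k + 1) = ρ at *
      generalize Blk p (-1 / 3) = b1 at *
      generalize Blk p (1 / 3) = b2 at *
      field_simp
      norm_num
  have hmem : chi p * (4 / 3 * p - 1) * AA p ^ 2 ∈ ZP p :=
    mul_mem (mul_mem chi_mem (sub_mem (mul_mem (const_mem h3 0 1 4 (by norm_num)) hpm) (one_mem _)))
      (pow_mem (Un_AA h3).mem 2)
  have h2 := Cg_of_Rl_one (ratio1 h3) hmem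
  rw [← hval] at h2
  exact h2.trans h1.symm

theorem R_b2 (h3 : 3 < p) {h : ℕ} (hh : p = 2 * h + 1) :
    Dv p 3 (PolG p h (2 / 3) (-2 / 3) - pred p (2 / 3) (-2 / 3)) := by
  have h1 := pred_cg h3 (n := 2 / 3) (m := -2 / 3) 4 0 (by norm_num) (by norm_num)
    (by unfold gPsi; norm_num) (twothird_mem h3) (const_mem h3 0 1 (-2) (by norm_num))
  have hpm : (p : ℚ) ∈ ZP p := p_mem
  have hpn : (p : ℚ) ≠ 0 := p_ne
  have hodd : p % 2 = 1 := Nat.odd_iff.1 (hp.out.odd_of_ne_two (by omega))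
  have hB1 := Blk_ne (p := p) h3 (z := 1 / 3) (third_mem h3)
  have hB2 := Blk_ne (p := p) h3 (z := -1 / 3) (const_mem h3 0 1 (-1) (by norm_num))
  have hB3 := Blk_ne (p := p) h3 (z := 2 / 3) (twothird_mem h3)
  have hB4 := Blk_ne (p := p) h3 (z := 5 / 3) (const_mem h3 0 1 5 (by norm_num))
  have hpred : chi p * (2 + 3 * (-2 / 3) - 6 * (2 / 3)) *
      ((1 + 2 * (p * (-2 / 3)) - 2 * (p * (2 / 3))) * (AA p ^ (4 : ℤ) * RR p ^ (0 : ℤ))) =
      chi p * (4 * (8 / 3 * p - 1)) * AA p ^ 4 := by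
    rw [zpow_zero]
    have : AA p ^ (4 : ℤ) = AA p ^ (4 : ℕ) := by norm_cast
    rw [this]; ring
  rw [hpred] at h1
  have hval : PolG p h (2 / 3) (-2 / 3) = chi p * (4 * (8 / 3 * p - 1)) * AA p ^ 4 *
      (Blk p (1 / 3) * Blk p (-1 / 3) / (Blk p (2 / 3) * Blk p (5 / 3))) := by
    rw [PolG_eq h3 hh (by norm_num)]
    rcases p_mod_three h3 with hm | hm
    · obtain ⟨k, hk⟩ : ∃ k, p = 3 * (2 * k) + 1 := ⟨p / 6, by omega⟩
      have hq : (p : ℚ) = 3 * (2 * k) + 1 := by exact_mod_cast hk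
      have e1 : (p : ℚ) * (2 / 3) = 2 / 3 + ((2 * (2 * k) : ℕ) : ℚ) := by rw [hq]; push_cast; ring
      have e2 : (p : ℚ) * (-2 / 3) = -(2 / 3 + ((2 * (2 * k) : ℕ) : ℚ)) := by
        rw [hq]; push_cast; ring
      rw [e1, e2, SG_extend (R := 2 * (2 * k) + 1) (i := 2 * (2 * k)) (by omega) (by omega) (by
        have : (2 / 3 + -(2 / 3 + ((2 * (2 * k) : ℕ) : ℚ)) + ((2 * (2 * k) : ℕ) : ℚ)) = 0 := by
          push_cast; ring
        rw [this]; ring), SG_I_twothird, chi_one hm]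
      have hr := rhoB h3 hk
      have hr0 := (rho_pos (y0 := 2 / 3) (by norm_num) (2 * (2 * k))).ne'
      have e5 : AA p ^ 4 = 64 ^ (2 * (2 * k)) := by
        unfold AA
        have : p - 1 = 3 * (2 * k) := by omega
        rw [this, ← pow_mul, show 3 * (2 * k) * 4 = 6 * (2 * (2 * k)) by ring, pow_mul]
        norm_num
      have e6 : (2 / 3 + ((2 * (2 * k) : ℕ) : ℚ)) = p * 2 / 3 := by rw [hq]; push_cast; ring
      rw [e5, e6, ← hr]
      have h64 : ((64 : ℚ) ^ (2 * (2 * k))) ≠ 0 := by positivity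
      generalize rho (2 / 3) (2 * (2 * k)) = ρ at *
      generalize Blk p (-1 / 3) = b1 at *
      generalize Blk p (1 / 3) = b2 at *
      field_simp
      norm_num
      try ring
    · obtain ⟨k, hk⟩ : ∃ k, p = 3 * (2 * k + 1) + 2 := ⟨p / 6, by omega⟩
      have hq : (p : ℚ) = 3 * (2 * k + 1) + 2 := by exact_mod_cast hk
      have e1 : (p : ℚ) * (2 / 3) = 1 / 3 + ((2 * (2 * k + 1) + 1 : ℕ) : ℚ) := by
        rw [hq]; push_cast; ring
      have e2 : (p : ℚ) * (-2 / 3) = -(1 / 3 + ((2 * (2 * k + 1) + 1 : ℕ) : ℚ)) := by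
        rw [hq]; push_cast; ring
      rw [e1, e2, SG_extend (R := 2 * (2 * k + 1) + 1 + 1) (i := 2 * (2 * k + 1) + 1) (by omega)
        (by omega) (by
        have : (1 / 3 + -(1 / 3 + ((2 * (2 * k + 1) + 1 : ℕ) : ℚ)) +
          ((2 * (2 * k + 1) + 1 : ℕ) : ℚ)) = 0 := by push_cast; ring
        rw [this]; ring), SG_I_third, chi_two hm]
      have hr := rhoD h3 hk
      have hr0 := (rho_pos (y0 := 1 / 3) (by norm_num) (2 * (2 * k + 1) + 1)).ne'
      have e5 : AA p ^ 4 = 1 / 4 * 64 ^ (2 * (2 * k + 1) + 1) := by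
        unfold AA
        have : p - 1 = 3 * (2 * k + 1) + 1 := by omega
        rw [this, ← pow_mul, show (3 * (2 * k + 1) + 1) * 4 = 6 * (2 * (2 * k + 1)) + 4 by ring,
          pow_add, pow_mul, pow_succ (64 : ℚ)]
        norm_num
        ring
      have e6 : (1 / 3 + ((2 * (2 * k + 1) + 1 : ℕ) : ℚ)) = p * 2 / 3 := by
        rw [hq]; push_cast; ring
      have hr2 : Blk p (2 / 3) * Blk p (5 / 3) = -(2 / 5) * (rho (1 / 3) (2 * (2 * k + 1) + 1) *
        (64 ^ (2 * (2 * k + 1) + 1) * (p * (Blk p (1 / 3) * Blk p (-1 / 3))))) := by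
        linear_combination (2 / 5 : ℚ) * hr
      rw [e5, e6, hr2]
      have h64 : ((64 : ℚ) ^ (2 * (2 * k + 1) + 1)) ≠ 0 := by positivity
      generalize rho (1 / 3) (2 * (2 * k + 1) + 1) = ρ at *
      generalize Blk p (-1 / 3) = b1 at *
      generalize Blk p (1 / 3) = b2 at *
      field_simp
      norm_num
      try ring
  have h4m : (4 : ℚ) ∈ ZP p := by
    have := int_mem (p := p) 4
    exact_mod_cast this
  have hmem : chi p * (4 * (8 / 3 * p - 1)) * AA p ^ 4 ∈ ZP p :=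
    mul_mem (mul_mem chi_mem (mul_mem h4m
      (sub_mem (mul_mem (const_mem h3 0 1 8 (by norm_num)) hpm) (one_mem _))))
      (pow_mem (Un_AA h3).mem 4)
  have h2 := Cg_of_Rl_one (ratio2 h3) hmem
  rw [← hval] at h2
  exact h2.trans h1.symm

/-- the main congruence for the block sum -/
theorem PolG_congr (h3 : 3 < p) {h : ℕ} (hh : p = 2 * h + 1) :
    ∀ n ∈ ZP p, ∀ m ∈ ZP p, Cg p 3 (PolG p h n m) (pred p n m) := by
  have hC := (InC_PolG h3 hh).sub (InC_pred h3)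
  have r0 := R_zero h3 hh (m := 0) (by norm_num)
  have r1 := R_zero h3 hh (m := 1) (by norm_num)
  have r2 := R_zero h3 hh (m := 2) (by norm_num)
  have r3 := R_zero h3 hh (m := 3) (by norm_num)
  push_cast at r0 r1 r2 r3
  exact InC_vanish h3 hC (InA_Wf h3 hh) (fun n _ => R_line h n) r0 r1 r2 r3
    (R_b1 h3 hh) (R_b2 h3 hh) (R_n1 h3 hh) (R_n2 h3 hh) (W_node h3 hh)

end MP18afd0
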