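import Mathlib
import Pool.Agent.Work.MP_18afd0_nt.PolMain
import Pool.Agent.Work.MP_18afd0_nt.Integral
import Pool.Agent.Work.MP_18afd0_nt.Bern

/-!
# The truncated sums at multiples of `p`
-/

namespace MP18afd0

open Finset

variable {p : ℕ} [hp : Fact p.Prime]

theorem psi_step (i d : ℕ) :
    V i (d + 1) * (((i + 1 + d : ℕ) : ℚ) * (d + 1) * (i + 2 * d + 2)) -
      V (i + 1) d * (((i + 1 + d : ℕ) : ℚ) * d * (i + 2 * d + 1)) =
    -(16 * ((i + 1 + d : ℕ) : ℚ) * W (i + 1) d * gPsi ((i + 1 + d : ℕ) : ℚ) (-((i + 1 : ℕ) : ℚ))) := by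
  rw [V_shift1]
  unfold W gPsi
  generalize V (i + 1) d = v
  push_cast
  have e1 : (4 * ((i : ℚ) + 1) + 2 * d - 1) = 4 * i + 2 * d + 3 := by ring
  rw [e1]
  field_simp
  ring

/-- one term of the block decomposition -/
theorem term_congr (h3 : 3 < p) (i k : ℕ) : ∃ z ∈ ZP p,
    (-(16 * ((p : ℚ) * ((i + 1 + k : ℕ) : ℚ)) * W (p * (i + 1)) (p * k))) *
      SG p ((p : ℚ) * ((i + 1 + k : ℕ) : ℚ)) (-((p : ℚ) * ((i + 1 : ℕ) : ℚ))) =
    chi p * p * Gv (i + 1) k +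
      kap p * (p : ℚ) ^ 3 * (V i (k + 1) * (((i + 1 + k : ℕ) : ℚ) * (k + 1) * (i + 2 * k + 2)) -
      V (i + 1) k * (((i + 1 + k : ℕ) : ℚ) * k * (i + 2 * k + 1))) +
      (p : ℚ) ^ 4 * ((i + 1 + k : ℕ) : ℚ) * z := by
  have hodd : p % 2 = 1 := Nat.odd_iff.1 (hp.out.odd_of_ne_two (by omega))
  obtain ⟨h, hh⟩ : ∃ h, p = 2 * h + 1 := ⟨p / 2, by omega⟩
  have hpm : (p : ℚ) ∈ ZP p := p_mem
  have hpn : (p : ℚ) ≠ 0 := p_ne
  have c2 : (2 : ℚ) ∈ ZP p := (Un_two h3).mem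
  have c3 : (3 : ℚ) ∈ ZP p := (Un_three h3).mem
  have c6 : (6 : ℚ) ∈ ZP p := by
    have := int_mem (p := p) 6
    exact_mod_cast this
  set N : ℚ := ((i + 1 + k : ℕ) : ℚ) with hN
  set J : ℚ := ((i + 1 : ℕ) : ℚ) with hJ
  have hNm : N ∈ ZP p := nat_mem _
  have hJm : J ∈ ZP p := nat_mem _
  have hNJ : N = J + k := by rw [hN, hJ]; push_cast; ring
  have hJ1 : J = (i : ℚ) + 1 := by rw [hJ]; push_cast; ring
  -- denominators
  have hne : (4 * J + 2 * (k : ℚ) - 1) ≠ 0 := by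
    have : (4 * J + 2 * (k : ℚ) - 1) = 4 * i + 2 * k + 3 := by rw [hJ1]; ring
    rw [this]; positivity
  have hne' : 1 + 2 * (-J) - 2 * N ≠ 0 := by
    intro h0
    apply hne
    rw [hNJ] at h0
    linarith
  -- the block sum
  have hPol := PolG_eq h3 hh hne'
  have hSG : SG p (p * N) (-(p * J)) = -(PolG p h N (-J)) / (4 * J + 2 * (k : ℚ) - 1) := by
    have e1 : (p : ℚ) * (-J) = -(p * J) := by ring
    rw [e1] at hPol
    rw [eq_div_iff hne, hPol]
    linear_combination (-2 * SG p (p * N) (-(p * J))) * hNJ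
  -- the hypergeometric term
  obtain ⟨w, hw, hwe⟩ := V_block h3 (i + 1) k
  set D : ℚ := 64 ^ ((p - 1) * (i + 1 + k)) * 27 ^ ((p - 1) * k) with hD
  have u64 : Un p (64 : ℚ) := Un_const h3 0 0 6 0 (by norm_num)
  have u27 : Un p (27 : ℚ) := Un_const h3 0 0 0 3 (by norm_num)
  have hDu : Un p D := (u64.pow _).mul (u27.pow _)
  -- E
  set E : ℚ := 1 + 2 * (p * (-J)) - 2 * (p * N) with hE
  have hEu : Un p E := by
    have := Un_add (p := p) Un_one (Dv_pmul (mul_mem (neg_mem c2) (add_mem hJm hNm)))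
    convert this using 1
    rw [hE]; ring
  -- LL
  have hLL : Cg p 3 (LL p N (-J)) D := by
    have h1 := LL_cg h3 (n := N) (m := -J) (((6 * (i + 1 + k) : ℕ)) : ℤ) (((6 * k : ℕ)) : ℤ)
      (by rw [hN]; push_cast; ring) (by rw [hNJ]; push_cast; ring)
    refine h1.trans (Cg.of_eq ?_)
    rw [zpow_natCast, zpow_natCast, RR_pow h3, hD]
    congr 1
    unfold AA
    rw [← pow_mul, show (64 : ℚ) = 2 ^ 6 by norm_num, ← pow_mul]
    congr 1
    ring
  have hg : gPsi N (-J) ∈ ZP p := by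
    unfold gPsi
    have h16 : (1 / 16 : ℚ) ∈ ZP p := const_mem h3 4 0 1 (by norm_num)
    have hmJ : -J ∈ ZP p := neg_mem hJm
    refine mul_mem h16 (sub_mem ?_ ?_)
    · exact mul_mem (mul_mem (add_mem hmJ (third_mem h3)) (add_mem hmJ (twothird_mem h3)))
        (add_mem (add_mem (mul_mem c2 hNm) (mul_mem c2 hmJ)) (one_mem _))
    · exact mul_mem (mul_mem (add_mem hNm hmJ) (add_mem (mul_mem c2 hNm) hmJ))
        (sub_mem (add_mem (one_mem _) (mul_mem c2 hmJ)) (mul_mem c2 hNm))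
  set c : ℚ := chi p * (2 + 3 * (-J) - 6 * N) + kap p * (p : ℚ) ^ 2 * gPsi N (-J) with hc
  have hcm : c ∈ ZP p := by
    refine add_mem (mul_mem chi_mem (sub_mem (add_mem c2 (mul_mem c3 (neg_mem hJm))) (mul_mem c6 hNm)))
      (mul_mem (mul_mem (kap_mem h3) (pow_mem hpm 2)) hg)
  have hP : Cg p 3 (PolG p h N (-J)) (c * (E * D)) := by
    refine (PolG_congr h3 hh N hNm (-J) (neg_mem hJm)).trans ?_
    unfold pred
    exact Cg.smul hcm (Cg.smul hEu.mem hLL)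
  obtain ⟨z1, hz1, hz1e⟩ := hP
  have hWm := W_mem h3 i k
  refine ⟨-(16 * W (i + 1) k * (w * c + (1 + (p : ℚ) ^ 3 * w) * (z1 * (E * D)⁻¹))), ?_, ?_⟩
  · have h16 : (16 : ℚ) ∈ ZP p := by
      have := int_mem (p := p) 16
      exact_mod_cast this
    exact neg_mem (mul_mem (mul_mem h16 hWm) (add_mem (mul_mem hw hcm)
      (mul_mem (add_mem (one_mem _) (mul_mem (pow_mem hpm 3) hw))
        (mul_mem hz1 (hEu.mul hDu).inv.mem))))
  · have hps := psi_step i k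
    rw [hps, hSG]
    have hPe : PolG p h N (-J) = c * (E * D) + (p : ℚ) ^ 3 * z1 := by linarith
    rw [hPe]
    have hWp : W (p * (i + 1)) (p * k) = -(V (i + 1) k / D * (1 + (p : ℚ) ^ 3 * w)) / E := by
      unfold W
      rw [hwe]
      have e1 : (4 * ((p * (i + 1) : ℕ) : ℚ) + 2 * ((p * k : ℕ) : ℚ) - 1) = -E := by
        rw [hE, hNJ, hJ]; push_cast; ring
      rw [e1]
      have := hEu.ne_zero
      field_simp
    have hWV : W (i + 1) k = V (i + 1) k / (4 * J + 2 * (k : ℚ) - 1) := rfl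
    have hGv : Gv (i + 1) k = 16 * (3 * J + 6 * N - 2) * N * W (i + 1) k := by
      rw [Gv_eq_W, hNJ, hJ]; push_cast; ring
    rw [hWp, hGv, hWV, hc]
    have n1 := hEu.ne_zero
    have n2 := hDu.ne_zero
    generalize V (i + 1) k = v
    generalize (4 * J + 2 * (k : ℚ) - 1) = F at *
    clear_value E D c
    generalize gPsi N (-J) = g at *
    generalize chi p = x at *
    generalize kap p = y at *
    field_simp
    ring

theorem T_congr (h3 : 3 < p) (N : ℕ) : ∃ z ∈ ZP p,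
    T (p * N) = chi p * p * T N + kap p * (p : ℚ) ^ 3 * (2 * (N : ℚ) ^ 3 * V 0 N) +
      (p : ℚ) ^ 4 * N * z := by
  have hterm : ∀ k ∈ range N, ∃ z ∈ ZP p,
      (-(16 * ((p : ℚ) * N) * W (p * (N - k)) (p * k))) *
        SG p ((p : ℚ) * N) (-((p : ℚ) * ((N - k : ℕ) : ℚ))) =
      chi p * p * Gv (N - k) k +
      kap p * (p : ℚ) ^ 3 * (V (N - (k + 1)) (k + 1) * ((N : ℚ) * ((k + 1 : ℕ) : ℚ) * (N + ((k + 1 : ℕ) : ℚ))) -
        V (N - k) k * ((N : ℚ) * k * (N + k))) + (p : ℚ) ^ 4 * N * z := by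
    intro k hk
    rw [Finset.mem_range] at hk
    obtain ⟨i, rfl⟩ : ∃ i, N = i + 1 + k := ⟨N - k - 1, by omega⟩
    obtain ⟨z, hz, hze⟩ := term_congr h3 i k
    refine ⟨z, hz, ?_⟩
    have e1 : i + 1 + k - k = i + 1 := by omega
    have e2 : i + 1 + k - (k + 1) = i := by omega
    rw [e1, e2, hze]
    push_cast
    ring
  choose! z hz hze using hterm
  refine ⟨∑ k ∈ range N, z k, sum_mem (fun k hk => hz k hk), ?_⟩
  rw [T_block p N hp.out.pos, Finset.sum_congr rfl hze, Finset.sum_add_distrib,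
    Finset.sum_add_distrib, ← Finset.mul_sum, ← Finset.mul_sum, ← Finset.mul_sum, ← T_eq]
  have htel := Finset.sum_range_sub (fun k : ℕ => V (N - k) k * ((N : ℚ) * (k : ℚ) * (N + (k : ℚ)))) N
  rw [htel, Nat.sub_self]
  push_cast
  ring

theorem V_zero_mem (h3 : 3 < p) (N : ℕ) : V 0 N ∈ ZP p := by
  rw [V_zero_eq]
  unfold cc
  have u : Un p (1728 : ℚ) := Un_const h3 0 0 6 3 (by norm_num)
  exact mem_div_of_Un (mul_mem (pow_mem (nat_mem _) 2) (nat_mem _)) (u.neg.pow N)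

/-- the normalised sum -/
def SS (p a : ℕ) : ℚ := T (p ^ a) / (p : ℚ) ^ a

theorem V01 : V 0 1 = -1 / 144 := by
  rw [V_zero_eq]
  unfold cc
  norm_num [Nat.choose]

theorem T_one : T 1 = 7 := by
  unfold T cc
  simp

theorem SS_one (h3 : 3 < p) :
    Cg p 3 (SS p 1) (7 * chi p + 5 / 6 * (p : ℚ) ^ 2 * (Polynomial.bernoulli (p - 2)).eval (1 / 3)) := by
  obtain ⟨z, hz, hze⟩ := T_congr h3 (p := p) 1
  have hpn : (p : ℚ) ≠ 0 := p_ne
  obtain ⟨b, hb, hbe⟩ := bern_third (p := p) h3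
  have h1 : SS p 1 = 7 * chi p + 5 / 3 * (p : ℚ) ^ 2 * H2 (ap p) + (p : ℚ) ^ 3 * z := by
    unfold SS
    rw [pow_one, pow_one]
    rw [mul_one] at hze
    rw [hze, T_one, V01]
    unfold kap
    push_cast
    field_simp
    ring
  refine ⟨z - 5 / 6 * b, sub_mem hz (mul_mem (const_mem h3 1 1 5 (by norm_num)) hb), ?_⟩
  rw [h1]
  linear_combination (-5 / 6 * (p : ℚ) ^ 2) * hbe

theorem SS_step (h3 : 3 < p) (a : ℕ) (ha : 1 ≤ a) : Cg p 3 (SS p (a + 1)) (chi p * SS p a) := by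
  obtain ⟨z, hz, hze⟩ := T_congr h3 (p := p) (p ^ a)
  have hpn : (p : ℚ) ≠ 0 := p_ne
  obtain ⟨b, rfl⟩ : ∃ b, a = b + 1 := ⟨a - 1, by omega⟩
  refine ⟨kap p * ((p : ℚ) ^ (2 * b + 1) * (2 * V 0 (p ^ (b + 1)))) + z, ?_, ?_⟩
  · exact add_mem (mul_mem (kap_mem h3) (mul_mem (pow_mem p_mem _)
      (mul_mem (Un_two h3).mem (V_zero_mem h3 _)))) hz
  · unfold SS
    have e : p ^ (b + 1 + 1) = p * p ^ (b + 1) := by ring
    rw [e, hze]
    generalize V 0 (p ^ (b + 1)) = v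
    generalize T (p ^ (b + 1)) = t
    push_cast
    field_simp
    ring

theorem SS_main (h3 : 3 < p) (a : ℕ) :
    Cg p 3 (SS p (a + 1)) (7 * chi p ^ (a + 1) +
      5 / 6 * chi p ^ a * (p : ℚ) ^ 2 * (Polynomial.bernoulli (p - 2)).eval (1 / 3)) := by
  induction a with
  | zero =>
    refine (SS_one h3).trans (Cg.of_eq ?_)
    ring
  | succ a ih =>
    have h1 := SS_step h3 (a + 1) (by omega)
    refine h1.trans ((Cg.smul chi_mem ih).trans (Cg.of_eq ?_))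
    ring

end MP18afd0
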