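import Mathlib

/-!
# Definitions used in the statement of the supercongruence for `51 k + 7`
-/

namespace MP18afd0

/-- `r` is a rational number whose denominator (in lowest terms) is prime to `p`. -/
def DenPrimeTo (p : ℕ) (r : ℚ) : Prop := Nat.Coprime r.den p

/-- `r ≡ s (mod p ^ m)` for rationals: the denominators of `r` and of `s` are prime to `p`, and
`(r - s) / p ^ m` is a rational number whose denominator is prime to `p`. -/
def RatCongr (p m : ℕ) (r s : ℚ) : Prop :=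
  DenPrimeTo p r ∧ DenPrimeTo p s ∧ DenPrimeTo p ((r - s) / (p : ℚ) ^ m)

/-- The character modulo `3`: it equals `0, 1, -1` according as `n ≡ 0, 1, 2 (mod 3)`. -/
def chi3 (n : ℕ) : ℤ := if n % 3 = 0 then 0 else if n % 3 = 1 then 1 else -1

/-- `c_k = binom(2k,k)^2 binom(3k,k)`. -/
def coef (k : ℕ) : ℕ := Nat.choose (2 * k) k ^ 2 * Nat.choose (3 * k) k

/-- `S_a(p) = p ^ (-a) * ∑_{k < p ^ a} (51 k + 7) c_k / (-12 ^ 3) ^ k`. -/
def sumS (a p : ℕ) : ℚ :=
  1 / (p : ℚ) ^ a *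
    ∑ k ∈ Finset.range (p ^ a), (51 * (k : ℚ) + 7) * (coef k : ℚ) / (-((12 : ℚ) ^ 3)) ^ k

end MP18afd0
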